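import Mathlib

set_option autoImplicit false

/-!
# Keel's ring, the ring `D A`, normal monomials, characteristic polynomials

Common definitions of the project on the total cohomology of `M̄_{0,n+1}` (MP_6b5a33_co).
-/

open Finset MvPolynomial

namespace Pool.Agent.K7.H68.MO

/-! ## Keel's presentation of the cohomology ring of `M̄_{0,M}` (`M` a finite set of marked points) -/

section Keel

variable (M : Type) [Fintype M] [DecidableEq M]

/-- The boundary divisors `D_S`: `S` and its complement have at least two elements. -/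
abbrev Bd := {S : Finset M // 2 ≤ S.card ∧ 2 ≤ Sᶜ.card}

/-- Keel's relations. -/
def keelRel : Set (MvPolynomial (Bd M) ℚ) :=
  {p | ∃ S T : Bd M, T.1 = S.1ᶜ ∧ p = X S - X T} ∪
  {p | ∃ S T : Bd M, ¬ S.1 ⊆ T.1 ∧ ¬ T.1 ⊆ S.1 ∧ ¬ S.1 ⊆ T.1ᶜ ∧ ¬ T.1ᶜ ⊆ S.1 ∧ p = X S * X T} ∪
  {p | ∃ i j k l : M, i ≠ j ∧ i ≠ k ∧ i ≠ l ∧ j ≠ k ∧ j ≠ l ∧ k ≠ l ∧
    p = (∑ S : Bd M with i ∈ S.1 ∧ j ∈ S.1 ∧ k ∉ S.1 ∧ l ∉ S.1, X S) -
      ∑ S : Bd M with i ∈ S.1 ∧ k ∈ S.1 ∧ j ∉ S.1 ∧ l ∉ S.1, X S}

/-- The rational cohomology ring of `M̄_{0,M}`, by Keel's presentation. -/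
abbrev Keel : Type := MvPolynomial (Bd M) ℚ ⧸ Ideal.span (keelRel M)

variable {M}

/-- A permutation of the marked points permutes the boundary divisors. -/
def bdPerm (σ : Equiv.Perm M) (S : Bd M) : Bd M :=
  ⟨S.1.map σ.toEmbedding, by
    have h : (S.1.map σ.toEmbedding)ᶜ = S.1ᶜ.map σ.toEmbedding := by
      ext x
      simp only [mem_compl, mem_map_equiv]
    rw [h, card_map, card_map]
    exact S.2⟩

end Keel

/-! ## The ring `D A` -/

section D

variable {α : Type} [DecidableEq α]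

/-- The sets are neither nested nor disjoint. -/
def Cross (S T : Finset α) : Prop := ¬ S ⊆ T ∧ ¬ T ⊆ S ∧ ¬ Disjoint S T

instance (S T : Finset α) : Decidable (Cross S T) := by unfold Cross; infer_instance

/-- The relations of `D A`. -/
def relD (A : Finset α) : Set (MvPolynomial (Finset α) ℚ) :=
  {p | ∃ S : Finset α, (¬ S ⊆ A ∨ S.card < 2) ∧ p = X S} ∪
  {p | ∃ S T : Finset α, Cross S T ∧ p = X S * X T} ∪
  {p | ∃ i ∈ A, ∃ j ∈ A, i ≠ j ∧ p = ∑ S ∈ A.powerset with i ∈ S ∧ j ∈ S, X S}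

/-- The ring `D A`: generators `x S`, `S ⊆ A` with at least two elements. -/
abbrev D (A : Finset α) : Type := MvPolynomial (Finset α) ℚ ⧸ Ideal.span (relD A)

/-- the monomial with exponents `e` in `D A` -/
noncomputable def mon (A : Finset α) (e : Finset α →₀ ℕ) : D A :=
  Ideal.Quotient.mk _ (monomial e (1 : ℚ))

/-- the generator `x S` of `D A` -/
noncomputable def x (A : Finset α) (S : Finset α) : D A := Ideal.Quotient.mk _ (X S)

/-- The maximal elements of the family `N` among those strictly inside `v`. -/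
def kids (N : Finset (Finset α)) (v : Finset α) : Finset (Finset α) :=
  {w ∈ N | w ⊂ v ∧ ∀ u ∈ N, u ⊂ v → ¬ w ⊂ u}

/-- The number of children of `v` in the forest given by the family `N`: maximal elements of `N`
strictly inside `v`, and elements of `v` in none of these. -/
def cnt (N : Finset (Finset α)) (v : Finset α) : ℕ :=
  #(kids N v) + #{a ∈ v | ∀ w ∈ kids N v, a ∉ w}

/-- Normal exponents on `A`: the support is a nested family of subsets of `A`, and the exponent of `S` is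
at most the number of children of `S` minus two. -/
structure Normal (A : Finset α) (e : Finset α →₀ ℕ) : Prop where
  sub : ∀ S ∈ e.support, S ⊆ A
  lam : ∀ S ∈ e.support, ∀ T ∈ e.support, ¬ Cross S T
  le : ∀ S ∈ e.support, e S + 2 ≤ cnt e.support S

/-- A permutation acts on exponents. -/
noncomputable def act (σ : Equiv.Perm α) (e : Finset α →₀ ℕ) : Finset α →₀ ℕ :=
  e.mapDomain (Finset.map σ.toEmbedding)

end D

/-! ## Characteristic polynomials -/

/-- The number of cycles of `σ`, fixed points included. -/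
noncomputable def cyc {n : ℕ} (σ : Equiv.Perm (Fin n)) : ℕ :=
  Nat.card (Quotient (Equiv.Perm.SameCycle.setoid σ))

/-- The number of normal exponents fixed by `σ`. -/
noncomputable def fixN (n : ℕ) (σ : Equiv.Perm (Fin n)) : ℕ :=
  Set.ncard {e : Finset (Fin n) →₀ ℕ | Normal univ e ∧ act σ e = e}

/-- The number of normal exponents of trees fixed by `σ` (trees: one leaf, or the whole set is in the
support). -/
noncomputable def fixT (n : ℕ) (σ : Equiv.Perm (Fin n)) : ℕ :=
  Set.ncard {e : Finset (Fin n) →₀ ℕ | Normal univ e ∧ act σ e = e ∧ (n = 1 ∨ e univ ≠ 0)}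

/-- The characteristic polynomial of the permutation representation on the normal exponents. -/
noncomputable def G (n : ℕ) : Polynomial ℚ :=
  Polynomial.C ((n.factorial : ℚ)⁻¹) *
    ∑ σ : Equiv.Perm (Fin n), Polynomial.C (fixN n σ : ℚ) * Polynomial.X ^ cyc σ

/-- The same for trees. -/
noncomputable def T (n : ℕ) : Polynomial ℚ :=
  Polynomial.C ((n.factorial : ℚ)⁻¹) *
    ∑ σ : Equiv.Perm (Fin n), Polynomial.C (fixT n σ : ℚ) * Polynomial.X ^ cyc σ

/-! ## The jobs -/

/-- JOB 1 (`MO/Span.lean`): the normal monomials span `D A`. -/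
def Job1 : Prop := ∀ (α : Type) [DecidableEq α] (A : Finset α),
  Submodule.span ℚ {y : D A | ∃ e, Normal A e ∧ y = mon A e} = ⊤

/-- `∑ x U` over the sets `U` strictly containing `S`. -/
noncomputable def H {α : Type} [DecidableEq α] (A S : Finset α) : D A := ∑ U ∈ A.powerset with S ⊂ U, x A U

/-- the push-forward of the powers `y T ^ a`, see `Job2` -/
noncomputable def K {α : Type} [DecidableEq α] (A T : Finset α) : ℕ → D A
  | 0 => 0
  | 1 => if T.card = 1 then 1 else if T = A then -1 else 0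
  | (a + 2) => - H A T * K A T (a + 1) - (if T.card = 1 then 0 else x A T ^ (a + 1))

/-- JOB 2 (`MO/Push.lean`): the push-forward `D A → D (A.erase z)`. -/
def Job2 : Prop := ∀ (α : Type) [DecidableEq α] (A : Finset α) (z : α), z ∈ A → 3 ≤ A.card →
  ∃ π : D A →ₗ[ℚ] D (A.erase z), ∀ (e : Finset α →₀ ℕ) (B : Finset α), B ∈ e.support → z ∈ B → B ⊆ A →
    2 ≤ B.card → (∀ S ∈ e.support, S ⊆ A ∧ (B ⊆ S ∨ Disjoint B S)) →
    π (mon A e) = K (A.erase z) (B.erase z) (e B) *
      ∏ S ∈ e.support.erase B, x (A.erase z) (S.erase z) ^ e S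

/-- JOB 3 (`MO/Indep.lean`, from jobs 1 and 2): the normal monomials are linearly independent. -/
def Job3 : Prop := ∀ (α : Type) [DecidableEq α] (A : Finset α), 2 ≤ A.card →
  LinearIndependent ℚ (fun e : {e : Finset α →₀ ℕ // Normal A e} => mon A e.1)

/-- JOB 5 (`MO/Count.lean`): counting of fixed forests. -/
def Job5 : Prop :=
  (∀ n : ℕ, 1 ≤ n → (n : ℚ) • G n = ∑ b ∈ Icc 1 n, ∑ k ∈ Icc 1 n with k * b ≤ n,
    (b : ℚ) • (T b * G (n - k * b))) ∧
  (∀ n : ℕ, 2 ≤ n → (2 : ℚ) • G n = ∑ b ∈ Icc 1 n, ∑ k ∈ Icc 1 n with k * b ≤ n,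
    T b * G (n - k * b)) ∧ G 0 = 1 ∧ G 1 = Polynomial.X ∧ T 1 = Polynomial.X

/-- JOB 6 (`MO/Num.lean`): the numerical part. -/
def Job6 : Prop := ∀ G T : ℕ → Polynomial ℚ,
  (∀ n : ℕ, 1 ≤ n → (n : ℚ) • G n = ∑ b ∈ Icc 1 n, ∑ k ∈ Icc 1 n with k * b ≤ n,
    (b : ℚ) • (T b * G (n - k * b))) →
  (∀ n : ℕ, 2 ≤ n → (2 : ℚ) • G n = ∑ b ∈ Icc 1 n, ∑ k ∈ Icc 1 n with k * b ≤ n,
    T b * G (n - k * b)) → G 0 = 1 → G 1 = Polynomial.X → T 1 = Polynomial.X →
  (G 120).coeff 2 ^ 2 < (G 120).coeff 1 * (G 120).coeff 3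

/-! JOB 4 (`MO/Keel.lean`, from jobs 1 and 3): `Keel (Option (Fin n)) ≃ D univ`, and the trace of a
permutation is the number of fixed normal exponents. -/

end Pool.Agent.K7.H68.MO
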