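import Pool.Agent.K7.H68.MO.Norm

set_option autoImplicit false
set_option linter.unusedSectionVars false

/-! Configurations (permutation, invariant normal exponents, invariant colouring) and their
decomposition. -/

open Finset

namespace Pool.Agent.K7.H68.MO

variable {α β : Type} [DecidableEq α] [DecidableEq β]

lemma normal_add {A C C' : Finset α} {e e' : Finset α →₀ ℕ} (h : Normal C e) (h' : Normal C' e')
    (hd : Disjoint C C') (hC : C ⊆ A) (hC' : C' ⊆ A) : Normal A (e + e') := by
  have hz : ∀ S ∈ e.support, e' S = 0 := by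
    intro S hS
    by_contra hS'
    have h1 := h.sub S hS
    have h2 := h'.sub S (Finsupp.mem_support_iff.2 hS')
    have h3 := h.three hS
    have : S = ∅ := Finset.disjoint_self_iff_empty _ |>.1 (Finset.disjoint_of_subset_left h1
      (Finset.disjoint_of_subset_right h2 hd))
    rw [this] at h3
    simp at h3
  have hz' : ∀ S ∈ e'.support, e S = 0 := by
    intro S hS
    by_contra hS'
    exact (Finsupp.mem_support_iff.1 hS) (hz S (Finsupp.mem_support_iff.2 hS'))
  have hs : ∀ S, S ∈ (e + e').support ↔ S ∈ e.support ∨ S ∈ e'.support := by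
    intro S
    simp only [Finsupp.mem_support_iff, Finsupp.add_apply, Ne, Nat.add_eq_zero_iff]
    tauto
  refine ⟨fun S hS => ?_, fun S hS T hT => ?_, fun S hS => ?_⟩
  · rcases (hs S).1 hS with h1 | h1
    · exact (h.sub S h1).trans hC
    · exact (h'.sub S h1).trans hC'
  · rcases (hs S).1 hS with h1 | h1 <;> rcases (hs T).1 hT with h2 | h2
    · exact h.lam S h1 T h2
    · intro hc
      exact hc.2.2 (Finset.disjoint_of_subset_left (h.sub S h1)
        (Finset.disjoint_of_subset_right (h'.sub T h2) hd))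
    · intro hc
      exact hc.2.2 (Finset.disjoint_of_subset_left (h'.sub S h1)
        (Finset.disjoint_of_subset_right (h.sub T h2) hd.symm))
    · exact h'.lam S h1 T h2
  · rcases (hs S).1 hS with h1 | h1
    · rw [Finsupp.add_apply, hz S h1, add_zero]
      refine (h.le S h1).trans (le_of_eq (cnt_congr fun w hw => ?_))
      rw [hs w]
      refine ⟨Or.inl, fun h2 => h2.resolve_right fun h3 => ?_⟩
      have h4 := h'.three h3
      have : w = ∅ := Finset.disjoint_self_iff_empty _ |>.1
        (Finset.disjoint_of_subset_left (hw.1.trans (h.sub S h1))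
        (Finset.disjoint_of_subset_right (h'.sub w h3) hd))
      rw [this] at h4
      simp at h4
    · rw [Finsupp.add_apply, hz' S h1, zero_add]
      refine (h'.le S h1).trans (le_of_eq (cnt_congr fun w hw => ?_))
      rw [hs w]
      refine ⟨Or.inr, fun h2 => h2.resolve_left fun h3 => ?_⟩
      have h4 := h.three h3
      have : w = ∅ := Finset.disjoint_self_iff_empty _ |>.1
        (Finset.disjoint_of_subset_left (hw.1.trans (h'.sub S h1))
        (Finset.disjoint_of_subset_right (h.sub w h3) hd.symm))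
      rw [this] at h4
      simp at h4

/-- all sets of the support are inside `C` or disjoint from `C` -/
def Sep (C : Finset α) (e : Finset α →₀ ℕ) : Prop := ∀ S ∈ e.support, S ⊆ C ∨ Disjoint S C

/-- the part of `e` inside `C` -/
noncomputable def inn (C : Finset α) (e : Finset α →₀ ℕ) : Finset α →₀ ℕ := e.filter (· ⊆ C)

lemma inn_apply (C : Finset α) (e : Finset α →₀ ℕ) (S : Finset α) :
    inn C e S = if S ⊆ C then e S else 0 := Finsupp.filter_apply _ _ _

lemma mem_inn {C : Finset α} {e : Finset α →₀ ℕ} {S : Finset α} :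
    S ∈ (inn C e).support ↔ S ∈ e.support ∧ S ⊆ C := by
  rw [Finsupp.mem_support_iff, Finsupp.mem_support_iff, inn_apply]
  split_ifs with h <;> simp [h]

lemma normal_inn {A C : Finset α} {e : Finset α →₀ ℕ} (h : Normal A e) :
    Normal C (inn C e) := by
  refine ⟨fun S hS => (mem_inn.1 hS).2, fun S hS T hT => h.lam S (mem_inn.1 hS).1 T (mem_inn.1 hT).1,
    fun S hS => ?_⟩
  rw [inn_apply, if_pos (mem_inn.1 hS).2]
  refine (h.le S (mem_inn.1 hS).1).trans (le_of_eq (cnt_congr fun w hw => ?_))
  rw [mem_inn]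
  exact ⟨fun h1 => ⟨h1, hw.1.trans (mem_inn.1 hS).2⟩, fun h1 => h1.1⟩

lemma inn_add {A C : Finset α} {e : Finset α →₀ ℕ} (h : Normal A e) (hs : Sep C e) :
    inn C e + inn (A \ C) e = e := by
  ext S
  rw [Finsupp.add_apply, inn_apply, inn_apply]
  by_cases hS : S ∈ e.support
  · have h3 := h.three hS
    rcases hs S hS with h1 | h1
    · have : ¬ S ⊆ A \ C := by
        intro h2
        have : S = ∅ := Finset.disjoint_self_iff_empty _ |>.1
          (Finset.disjoint_of_subset_left h1 (Finset.disjoint_of_subset_right h2 Finset.disjoint_sdiff))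
        rw [this] at h3
        simp at h3
      rw [if_pos h1, if_neg this, add_zero]
    · have h2 : ¬ S ⊆ C := by
        intro h2
        have : S = ∅ := Finset.disjoint_self_iff_empty _ |>.1 (Finset.disjoint_of_subset_right h2 h1)
        rw [this] at h3
        simp at h3
      have h4 : S ⊆ A \ C := Finset.subset_sdiff.2 ⟨h.sub S hS, h1⟩
      rw [if_neg h2, if_pos h4, zero_add]
  · rw [Finsupp.notMem_support_iff.1 hS]
    simp

lemma inn_add_left {C C' : Finset α} {e e' : Finset α →₀ ℕ} (h : Normal C e) (h' : Normal C' e')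
    (hd : Disjoint C C') : inn C (e + e') = e := by
  ext S
  rw [inn_apply, Finsupp.add_apply]
  by_cases hS : S ⊆ C
  · rw [if_pos hS]
    have : e' S = 0 := by
      by_contra h0
      have h1 := h'.three (Finsupp.mem_support_iff.2 h0)
      have h2 := h'.sub S (Finsupp.mem_support_iff.2 h0)
      have : S = ∅ := Finset.disjoint_self_iff_empty _ |>.1
        (Finset.disjoint_of_subset_left hS (Finset.disjoint_of_subset_right h2 hd))
      rw [this] at h1
      simp at h1
    rw [this, add_zero]
  · rw [if_neg hS]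
    by_contra h0
    exact hS (h.sub S (Finsupp.mem_support_iff.2 fun h1 => h0 h1.symm))

lemma sep_add {C C' : Finset α} {e e' : Finset α →₀ ℕ} (h : Normal C e) (h' : Normal C' e')
    (hd : Disjoint C C') : Sep C (e + e') := by
  intro S hS
  have : S ∈ e.support ∨ S ∈ e'.support := by
    simp only [Finsupp.mem_support_iff, Finsupp.add_apply, Ne, Nat.add_eq_zero_iff] at hS ⊢
    tauto
  rcases this with h1 | h1
  · exact Or.inl (h.sub S h1)
  · exact Or.inr (Finset.disjoint_of_subset_left (h'.sub S h1) hd.symm)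

/-! ### configurations -/

/-- image of a set under a permutation -/
abbrev im (σ : Equiv.Perm α) (S : Finset α) : Finset α := S.map σ.toEmbedding

/-- `e` is invariant under `σ` -/
def Inv (σ : Equiv.Perm α) (e : Finset α →₀ ℕ) : Prop := ∀ S : Finset α, e (im σ S) = e S

/-- `σ` is a permutation of `A`, `e` are normal exponents on `A`, `c` is a colouring of `A` with `m`
colours, and `e`, `c` are invariant under `σ`. -/
structure IsConf (A : Finset α) (m : ℕ) (σ : Equiv.Perm α) (e : Finset α →₀ ℕ) (c : α → ℕ) :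
    Prop where
  fix : ∀ x, x ∉ A → σ x = x
  nor : Normal A e
  inv : Inv σ e
  lt : ∀ x ∈ A, c x < m
  zero : ∀ x, x ∉ A → c x = 0
  col : ∀ x, c (σ x) = c x

/-- triples -/
abbrev Tri (α : Type) : Type := Equiv.Perm α × (Finset α →₀ ℕ) × (α → ℕ)

/-- the configurations -/
def CS (A : Finset α) (m : ℕ) : Set (Tri α) := {t | IsConf A m t.1 t.2.1 t.2.2}

lemma IsConf.mem {A : Finset α} {m : ℕ} {σ : Equiv.Perm α} {e : Finset α →₀ ℕ} {c : α → ℕ}
    (h : IsConf A m σ e c) (x : α) : σ x ∈ A ↔ x ∈ A := by
  constructor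
  · intro hx
    by_contra h1
    rw [h.fix x h1] at hx
    exact h1 hx
  · intro hx
    by_contra h1
    have := h.fix _ h1
    rw [σ.injective this] at h1
    exact h1 hx

/-- `C` is a component of the forest `e` on `A` -/
structure IsComp (A : Finset α) (e : Finset α →₀ ℕ) (C : Finset α) : Prop where
  sub : C ⊆ A
  ne : C.Nonempty
  sep : Sep C e
  top : #C = 1 ∨ e C ≠ 0

/-- the forest `e` on `A` is a tree -/
def IsTree (A : Finset α) (e : Finset α →₀ ℕ) : Prop := #A = 1 ∨ e A ≠ 0

/-- the tree configurations -/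
def TS (A : Finset α) (m : ℕ) : Set (Tri α) := {t | IsConf A m t.1 t.2.1 t.2.2 ∧ IsTree A t.2.1}

/-- restriction of a permutation to an invariant set -/
def rs (σ : Equiv.Perm α) (C : Finset α) (h : ∀ x, σ x ∈ C ↔ x ∈ C) : Equiv.Perm α where
  toFun x := if x ∈ C then σ x else x
  invFun x := if x ∈ C then σ.symm x else x
  left_inv x := by
    by_cases hx : x ∈ C
    · simp [hx, (h x).2 hx]
    · simp [hx]
  right_inv x := by
    by_cases hx : x ∈ C
    · have : σ.symm x ∈ C := by rw [← h, Equiv.apply_symm_apply]; exact hx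
      simp [hx, this]
    · simp [hx]

lemma rs_apply (σ : Equiv.Perm α) (C : Finset α) (h : ∀ x, σ x ∈ C ↔ x ∈ C) (x : α) :
    rs σ C h x = if x ∈ C then σ x else x := rfl

lemma im_eq_iff {σ : Equiv.Perm α} {C : Finset α} : im σ C = C ↔ ∀ x, σ x ∈ C ↔ x ∈ C := by
  constructor
  · intro h x
    conv_lhs => rw [← h]
    simp
  · intro h
    ext x
    rw [Finset.mem_map_equiv, ← h, Equiv.apply_symm_apply]

lemma im_congr {σ τ : Equiv.Perm α} {S : Finset α} (h : ∀ x ∈ S, σ x = τ x) : im σ S = im τ S := by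
  ext y
  simp only [Finset.mem_map, Equiv.coe_toEmbedding]
  constructor
  · rintro ⟨x, hx, rfl⟩
    exact ⟨x, hx, (h x hx).symm⟩
  · rintro ⟨x, hx, rfl⟩
    exact ⟨x, hx, h x hx⟩

/-- It is enough to check invariance on the support. -/
lemma inv_of_support {σ : Equiv.Perm α} {e : Finset α →₀ ℕ} (h : ∀ S ∈ e.support, e (im σ S) = e S) :
    Inv σ e := by
  intro S
  by_cases hS : S ∈ e.support
  · exact h S hS
  · rw [Finsupp.notMem_support_iff.1 hS]
    by_contra h0
    have hinj : Function.Injective (im σ) := Finset.map_injective _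
    have h1 : e.support.image (im σ) ⊆ e.support := by
      intro T hT
      obtain ⟨U, hU, rfl⟩ := Finset.mem_image.1 hT
      rw [Finsupp.mem_support_iff, h U hU]
      exact Finsupp.mem_support_iff.1 hU
    have h2 : e.support.image (im σ) = e.support :=
      Finset.eq_of_subset_of_card_le h1 (by rw [Finset.card_image_of_injective _ hinj])
    have h3 : im σ S ∈ e.support.image (im σ) := by
      rw [h2, Finsupp.mem_support_iff]; exact h0
    obtain ⟨U, hU, hUS⟩ := Finset.mem_image.1 h3
    rw [hinj hUS] at hU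
    exact hS hU

lemma inv_inn {σ : Equiv.Perm α} {e : Finset α →₀ ℕ} {C : Finset α} (h : Inv σ e)
    (hC : ∀ x, σ x ∈ C ↔ x ∈ C) (τ : Equiv.Perm α) (hτ : ∀ x ∈ C, τ x = σ x) : Inv τ (inn C e) := by
  apply inv_of_support
  intro S hS
  obtain ⟨h1, h2⟩ := mem_inn.1 hS
  have h3 : im τ S = im σ S := im_congr fun x hx => hτ x (h2 hx)
  rw [h3, inn_apply, inn_apply, if_pos h2, if_pos, h S]
  intro y hy
  obtain ⟨x, hx, rfl⟩ := Finset.mem_map.1 hy
  exact (hC x).2 (h2 hx)

/-- Decomposition, one fixed component. -/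
theorem card_fixed_comp {A C : Finset α} {m : ℕ} (hCA : C ⊆ A) (hne : C.Nonempty) :
    Set.ncard {t : Tri α | t ∈ CS A m ∧ IsComp A t.2.1 C ∧ im t.1 C = C} =
      Set.ncard (TS C m) * Set.ncard (CS (A \ C) m) := by
  rw [← Set.ncard_prod]
  symm
  have hd : Disjoint C (A \ C) := Finset.disjoint_sdiff
  have hAC : A \ C ⊆ A := Finset.sdiff_subset
  refine Set.ncard_congr (fun p _ => (p.1.1 * p.2.1, p.1.2.1 + p.2.2.1, p.1.2.2 + p.2.2.2)) ?_ ?_ ?_
  · rintro ⟨⟨σ, e, c⟩, ⟨σ', e', c'⟩⟩ ⟨⟨h, ht⟩, h'⟩
    replace h : IsConf C m σ e c := h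
    replace h' : IsConf (A \ C) m σ' e' c' := h'
    replace ht : #C = 1 ∨ e C ≠ 0 := ht
    have hσC : ∀ x ∈ C, (σ * σ') x = σ x := by
      intro x hx
      rw [Equiv.Perm.mul_apply, h'.fix x (fun h1 => (Finset.mem_sdiff.1 h1).2 hx)]
    have hσ' : ∀ x, x ∉ C → (σ * σ') x = σ' x := by
      intro x hx
      rw [Equiv.Perm.mul_apply, h.fix]
      intro h1
      by_cases hxA : x ∈ A \ C
      · exact (Finset.mem_sdiff.1 ((h'.mem x).2 hxA)).2 h1
      · rw [h'.fix x hxA] at h1
        exact hx h1
    have hCC : im (σ * σ') C = C := by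
      rw [im_congr hσC, im_eq_iff]
      exact h.mem
    refine ⟨⟨fun x hx => ?_, ?_, ?_, fun x hx => ?_, fun x hx => ?_, fun x => ?_⟩, ⟨hCA, hne, ?_, ?_⟩,
      hCC⟩
    · change (σ * σ') x = x
      rw [hσ' x (fun h1 => hx (hCA h1)), h'.fix x (fun h1 => hx (hAC h1))]
    · exact normal_add h.nor h'.nor hd hCA hAC
    · change Inv (σ * σ') (e + e')
      intro S
      rw [Finsupp.add_apply, Finsupp.add_apply]
      have h1 : Inv (σ * σ') e := by
        apply inv_of_support
        intro S hS
        rw [im_congr fun x hx => hσC x (h.nor.sub S hS hx)]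
        exact h.inv S
      have h2 : Inv (σ * σ') e' := by
        apply inv_of_support
        intro S hS
        rw [im_congr fun x hx => hσ' x fun hxC =>
          (Finset.mem_sdiff.1 (h'.nor.sub S hS hx)).2 hxC]
        exact h'.inv S
      rw [h1 S, h2 S]
    · change c x + c' x < m
      by_cases hxC : x ∈ C
      · rw [h'.zero x (fun h1 => (Finset.mem_sdiff.1 h1).2 hxC), add_zero]
        exact h.lt x hxC
      · rw [h.zero x hxC, zero_add]
        exact h'.lt x (Finset.mem_sdiff.2 ⟨hx, hxC⟩)
    · change c x + c' x = 0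
      rw [h.zero x (fun h1 => hx (hCA h1)), h'.zero x (fun h1 => hx (hAC h1))]
    · change c ((σ * σ') x) + c' ((σ * σ') x) = c x + c' x
      by_cases hxC : x ∈ C
      · rw [hσC x hxC, h.col x]
        have h1 : σ x ∈ C := (h.mem x).2 hxC
        rw [h'.zero x (fun h2 => (Finset.mem_sdiff.1 h2).2 hxC),
          h'.zero _ (fun h2 => (Finset.mem_sdiff.1 h2).2 h1)]
      · rw [hσ' x hxC, h'.col x, h.zero x hxC, h.zero]
        intro h1
        by_cases hxA : x ∈ A \ C
        · exact (Finset.mem_sdiff.1 ((h'.mem x).2 hxA)).2 h1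
        · rw [h'.fix x hxA] at h1
          exact hxC h1
    · exact sep_add h.nor h'.nor hd
    · change #C = 1 ∨ (e + e') C ≠ 0
      rcases ht with h1 | h1
      · exact Or.inl h1
      · right
        rw [Finsupp.add_apply]
        omega
  · rintro ⟨⟨σ, e, c⟩, ⟨σ', e', c'⟩⟩ ⟨⟨τ, f, d⟩, ⟨τ', f', d'⟩⟩ ⟨⟨h, ht⟩, h'⟩ ⟨⟨k, kt⟩, k'⟩ heq
    replace h : IsConf C m σ e c := h
    replace h' : IsConf (A \ C) m σ' e' c' := h'
    replace k : IsConf C m τ f d := k
    replace k' : IsConf (A \ C) m τ' f' d' := k'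
    simp only [Prod.mk.injEq] at heq
    obtain ⟨h1, h2, h3⟩ := heq
    have e1 : e = f := by
      rw [← inn_add_left h.nor h'.nor hd, ← inn_add_left k.nor k'.nor hd, h2]
    have e2 : e' = f' := by
      rw [e1] at h2
      exact add_left_cancel h2
    have c1 : c = d := by
      funext x
      have h4 := congrFun h3 x
      simp only [Pi.add_apply] at h4
      by_cases hx : x ∈ C
      · rw [h'.zero x (fun h1 => (Finset.mem_sdiff.1 h1).2 hx),
          k'.zero x (fun h1 => (Finset.mem_sdiff.1 h1).2 hx)] at h4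
        simpa using h4
      · rw [h.zero x hx, k.zero x hx]
    have c2 : c' = d' := by
      rw [c1] at h3
      exact add_left_cancel h3
    have s1 : σ = τ := by
      ext x
      by_cases hx : x ∈ C
      · have h4 := congrArg (fun s : Equiv.Perm α => s x) h1
        simp only [Equiv.Perm.mul_apply] at h4
        rw [h'.fix x (fun h1 => (Finset.mem_sdiff.1 h1).2 hx),
          k'.fix x (fun h1 => (Finset.mem_sdiff.1 h1).2 hx)] at h4
        exact h4
      · rw [h.fix x hx, k.fix x hx]
    have s2 : σ' = τ' := by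
      rw [s1] at h1
      exact mul_left_cancel h1
    rw [e1, e2, c1, c2, s1, s2]
  · rintro ⟨σ, e, c⟩ ⟨h, hc, him⟩
    replace h : IsConf A m σ e c := h
    replace him : im σ C = C := him
    replace hc : IsComp A e C := hc
    have hmC := im_eq_iff.1 him
    have hmA : ∀ x, σ x ∈ A \ C ↔ x ∈ A \ C := by
      intro x
      rw [Finset.mem_sdiff, Finset.mem_sdiff, h.mem, hmC]
    refine ⟨⟨⟨rs σ C hmC, inn C e, fun x => if x ∈ C then c x else 0⟩,
      ⟨rs σ (A \ C) hmA, inn (A \ C) e, fun x => if x ∈ A \ C then c x else 0⟩⟩, ⟨⟨?_, ?_⟩, ?_⟩, ?_⟩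
    · refine ⟨fun x hx => ?_, normal_inn h.nor, ?_, fun x hx => ?_, fun x hx => ?_, fun x => ?_⟩
      · change rs σ C hmC x = x
        rw [rs_apply, if_neg hx]
      · exact inv_inn h.inv hmC _ fun x hx => by rw [rs_apply, if_pos hx]
      · change (if x ∈ C then c x else 0) < m
        rw [if_pos hx]
        exact h.lt x (hCA hx)
      · change (if x ∈ C then c x else 0) = 0
        rw [if_neg hx]
      · change (if rs σ C hmC x ∈ C then c (rs σ C hmC x) else 0) = if x ∈ C then c x else 0
        rw [rs_apply]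
        by_cases hx : x ∈ C
        · rw [if_pos hx, if_pos ((hmC x).2 hx), if_pos hx, h.col]
        · rw [if_neg hx, if_neg hx]
    · change #C = 1 ∨ inn C e C ≠ 0
      rw [inn_apply, if_pos subset_rfl]
      exact hc.top
    · refine ⟨fun x hx => ?_, normal_inn h.nor, ?_, fun x hx => ?_, fun x hx => ?_, fun x => ?_⟩
      · change rs σ (A \ C) hmA x = x
        rw [rs_apply, if_neg hx]
      · exact inv_inn h.inv hmA _ fun x hx => by rw [rs_apply, if_pos hx]
      · change (if x ∈ A \ C then c x else 0) < m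
        rw [if_pos hx]
        exact h.lt x (hAC hx)
      · change (if x ∈ A \ C then c x else 0) = 0
        rw [if_neg hx]
      · change (if rs σ (A \ C) hmA x ∈ A \ C then c (rs σ (A \ C) hmA x) else 0) =
          if x ∈ A \ C then c x else 0
        rw [rs_apply]
        by_cases hx : x ∈ A \ C
        · rw [if_pos hx, if_pos ((hmA x).2 hx), if_pos hx, h.col]
        · rw [if_neg hx, if_neg hx]
    · refine Prod.ext ?_ (Prod.ext ?_ ?_)
      · change rs σ C hmC * rs σ (A \ C) hmA = σ
        ext x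
        rw [Equiv.Perm.mul_apply, rs_apply, rs_apply]
        by_cases hx : x ∈ A \ C
        · rw [if_pos hx, if_neg (fun h1 => (Finset.mem_sdiff.1 ((hmA x).2 hx)).2 h1)]
        · rw [if_neg hx]
          by_cases hxC : x ∈ C
          · rw [if_pos hxC]
          · rw [if_neg hxC, h.fix x fun hxA => hx (Finset.mem_sdiff.2 ⟨hxA, hxC⟩)]
      · exact inn_add h.nor hc.sep
      · change (fun x => if x ∈ C then c x else 0) + (fun x => if x ∈ A \ C then c x else 0) = c
        funext x
        change (if x ∈ C then c x else 0) + (if x ∈ A \ C then c x else 0) = c x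
        by_cases hxC : x ∈ C
        · rw [if_pos hxC, if_neg fun h1 => (Finset.mem_sdiff.1 h1).2 hxC, add_zero]
        · rw [if_neg hxC, zero_add]
          by_cases hxA : x ∈ A
          · rw [if_pos (Finset.mem_sdiff.2 ⟨hxA, hxC⟩)]
          · rw [if_neg fun h1 => hxA (hAC h1), h.zero x hxA]

end Pool.Agent.K7.H68.MO
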