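import Pool.Agent.K7.H68.MO.Tra

set_option autoImplicit false
set_option linter.unusedSectionVars false

/-! Counting of configurations. -/

open Finset

namespace Pool.Agent.K7.H68.MO

variable {α : Type} [DecidableEq α] [Fintype α]

/-- the configurations as a finite set -/
noncomputable def CF (A : Finset α) (m : ℕ) : Finset (Tri α) := (finite_CS A m).toFinset

lemma mem_CF {A : Finset α} {m : ℕ} {t : Tri α} : t ∈ CF A m ↔ IsConf A m t.1 t.2.1 t.2.2 := by
  unfold CF
  rw [Set.Finite.mem_toFinset]
  rfl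

lemma card_CF (A : Finset α) (m : ℕ) : #(CF A m) = (CS A m).ncard :=
  (Set.ncard_eq_toFinset_card _ (finite_CS A m)).symm

lemma erase_cnt {A : Finset α} {e : Finset α →₀ ℕ} {S : Finset α} (hS : S ⊆ A) :
    cnt (e.erase A).support S = cnt e.support S := by
  apply cnt_congr
  intro w hw
  rw [Finsupp.support_erase, Finset.mem_erase]
  refine ⟨fun h => h.2, fun h => ⟨?_, h⟩⟩
  rintro rfl
  exact hw.2 hS

lemma normal_erase {A : Finset α} {e : Finset α →₀ ℕ} (h : Normal A e) : Normal A (e.erase A) := by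
  have hs : ∀ S ∈ (e.erase A).support, S ≠ A ∧ S ∈ e.support := fun S hS => by
    rw [Finsupp.support_erase, Finset.mem_erase] at hS
    exact hS
  refine ⟨fun S hS => h.sub S (hs S hS).2, fun S hS T hT => h.lam S (hs S hS).2 T (hs T hT).2,
    fun S hS => ?_⟩
  rw [erase_cnt (h.sub S (hs S hS).2), Finsupp.erase_ne (hs S hS).1]
  exact h.le S (hs S hS).2

lemma normal_of_erase {A : Finset α} {e : Finset α →₀ ℕ} (h : Normal A (e.erase A))
    (hA : e A + 2 ≤ cnt (e.erase A).support A) : Normal A e := by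
  have hs : ∀ S ∈ e.support, S = A ∨ S ∈ (e.erase A).support := fun S hS => by
    rw [Finsupp.support_erase, Finset.mem_erase]
    by_cases h1 : S = A
    · exact Or.inl h1
    · exact Or.inr ⟨h1, hS⟩
  have hsub : ∀ S ∈ e.support, S ⊆ A := fun S hS => by
    rcases hs S hS with rfl | h1
    · exact subset_rfl
    · exact h.sub S h1
  refine ⟨hsub, fun S hS T hT hc => ?_, fun S hS => ?_⟩
  · rcases hs S hS with rfl | h1
    · exact hc.2.1 (hsub T hT)
    · rcases hs T hT with rfl | h2
      · exact hc.1 (hsub S hS)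
      · exact h.lam S h1 T h2 hc
  · rw [← erase_cnt (hsub S hS)]
    rcases hs S hS with rfl | h1
    · exact hA
    · have h2 := h.le S h1
      rw [Finsupp.support_erase, Finset.mem_erase] at h1
      rwa [Finsupp.erase_ne h1.1] at h2

lemma im_eq_A {A : Finset α} {σ : Equiv.Perm α} (hA : ∀ x, σ x ∈ A ↔ x ∈ A) {S : Finset α} :
    im σ S = A ↔ S = A := by
  have h := im_eq_iff.2 hA
  constructor
  · intro h1
    rw [← h] at h1
    exact Finset.map_injective _ h1
  · rintro rfl
    exact h

lemma inv_erase_iff {A : Finset α} {σ : Equiv.Perm α} {e : Finset α →₀ ℕ}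
    (hA : ∀ x, σ x ∈ A ↔ x ∈ A) : Inv σ (e.erase A) ↔ Inv σ e := by
  unfold Inv
  refine forall_congr' fun S => ?_
  by_cases hS : S = A
  · subst hS
    rw [im_eq_iff.2 hA]
    simp
  · rw [Finsupp.erase_ne hS, Finsupp.erase_ne (fun h => hS ((im_eq_A hA).1 h))]

/-- The average number of components is two. -/
theorem sum_comps_CF {A : Finset α} (hA : 2 ≤ #A) (m : ℕ) :
    ∑ t ∈ CF A m, #(comps A t.2.1) = 2 * #(CF A m) := by
  classical
  set F1 := {t ∈ CF A m | t.2.1 A ≠ 0} with hF1
  set F0 := {t ∈ CF A m | ¬ t.2.1 A ≠ 0} with hF0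
  have hF : #F1 + #F0 = #(CF A m) := Finset.card_filter_add_card_filter_not _
  let ρ : Tri α → Tri α := fun t => (t.1, t.2.1.erase A, t.2.2)
  have hmap : Set.MapsTo ρ F1 F0 := by
    intro t ht
    rw [Finset.mem_coe, hF1, Finset.mem_filter, mem_CF] at ht
    rw [Finset.mem_coe, hF0, Finset.mem_filter, mem_CF]
    obtain ⟨h, -⟩ := ht
    refine ⟨⟨h.fix, normal_erase h.nor, (inv_erase_iff h.mem).2 h.inv, h.lt, h.zero, h.col⟩, ?_⟩
    change ¬ (t.2.1.erase A) A ≠ 0
    rw [Finsupp.erase_same]
    simp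
  have h1 : #F1 = ∑ t ∈ F0, (#(comps A t.2.1) - 2) := by
    rw [Finset.card_eq_sum_card_fiberwise hmap]
    refine Finset.sum_congr rfl fun t ht => ?_
    rw [hF0, Finset.mem_filter, mem_CF, not_not] at ht
    obtain ⟨h, h0⟩ := ht
    obtain ⟨σ, e, c⟩ := t
    replace h : IsConf A m σ e c := h
    replace h0 : e A = 0 := h0
    have herase : ∀ a, (e + Finsupp.single A a).erase A = e := by
      intro a
      ext S
      by_cases hS : S = A
      · subst hS
        rw [Finsupp.erase_same, h0]
      · rw [Finsupp.erase_ne hS, Finsupp.add_apply, Finsupp.single_eq_of_ne hS, add_zero]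
    have hval : ∀ a, (e + Finsupp.single A a : Finset α →₀ ℕ) A = a := by
      intro a
      rw [Finsupp.add_apply, h0, Finsupp.single_eq_same, zero_add]
    have hcard : #(comps A e) = cnt e.support A := comps_card h.nor h0 hA
    have h2 : ({t ∈ F1 | ρ t = (σ, e, c)} : Finset (Tri α)) =
        (Finset.Icc 1 (#(comps A e) - 2)).image fun a => (σ, e + Finsupp.single A a, c) := by
      ext t
      rw [Finset.mem_filter, hF1, Finset.mem_filter, mem_CF, Finset.mem_image]
      constructor
      · rintro ⟨⟨k, hk⟩, hρ⟩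
        obtain ⟨τ, f, d⟩ := t
        replace k : IsConf A m τ f d := k
        replace hk : f A ≠ 0 := hk
        simp only [ρ, Prod.mk.injEq] at hρ
        obtain ⟨rfl, rfl, rfl⟩ := hρ
        refine ⟨f A, ?_, ?_⟩
        · rw [Finset.mem_Icc, hcard, erase_cnt subset_rfl]
          have := k.nor.le A (Finsupp.mem_support_iff.2 hk)
          omega
        · refine Prod.ext rfl (Prod.ext ?_ rfl)
          exact Finsupp.erase_add_single A f
      · rintro ⟨a, ha, rfl⟩
        rw [Finset.mem_Icc, hcard] at ha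
        refine ⟨⟨⟨h.fix, ?_, ?_, h.lt, h.zero, h.col⟩, ?_⟩, ?_⟩
        · change Normal A (e + Finsupp.single A a)
          apply normal_of_erase
          · rw [herase]; exact h.nor
          · rw [herase, hval]
            omega
        · change Inv σ (e + Finsupp.single A a)
          rw [← inv_erase_iff h.mem, herase]
          exact h.inv
        · change (e + Finsupp.single A a : Finset α →₀ ℕ) A ≠ 0
          rw [hval]
          omega
        · change (σ, (e + Finsupp.single A a).erase A, c) = (σ, e, c)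
          rw [herase]
    rw [h2, Finset.card_image_of_injective, Nat.card_Icc]
    · change #(comps A e) - 2 + 1 - 1 = #(comps A e) - 2
      omega
    · intro a b hab
      simp only [Prod.mk.injEq, true_and, and_true] at hab
      rw [← hval a, ← hval b, hab]
  have h2 : ∑ t ∈ CF A m, #(comps A t.2.1) =
      ∑ t ∈ F1, #(comps A t.2.1) + ∑ t ∈ F0, #(comps A t.2.1) :=
    (Finset.sum_filter_add_sum_filter_not _ _ _).symm
  have h3 : ∑ t ∈ F1, #(comps A t.2.1) = #F1 := by
    rw [Finset.card_eq_sum_ones]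
    refine Finset.sum_congr rfl fun t ht => ?_
    rw [hF1, Finset.mem_filter, mem_CF] at ht
    rw [comps_top ht.1.nor ht.2, card_singleton]
  have h4 : ∑ t ∈ F0, #(comps A t.2.1) = #F1 + 2 * #F0 := by
    rw [h1, mul_comm, Finset.card_eq_sum_ones, Finset.sum_mul, ← Finset.sum_add_distrib]
    refine Finset.sum_congr rfl fun t ht => ?_
    rw [hF0, Finset.mem_filter, mem_CF, not_not] at ht
    have := two_le_comps ht.1.nor ht.2 hA
    omega
  rw [h2, h3, h4, ← hF]
  ring

open Classical in
/-- the number of configurations with component `C` -/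
noncomputable def NC (A C : Finset α) (m : ℕ) : ℕ := #{t ∈ CF A m | IsComp A t.2.1 C}

lemma sum_comps_swap (A : Finset α) (m : ℕ) (w : Finset α → ℕ) :
    ∑ t ∈ CF A m, ∑ C ∈ comps A t.2.1, w C = ∑ C ∈ A.powerset, w C * NC A C m := by
  classical
  have h1 : ∀ t ∈ CF A m, ∑ C ∈ comps A t.2.1, w C =
      ∑ C ∈ A.powerset, if IsComp A t.2.1 C then w C else 0 := by
    intro t _
    unfold comps
    rw [Finset.sum_filter]
  rw [Finset.sum_congr rfl h1, Finset.sum_comm]
  refine Finset.sum_congr rfl fun C _ => ?_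
  unfold NC
  rw [← Finset.sum_filter, Finset.sum_const, smul_eq_mul, mul_comm]

lemma NC_eq (A C : Finset α) (m : ℕ) :
    NC A C m = Set.ncard {t : Tri α | t ∈ CS A m ∧ IsComp A t.2.1 C} := by
  classical
  unfold NC
  rw [← Set.ncard_coe_finset]
  congr 1
  ext t
  rw [Finset.coe_filter]
  simp only [Set.mem_ofPred_eq, mem_CF]
  rfl

theorem NC_rec {A C : Finset α} {m : ℕ} (hCA : C ⊆ A) (hne : C.Nonempty) :
    NC A C m = (TS C m).ncard * (CS (A \ C) m).ncard +
      ∑ C' ∈ (A \ C).powersetCard #C, (#C).factorial * NC (A \ C) C' m := by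
  classical
  have hnot : C ∉ (A \ C).powersetCard #C := by
    rw [Finset.mem_powersetCard]
    rintro ⟨h1, -⟩
    obtain ⟨x, hx⟩ := hne
    exact (Finset.mem_sdiff.1 (h1 hx)).2 hx
  have hmap : Set.MapsTo (fun t : Tri α => im t.1 C) ({t ∈ CF A m | IsComp A t.2.1 C} : Finset (Tri α))
      (insert C ((A \ C).powersetCard #C) : Finset (Finset α)) := by
    intro t ht
    rw [Finset.mem_coe, Finset.mem_filter, mem_CF] at ht
    obtain ⟨h, hc⟩ := ht
    have hc' := hc.im h
    rw [Finset.mem_coe, Finset.mem_insert, Finset.mem_powersetCard]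
    by_cases hd : Disjoint C (im t.1 C)
    · exact Or.inr ⟨Finset.subset_sdiff.2 ⟨hc'.sub, hd.symm⟩, card_map _⟩
    · exact Or.inl (comp_unique hc hc' hd).symm
  have h1 : NC A C m = ∑ C' ∈ insert C ((A \ C).powersetCard #C),
      #{t ∈ ({t ∈ CF A m | IsComp A t.2.1 C} : Finset (Tri α)) | im t.1 C = C'} := by
    have := Finset.card_eq_sum_card_fiberwise hmap
    unfold NC
    convert this
  have h2 : ∀ C', #{t ∈ ({t ∈ CF A m | IsComp A t.2.1 C} : Finset (Tri α)) | im t.1 C = C'} =
      Set.ncard {t : Tri α | t ∈ CS A m ∧ IsComp A t.2.1 C ∧ im t.1 C = C'} := by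
    intro C'
    rw [← Set.ncard_coe_finset]
    congr 1
    ext t
    rw [Finset.coe_filter]
    simp only [Set.mem_ofPred_eq, Finset.mem_filter, mem_CF, and_assoc]
    rfl
  rw [h1, Finset.sum_insert hnot, h2, card_fixed_comp hCA hne]
  congr 1
  refine Finset.sum_congr rfl fun C' hC' => ?_
  rw [Finset.mem_powersetCard] at hC'
  have hd : Disjoint C C' := Finset.disjoint_of_subset_right hC'.1 Finset.disjoint_sdiff
  rw [h2, card_moved_comp hCA (hC'.1.trans Finset.sdiff_subset) hne hd hC'.2.symm, NC_eq]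

/-- number of configurations on `n` points -/
noncomputable def ph (m n : ℕ) : ℕ := (CS (univ : Finset (Fin n)) m).ncard

/-- number of tree configurations on `n` points -/
noncomputable def ta (m n : ℕ) : ℕ := (TS (univ : Finset (Fin n)) m).ncard

/-- the sum over the multiples of `b` -/
noncomputable def SS (g : ℕ → ℚ) (n b : ℕ) : ℚ := ∑ k ∈ Icc 1 n with k * b ≤ n, g (n - k * b)

lemma SS_rec (g : ℕ → ℚ) {n b : ℕ} (hb : 1 ≤ b) (hn : b ≤ n) :
    SS g n b = g (n - b) + SS g (n - b) b := by
  have h1 : ({k ∈ Icc 1 n | k * b ≤ n} : Finset ℕ) =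
      insert 1 (({k ∈ Icc 1 (n - b) | k * b ≤ n - b} : Finset ℕ).image (· + 1)) := by
    ext k
    simp only [Finset.mem_filter, Finset.mem_Icc, Finset.mem_insert, Finset.mem_image]
    constructor
    · rintro ⟨⟨h1, h2⟩, h3⟩
      by_cases hk : k = 1
      · exact Or.inl hk
      · right
        obtain ⟨j, rfl⟩ : ∃ j, k = j + 1 := ⟨k - 1, by omega⟩
        have h4 : (j + 1) * b = j * b + b := by ring
        have h5 : j ≤ j * b := Nat.le_mul_of_pos_right _ hb
        exact ⟨j, ⟨⟨by omega, by omega⟩, by omega⟩, rfl⟩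
    · rintro (rfl | ⟨j, ⟨⟨h1, h2⟩, h3⟩, rfl⟩)
      · exact ⟨⟨le_rfl, by omega⟩, by omega⟩
      · have h4 : (j + 1) * b = j * b + b := by ring
        exact ⟨⟨by omega, by omega⟩, by omega⟩
  unfold SS
  rw [h1, Finset.sum_insert, Finset.sum_image]
  · rw [one_mul]
    congr 1
    refine Finset.sum_congr rfl fun k hk => ?_
    congr 1
    have : (k + 1) * b = k * b + b := by ring
    omega
  · intro a _ b _ h
    simpa using h
  · simp only [Finset.mem_image, Finset.mem_filter, Finset.mem_Icc, not_exists, not_and]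
    intro j hj
    omega

theorem NC_val (m : ℕ) : ∀ (n : ℕ) (A C : Finset α), #A = n → C ⊆ A → C.Nonempty →
    (NC A C m : ℚ) = (n - #C).factorial * ta m #C * SS (fun j => (ph m j : ℚ) / j.factorial) n #C := by
  intro n
  induction n using Nat.strong_induction_on with
  | _ n ih =>
    intro A C hA hCA hne
    have hb : 1 ≤ #C := card_pos.2 hne
    have hbn : #C ≤ n := hA ▸ Finset.card_le_card hCA
    have hAC : #(A \ C) = n - #C := by rw [Finset.card_sdiff_of_subset hCA, hA]
    rw [NC_rec hCA hne, card_TS, card_CS, hAC]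
    have h1 : ∀ C' ∈ (A \ C).powersetCard #C, ((#C).factorial * NC (A \ C) C' m : ℕ) =
        ((#C).factorial : ℚ) * ((n - #C - #C).factorial * ta m #C *
          SS (fun j => (ph m j : ℚ) / j.factorial) (n - #C) #C) := by
      intro C' hC'
      rw [Finset.mem_powersetCard] at hC'
      have hne' : C'.Nonempty := by rw [← card_pos, hC'.2]; exact hb
      have := ih (n - #C) (by omega) (A \ C) C' hAC hC'.1 hne'
      rw [hC'.2] at this
      push_cast
      rw [this]
    push_cast
    push_cast at h1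
    rw [Finset.sum_congr rfl h1, Finset.sum_const, Finset.card_powersetCard, hAC, nsmul_eq_mul,
      SS_rec _ hb hbn]
    have hf : ((n - #C).factorial : ℚ) ≠ 0 := by exact_mod_cast (n - #C).factorial_ne_zero
    have h2 : (((n - #C).choose #C : ℕ) : ℚ) * (((#C).factorial : ℚ) * ((n - #C - #C).factorial *
        ta m #C * SS (fun j => (ph m j : ℚ) / j.factorial) (n - #C) #C)) =
        (n - #C).factorial * ta m #C * SS (fun j => (ph m j : ℚ) / j.factorial) (n - #C) #C := by
      by_cases h3 : #C ≤ n - #C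
      · have h4 := Nat.choose_mul_factorial_mul_factorial h3
        have h5 : (((n - #C).choose #C : ℕ) : ℚ) * (#C).factorial * (n - #C - #C).factorial =
            (n - #C).factorial := by exact_mod_cast h4
        rw [← h5]
        ring
      · have h4 : SS (fun j => (ph m j : ℚ) / j.factorial) (n - #C) #C = 0 := by
          unfold SS
          rw [Finset.filter_eq_empty_iff.2, Finset.sum_empty]
          intro k hk hle
          rw [Finset.mem_Icc] at hk
          have : #C ≤ k * #C := Nat.le_mul_of_pos_left _ (by omega)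
          omega
        rw [h4]
        ring
    rw [h2]
    change (ta m #C : ℚ) * (ph m (n - #C) : ℚ) + _ = _
    field_simp

theorem sum_NC (m n : ℕ) (w : ℕ → ℕ) :
    ((∑ C ∈ (univ : Finset (Fin n)).powerset, w #C * NC univ C m : ℕ) : ℚ) =
      n.factorial * ∑ b ∈ Icc 1 n, (w b : ℚ) * ((ta m b : ℚ) / b.factorial *
        SS (fun j => (ph m j : ℚ) / j.factorial) n b) := by
  classical
  let f : ℕ → ℚ := fun b => if b = 0 then 0 else
    (w b : ℚ) * ((n - b).factorial * ta m b * SS (fun j => (ph m j : ℚ) / j.factorial) n b)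
  have h1 : ((∑ C ∈ (univ : Finset (Fin n)).powerset, w #C * NC univ C m : ℕ) : ℚ) =
      ∑ C ∈ (univ : Finset (Fin n)).powerset, f #C := by
    push_cast
    refine Finset.sum_congr rfl fun C hC => ?_
    by_cases h0 : #C = 0
    · have hC0 : C = ∅ := card_eq_zero.1 h0
      have h2 : NC (univ : Finset (Fin n)) C m = 0 := by
        unfold NC
        rw [card_eq_zero, Finset.filter_eq_empty_iff]
        intro t _ hc
        rw [hC0] at hc
        exact Finset.not_nonempty_empty hc.ne
      rw [h2]
      simp [f, h0]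
    · have h3 := NC_val m n (univ : Finset (Fin n)) C (by simp) (Finset.mem_powerset.1 hC)
        (card_ne_zero.1 h0)
      rw [h3]
      simp [f, h0]
  rw [h1, Finset.sum_powerset_apply_card f, Finset.card_univ, Fintype.card_fin, Finset.mul_sum,
    Finset.sum_range_succ', Finset.range_eq_Ico]
  have h0 : f 0 = 0 := by simp [f]
  rw [h0, smul_zero, add_zero]
  rw [show Finset.Icc 1 n = (Finset.Ico 0 n).image (· + 1) by
    ext k
    simp only [Finset.mem_Icc, Finset.mem_image, Finset.mem_Ico]
    constructor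
    · rintro ⟨h1, h2⟩
      exact ⟨k - 1, ⟨by omega, by omega⟩, by omega⟩
    · rintro ⟨j, ⟨h1, h2⟩, rfl⟩
      omega]
  rw [Finset.sum_image (by intro a _ b _ h; simpa using h)]
  refine Finset.sum_congr rfl fun b hb => ?_
  rw [Finset.mem_Ico] at hb
  have h4 := Nat.choose_mul_factorial_mul_factorial (show b + 1 ≤ n by omega)
  have h5 : ((n.choose (b + 1) : ℕ) : ℚ) * (b + 1).factorial * (n - (b + 1)).factorial =
      n.factorial := by exact_mod_cast h4
  have hf : ((b + 1).factorial : ℚ) ≠ 0 := by exact_mod_cast (b + 1).factorial_ne_zero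
  simp only [f, Nat.succ_ne_zero, if_false, nsmul_eq_mul]
  rw [← h5]
  field_simp

/-- First identity. -/
theorem ident1 (m n : ℕ) : (n : ℚ) * ((ph m n : ℚ) / n.factorial) =
    ∑ b ∈ Icc 1 n, (b : ℚ) * ((ta m b : ℚ) / b.factorial *
      SS (fun j => (ph m j : ℚ) / j.factorial) n b) := by
  have h1 := sum_comps_swap (univ : Finset (Fin n)) m (fun C => #C)
  have h2 : ∑ t ∈ CF (univ : Finset (Fin n)) m, ∑ C ∈ comps univ t.2.1, #C = n * ph m n := by
    rw [Finset.sum_congr rfl fun t ht => sum_comps (mem_CF.1 ht).nor, Finset.sum_const,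
      smul_eq_mul, card_CF, Finset.card_univ, Fintype.card_fin, mul_comm]
    rfl
  rw [h2] at h1
  have h3 := sum_NC m n (fun b => b)
  rw [← h1] at h3
  have hf : (n.factorial : ℚ) ≠ 0 := by exact_mod_cast n.factorial_ne_zero
  push_cast at h3
  rw [mul_div_assoc', h3, mul_div_cancel_left₀ _ hf]

/-- Second identity. -/
theorem ident2 (m n : ℕ) (hn : 2 ≤ n) : (2 : ℚ) * ((ph m n : ℚ) / n.factorial) =
    ∑ b ∈ Icc 1 n, ((ta m b : ℚ) / b.factorial *
      SS (fun j => (ph m j : ℚ) / j.factorial) n b) := by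
  have h1 := sum_comps_swap (univ : Finset (Fin n)) m (fun _ => 1)
  have h2 : ∑ t ∈ CF (univ : Finset (Fin n)) m, ∑ C ∈ comps univ t.2.1, 1 = 2 * ph m n := by
    simp only [← Finset.card_eq_sum_ones]
    rw [sum_comps_CF (by simpa using hn), card_CF]
    rfl
  rw [h2] at h1
  have h3 := sum_NC m n (fun _ => 1)
  rw [← h1] at h3
  have hf : (n.factorial : ℚ) ≠ 0 := by exact_mod_cast n.factorial_ne_zero
  push_cast at h3
  rw [mul_div_assoc', h3, mul_div_cancel_left₀ _ hf]
  simp only [one_mul]

end Pool.Agent.K7.H68.MO
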