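import Pool.Agent.K7.H68.MO.Conf

set_option autoImplicit false
set_option linter.unusedSectionVars false

/-! Decomposition of configurations, one moved component. -/

open Finset

namespace Pool.Agent.K7.H68.MO

variable {α β : Type} [DecidableEq α] [DecidableEq β]

lemma im_mul (σ τ : Equiv.Perm α) (S : Finset α) : im (σ * τ) S = im σ (im τ S) := by
  ext x
  simp only [Finset.mem_map, Equiv.coe_toEmbedding, Equiv.Perm.mul_apply]
  constructor
  · rintro ⟨y, hy, rfl⟩
    exact ⟨τ y, ⟨y, hy, rfl⟩, rfl⟩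
  · rintro ⟨_, ⟨y, hy, rfl⟩, rfl⟩
    exact ⟨y, hy, rfl⟩

lemma IsComp.im {A C : Finset α} {m : ℕ} {σ : Equiv.Perm α} {e : Finset α →₀ ℕ} {c : α → ℕ}
    (h : IsConf A m σ e c) (hC : IsComp A e C) : IsComp A e (im σ C) := by
  refine ⟨?_, ?_, ?_, ?_⟩
  · intro y hy
    obtain ⟨x, hx, rfl⟩ := Finset.mem_map.1 hy
    exact (h.mem x).2 (hC.sub hx)
  · exact hC.ne.map
  · intro S hS
    obtain ⟨T, rfl⟩ : ∃ T, S = MO.im σ T := by
      refine ⟨MO.im σ⁻¹ S, ?_⟩
      rw [← im_mul, mul_inv_cancel]
      ext x; rw [Finset.mem_map_equiv]; rfl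
    have hT : T ∈ e.support := by
      rw [Finsupp.mem_support_iff] at hS ⊢
      rwa [h.inv] at hS
    rcases hC.sep T hT with h1 | h1
    · exact Or.inl (Finset.map_subset_map.2 h1)
    · exact Or.inr ((Finset.disjoint_map _).2 h1)
  · rcases hC.top with h1 | h1
    · left
      rw [card_map, h1]
    · right
      rw [h.inv]; exact h1

/-- the involution exchanging `C` and `C'` -/
def swf (C C' : Finset α) (g : {x // x ∈ C} ≃ {x // x ∈ C'}) (x : α) : α :=
  if h : x ∈ C then (g ⟨x, h⟩ : α) else if h' : x ∈ C' then (g.symm ⟨x, h'⟩ : α) else x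

lemma swf_left {C C' : Finset α} {g : {x // x ∈ C} ≃ {x // x ∈ C'}} {x : α} (h : x ∈ C) :
    swf C C' g x = g ⟨x, h⟩ := by
  unfold swf; rw [dif_pos h]

lemma swf_right {C C' : Finset α} (hd : Disjoint C C') {g : {x // x ∈ C} ≃ {x // x ∈ C'}} {x : α}
    (h : x ∈ C') : swf C C' g x = g.symm ⟨x, h⟩ := by
  unfold swf
  rw [dif_neg (fun h1 => Finset.disjoint_left.1 hd h1 h), dif_pos h]

lemma swf_other {C C' : Finset α} {g : {x // x ∈ C} ≃ {x // x ∈ C'}} {x : α}
    (h : x ∉ C) (h' : x ∉ C') : swf C C' g x = x := by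
  unfold swf
  rw [dif_neg h, dif_neg h']

lemma swf_invol {C C' : Finset α} (hd : Disjoint C C') (g : {x // x ∈ C} ≃ {x // x ∈ C'}) :
    Function.Involutive (swf C C' g) := by
  intro x
  by_cases h : x ∈ C
  · rw [swf_left h, swf_right hd (g ⟨x, h⟩).2]
    simp
  · by_cases h' : x ∈ C'
    · rw [swf_right hd h', swf_left (g.symm ⟨x, h'⟩).2]
      simp
    · rw [swf_other h h', swf_other h h']

/-- the involution as a permutation -/
def swp {C C' : Finset α} (hd : Disjoint C C') (g : {x // x ∈ C} ≃ {x // x ∈ C'}) : Equiv.Perm α :=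
  (swf_invol hd g).toPerm

lemma swp_left {C C' : Finset α} (hd : Disjoint C C') (g : {x // x ∈ C} ≃ {x // x ∈ C'}) {x : α}
    (h : x ∈ C) : swp hd g x = g ⟨x, h⟩ := swf_left h

lemma swp_mem_left {C C' : Finset α} (hd : Disjoint C C') (g : {x // x ∈ C} ≃ {x // x ∈ C'}) {x : α}
    (h : x ∈ C) : swp hd g x ∈ C' := by
  rw [swp_left hd g h]; exact (g ⟨x, h⟩).2

lemma swp_mem_right {C C' : Finset α} (hd : Disjoint C C') (g : {x // x ∈ C} ≃ {x // x ∈ C'}) {x : α}
    (h : x ∈ C') : swp hd g x ∈ C := by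
  have : swp hd g x = g.symm ⟨x, h⟩ := swf_right hd h
  rw [this]; exact (g.symm ⟨x, h⟩).2

lemma swp_other {C C' : Finset α} (hd : Disjoint C C') (g : {x // x ∈ C} ≃ {x // x ∈ C'}) {x : α}
    (h : x ∉ C) (h' : x ∉ C') : swp hd g x = x := swf_other h h'

lemma swp_swp {C C' : Finset α} (hd : Disjoint C C') (g : {x // x ∈ C} ≃ {x // x ∈ C'}) (x : α) :
    swp hd g (swp hd g x) = x := swf_invol hd g x

lemma swp_mul {C C' : Finset α} (hd : Disjoint C C') (g : {x // x ∈ C} ≃ {x // x ∈ C'}) :
    swp hd g * swp hd g = 1 := by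
  ext x; exact swp_swp hd g x

lemma im_swp {C C' : Finset α} (hd : Disjoint C C') (g : {x // x ∈ C} ≃ {x // x ∈ C'}) (S : Finset α) :
    im (swp hd g) (im (swp hd g) S) = S := by
  rw [← im_mul, swp_mul]
  ext x; rw [Finset.mem_map_equiv]; rfl

lemma im_swp_left {C C' : Finset α} (hd : Disjoint C C') (g : {x // x ∈ C} ≃ {x // x ∈ C'})
    {S : Finset α} (h : S ⊆ C) : im (swp hd g) S ⊆ C' := by
  intro y hy
  obtain ⟨x, hx, rfl⟩ := Finset.mem_map.1 hy
  exact swp_mem_left hd g (h hx)

lemma im_swp_right {C C' : Finset α} (hd : Disjoint C C') (g : {x // x ∈ C} ≃ {x // x ∈ C'})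
    {S : Finset α} (h : S ⊆ C') : im (swp hd g) S ⊆ C := by
  intro y hy
  obtain ⟨x, hx, rfl⟩ := Finset.mem_map.1 hy
  exact swp_mem_right hd g (h hx)

lemma im_swp_C {C C' : Finset α} (hd : Disjoint C C') (g : {x // x ∈ C} ≃ {x // x ∈ C'}) :
    im (swp hd g) C = C' := by
  refine (im_swp_left hd g subset_rfl).antisymm fun y hy => ?_
  exact Finset.mem_map.2 ⟨swp hd g y, swp_mem_right hd g hy, swp_swp hd g y⟩

lemma im_swp_C' {C C' : Finset α} (hd : Disjoint C C') (g : {x // x ∈ C} ≃ {x // x ∈ C'}) :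
    im (swp hd g) C' = C := by
  have h := im_swp hd g C
  rwa [im_swp_C hd g] at h

lemma im_swp_other {C C' : Finset α} (hd : Disjoint C C') (g : {x // x ∈ C} ≃ {x // x ∈ C'})
    {S : Finset α} (h : Disjoint S C) (h' : Disjoint S C') : im (swp hd g) S = S := by
  ext y
  simp only [Finset.mem_map, Equiv.coe_toEmbedding]
  constructor
  · rintro ⟨x, hx, rfl⟩
    rw [swp_other hd g (Finset.disjoint_left.1 h hx) (Finset.disjoint_left.1 h' hx)]
    exact hx
  · intro hy
    exact ⟨y, hy, swp_other hd g (Finset.disjoint_left.1 h hy) (Finset.disjoint_left.1 h' hy)⟩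

/-- the copy of the forest on `C'` -/
noncomputable def cp {C C' : Finset α} (hd : Disjoint C C') (g : {x // x ∈ C} ≃ {x // x ∈ C'})
    (e : Finset α →₀ ℕ) : Finset α →₀ ℕ := tr (swp hd g).toEmbedding (inn C' e)

lemma cp_apply {C C' : Finset α} (hd : Disjoint C C') (g : {x // x ∈ C} ≃ {x // x ∈ C'})
    (e : Finset α →₀ ℕ) (S : Finset α) : cp hd g e S = inn C' e (im (swp hd g) S) := by
  have := tr_map (swp hd g).toEmbedding (inn C' e) (im (swp hd g) S)
  rw [← this]
  unfold cp
  congr 1
  exact (im_swp hd g S).symm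

lemma normal_cp {A C C' : Finset α} (hd : Disjoint C C') (g : {x // x ∈ C} ≃ {x // x ∈ C'})
    {e : Finset α →₀ ℕ} (h : Normal A e) : Normal C (cp hd g e) := by
  have h1 : C = C'.map (swp hd g).toEmbedding := (im_swp_C' hd g).symm
  have h2 := (normal_tr (swp hd g).toEmbedding C' (inn C' e)).2 (normal_inn h)
  rw [← h1] at h2
  exact h2

theorem card_moved_comp {A C C' : Finset α} {m : ℕ} (hCA : C ⊆ A) (hCA' : C' ⊆ A) (hne : C.Nonempty)
    (hd : Disjoint C C') (hcard : #C = #C') :
    Set.ncard {t : Tri α | t ∈ CS A m ∧ IsComp A t.2.1 C ∧ im t.1 C = C'} =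
      (#C).factorial * Set.ncard {t : Tri α | t ∈ CS (A \ C) m ∧ IsComp (A \ C) t.2.1 C'} := by
  have hfac : (#C).factorial = Set.ncard (Set.univ : Set ({x // x ∈ C} ≃ {x // x ∈ C'})) := by
    rw [Set.ncard_univ, Nat.card_eq_fintype_card,
      Fintype.card_equiv (Fintype.equivOfCardEq (by simpa using hcard))]
    simp
  rw [hfac, ← Set.ncard_prod]
  symm
  have hAC : A \ C ⊆ A := Finset.sdiff_subset
  have hdA : Disjoint C (A \ C) := Finset.disjoint_sdiff
  have hC'A : C' ⊆ A \ C := Finset.subset_sdiff.2 ⟨hCA', hd.symm⟩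
  refine Set.ncard_congr (fun p _ => (swp hd p.1 * p.2.1, cp hd p.1 p.2.2.1 + p.2.2.1,
    fun x => if x ∈ C then p.2.2.2 (swp hd p.1 x) else p.2.2.2 x)) ?_ ?_ ?_
  · rintro ⟨g, ⟨σ, e, c⟩⟩ ⟨-, h, hc⟩
    replace h : IsConf (A \ C) m σ e c := h
    replace hc : IsComp (A \ C) e C' := hc
    set s := swp hd g with hs
    have hσC : ∀ x ∈ C, σ x = x := fun x hx => h.fix x fun h1 => (Finset.mem_sdiff.1 h1).2 hx
    have hσnC : ∀ x, x ∉ C → σ x ∉ C := by
      intro x hx h1
      by_cases hxA : x ∈ A \ C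
      · exact (Finset.mem_sdiff.1 ((h.mem x).2 hxA)).2 h1
      · rw [h.fix x hxA] at h1
        exact hx h1
    have hncp := normal_cp hd g h.nor
    have hnor : Normal A (cp hd g e + e) := normal_add hncp h.nor hdA hCA hAC
    -- values
    have hv1 : ∀ S, S ⊆ C → S.Nonempty → e S = 0 := by
      intro S hS hne
      by_contra h0
      have h1 := h.nor.sub S (Finsupp.mem_support_iff.2 h0)
      obtain ⟨x, hx⟩ := hne
      exact (Finset.mem_sdiff.1 (h1 hx)).2 (hS hx)
    have hv2 : ∀ S, ¬ S ⊆ C → cp hd g e S = 0 := by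
      intro S hS
      by_contra h0
      exact hS (hncp.sub S (Finsupp.mem_support_iff.2 h0))
    refine ⟨⟨fun x hx => ?_, hnor, ?_, fun x hx => ?_, fun x hx => ?_, fun x => ?_⟩,
      ⟨hCA, hne, ?_, ?_⟩, ?_⟩
    · change (s * σ) x = x
      rw [Equiv.Perm.mul_apply, h.fix x (fun h1 => hx (hAC h1)),
        hs, swp_other hd g (fun h1 => hx (hCA h1)) (fun h1 => hx (hCA' h1))]
    · change Inv (s * σ) (cp hd g e + e)
      apply inv_of_support
      intro S hS
      have hS3 := hnor.three hS
      have hSne : S.Nonempty := by rw [← Finset.card_pos]; omega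
      have hSs : S ∈ (cp hd g e).support ∨ S ∈ e.support := by
        simp only [Finsupp.mem_support_iff, Finsupp.add_apply, Ne, Nat.add_eq_zero_iff] at hS ⊢
        tauto
      rw [im_mul, Finsupp.add_apply, Finsupp.add_apply]
      rcases hSs with h1 | h1
      · have hSC := hncp.sub S h1
        have h2 : im σ S = S := by
          rw [im_congr (τ := 1) fun x hx => hσC x (hSC hx)]
          ext x; rw [Finset.mem_map_equiv]; rfl
        rw [h2, hv1 S hSC hSne, add_zero]
        have h3 : ¬ im s S ⊆ C := by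
          intro h3
          obtain ⟨x, hx⟩ := hSne
          have h4 : s x ∈ im s S := Finset.mem_map_of_mem _ hx
          exact Finset.disjoint_left.1 hd (h3 h4) (swp_mem_left hd g (hSC hx))
        rw [hv2 _ h3, zero_add, cp_apply, inn_apply, if_pos (im_swp_left hd g hSC)]
      · have hSA := h.nor.sub S h1
        have hSC : ¬ S ⊆ C := by
          intro h3
          obtain ⟨x, hx⟩ := hSne
          exact (Finset.mem_sdiff.1 (hSA hx)).2 (h3 hx)
        rw [hv2 S hSC, zero_add]
        have h4 : im σ S ∈ e.support := by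
          rw [Finsupp.mem_support_iff, h.inv]; exact Finsupp.mem_support_iff.1 h1
        have h5 := h.nor.sub _ h4
        have h6 : (im σ S).Nonempty := hSne.map
        rcases hc.sep _ h4 with h7 | h7
        · rw [hv1 _ (im_swp_right hd g h7) h6.map, add_zero, cp_apply, im_swp, inn_apply,
            if_pos h7, h.inv]
        · have h8 : Disjoint (im σ S) C := by
            exact (Finset.disjoint_of_subset_right h5 hdA).symm
          rw [im_swp_other hd g h8 h7, h.inv, hv2, zero_add]
          intro h9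
          obtain ⟨x, hx⟩ := h6
          exact Finset.disjoint_left.1 h8 hx (h9 hx)
    · change (if x ∈ C then c (s x) else c x) < m
      split_ifs with h1
      · exact h.lt _ (hC'A (swp_mem_left hd g h1))
      · exact h.lt _ (Finset.mem_sdiff.2 ⟨hx, h1⟩)
    · change (if x ∈ C then c (s x) else c x) = 0
      rw [if_neg fun h1 => hx (hCA h1)]
      exact h.zero x fun h1 => hx (hAC h1)
    · change (if (s * σ) x ∈ C then c (s ((s * σ) x)) else c ((s * σ) x)) =
        if x ∈ C then c (s x) else c x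
      rw [Equiv.Perm.mul_apply]
      by_cases hx : x ∈ C
      · rw [hσC x hx, if_pos hx, if_neg fun h1 =>
          Finset.disjoint_left.1 hd h1 (swp_mem_left hd g hx)]
      · rw [if_neg hx]
        by_cases hy : σ x ∈ C'
        · rw [if_pos (swp_mem_right hd g hy), swp_swp, h.col]
        · rw [hs, swp_other hd g (hσnC x hx) hy, if_neg (hσnC x hx), h.col]
    · exact sep_add hncp h.nor hdA
    · change #C = 1 ∨ (cp hd g e + e) C ≠ 0
      rcases hc.top with h1 | h1
      · left; rw [hcard, h1]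
      · right
        rw [Finsupp.add_apply, cp_apply, im_swp_C, inn_apply, if_pos subset_rfl]
        omega
    · change im (s * σ) C = C'
      rw [im_mul, im_congr (τ := 1) hσC]
      have : im (1 : Equiv.Perm α) C = C := by ext x; rw [Finset.mem_map_equiv]; rfl
      rw [this, hs, im_swp_C]
  · rintro ⟨g, ⟨σ, e, c⟩⟩ ⟨g', ⟨σ', e', c'⟩⟩ ⟨-, h, hc⟩ ⟨-, h', hc'⟩ heq
    replace h : IsConf (A \ C) m σ e c := h
    replace h' : IsConf (A \ C) m σ' e' c' := h'
    simp only [Prod.mk.injEq] at heq
    obtain ⟨h1, h2, h3⟩ := heq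
    have hg : g = g' := by
      ext ⟨x, hx⟩
      have h4 := congrArg (fun s : Equiv.Perm α => s x) h1
      simp only [Equiv.Perm.mul_apply] at h4
      rw [h.fix x (fun h5 => (Finset.mem_sdiff.1 h5).2 hx),
        h'.fix x (fun h5 => (Finset.mem_sdiff.1 h5).2 hx), swp_left hd g hx, swp_left hd g' hx] at h4
      exact h4
    subst hg
    have hσ : σ = σ' := mul_left_cancel h1
    have he : e = e' := by
      have h4 := inn_add_left h.nor (normal_cp hd g h.nor) hdA.symm
      have h5 := inn_add_left h'.nor (normal_cp hd g h'.nor) hdA.symm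
      rw [← h4, ← h5, add_comm e, add_comm e', h2]
    have hcc : c = c' := by
      funext x
      by_cases hx : x ∈ C
      · rw [h.zero x fun h5 => (Finset.mem_sdiff.1 h5).2 hx,
          h'.zero x fun h5 => (Finset.mem_sdiff.1 h5).2 hx]
      · have h4 := congrFun h3 x
        simp only [if_neg hx] at h4
        exact h4
    rw [hσ, he, hcc]
  · rintro ⟨σ, e, c⟩ ⟨h, hc, him⟩
    replace h : IsConf A m σ e c := h
    replace hc : IsComp A e C := hc
    replace him : im σ C = C' := him
    have hc' : IsComp A e C' := him ▸ hc.im h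
    have hσCC : ∀ x, σ x ∈ C' ↔ x ∈ C := by
      intro x
      rw [← him]
      simp
    let g : {x // x ∈ C} ≃ {x // x ∈ C'} := σ.subtypeEquiv fun x => (hσCC x).symm
    have hgx : ∀ x (hx : x ∈ C), swp hd g x = σ x := fun x hx => by
      rw [swp_left hd g hx]; rfl
    set s := swp hd g with hs
    have hims : ∀ S, S ⊆ C → im s S = im σ S := fun S hS => im_congr fun x hx => hgx x (hS hx)
    refine ⟨⟨g, ⟨s * σ, inn (A \ C) e, fun x => if x ∈ C then 0 else c x⟩⟩,
      ⟨Set.mem_univ _, ⟨fun x hx => ?_, normal_inn h.nor, ?_, fun x hx => ?_, fun x hx => ?_,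
        fun x => ?_⟩, ⟨hC'A, hc'.ne, ?_, ?_⟩⟩, ?_⟩
    · change (s * σ) x = x
      rw [Equiv.Perm.mul_apply]
      by_cases hxC : x ∈ C
      · rw [← hgx x hxC, swp_swp]
      · have hxA : x ∉ A := fun h1 => hx (Finset.mem_sdiff.2 ⟨h1, hxC⟩)
        rw [h.fix x hxA, hs, swp_other hd g hxC fun h1 => hxA (hCA' h1)]
    · change Inv (s * σ) (inn (A \ C) e)
      apply inv_of_support
      intro S hS
      obtain ⟨h1, h2⟩ := mem_inn.1 hS
      have hS3 := h.nor.three h1
      have hSne : S.Nonempty := by rw [← Finset.card_pos]; omega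
      have h4 : im σ S ∈ e.support := by
        rw [Finsupp.mem_support_iff, h.inv]; exact Finsupp.mem_support_iff.1 h1
      rw [im_mul, inn_apply, inn_apply, if_pos h2]
      rcases hc.sep _ h4 with h5 | h5
      · rw [if_pos ((im_swp_left hd g h5).trans hC'A), hims _ h5, h.inv, h.inv]
      · have h6 : Disjoint (im σ S) C' := by
          rcases hc'.sep _ h4 with h7 | h7
          · exfalso
            obtain ⟨x, hx⟩ := hSne
            have := (hσCC x).1 (h7 (Finset.mem_map_of_mem _ hx))
            exact (Finset.mem_sdiff.1 (h2 hx)).2 this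
          · exact h7
        rw [im_swp_other hd g h5 h6, if_pos (Finset.subset_sdiff.2 ⟨h.nor.sub _ h4, h5⟩), h.inv]
    · change (if x ∈ C then 0 else c x) < m
      rw [if_neg (Finset.mem_sdiff.1 hx).2]
      exact h.lt x (Finset.mem_sdiff.1 hx).1
    · change (if x ∈ C then 0 else c x) = 0
      split_ifs with h1
      · rfl
      · exact h.zero x fun h2 => hx (Finset.mem_sdiff.2 ⟨h2, h1⟩)
    · change (if (s * σ) x ∈ C then 0 else c ((s * σ) x)) = if x ∈ C then 0 else c x
      rw [Equiv.Perm.mul_apply]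
      by_cases hx : x ∈ C
      · rw [← hgx x hx, swp_swp, if_pos hx]
      · rw [if_neg hx]
        have hy' : σ x ∉ C' := fun h1 => hx ((hσCC x).1 h1)
        by_cases hy : σ x ∈ C
        · rw [if_neg fun h1 => Finset.disjoint_left.1 hd h1 (swp_mem_left hd g hy), hgx _ hy,
            h.col, h.col]
        · rw [hs, swp_other hd g hy hy', if_neg hy, h.col]
    · intro S hS
      exact hc'.sep S (mem_inn.1 hS).1
    · change #C' = 1 ∨ inn (A \ C) e C' ≠ 0
      rw [inn_apply, if_pos hC'A]
      exact hc'.top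
    · refine Prod.ext ?_ (Prod.ext ?_ ?_)
      · change s * (s * σ) = σ
        rw [← mul_assoc, hs, swp_mul, one_mul]
      · change cp hd g (inn (A \ C) e) + inn (A \ C) e = e
        conv_rhs => rw [← inn_add h.nor hc.sep]
        congr 1
        ext S
        rw [cp_apply, inn_apply, inn_apply, inn_apply]
        by_cases hS : S ⊆ C
        · rw [if_pos (im_swp_left hd g hS), if_pos ((im_swp_left hd g hS).trans hC'A), if_pos hS,
            hims S hS, h.inv]
        · rw [if_neg hS, if_neg]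
          intro h1
          apply hS
          rw [← im_swp hd g S]
          exact im_swp_right hd g h1
      · change (fun x => if x ∈ C then (if s x ∈ C then 0 else c (s x)) else
          (if x ∈ C then 0 else c x)) = c
        funext x
        by_cases hx : x ∈ C
        · rw [if_pos hx, if_neg fun h1 => Finset.disjoint_left.1 hd h1 (swp_mem_left hd g hx),
            hgx x hx, h.col]
        · rw [if_neg hx, if_neg hx]

end Pool.Agent.K7.H68.MO
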