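import Mathlib
import Pool.Agent.K7.H78.MO.Van

set_option autoImplicit false
set_option linter.unusedSectionVars false

/-!
# Job 3: the normal monomials are linearly independent

Author: helper78 (paper proof: helper68).
-/

open Finset

namespace Pool.Agent.K7.H78.MO

open Pool.Agent.K7.H68.MO

variable {α : Type} [DecidableEq α]

/-- the complementary exponents -/
noncomputable def comp (A : Finset α) (e : Finset α →₀ ℕ) : Finset α →₀ ℕ :=
  Finsupp.onFinset (insert A e.support)
    (fun S => if S = A then cnt e.support A - 2 - e A else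
      if S ∈ e.support then cnt e.support S - 1 - e S else 0) (by
    intro S hS
    rw [mem_insert]
    by_cases h1 : S = A
    · exact Or.inl h1
    · rw [if_neg h1] at hS
      by_cases h2 : S ∈ e.support
      · exact Or.inr h2
      · rw [if_neg h2] at hS
        exact absurd rfl hS)

lemma comp_apply (A : Finset α) (e : Finset α →₀ ℕ) (S : Finset α) :
    comp A e S = if S = A then cnt e.support A - 2 - e A else
      if S ∈ e.support then cnt e.support S - 1 - e S else 0 := rfl

variable {A : Finset α} {e : Finset α →₀ ℕ}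

lemma full_self (h : Normal A e) (hA : 2 ≤ A.card) : (e + comp A e) A + 2 = cnt e.support A := by
  rw [Finsupp.add_apply, comp_apply, if_pos rfl]
  have h1 := two_le_cnt e.support hA
  by_cases h2 : A ∈ e.support
  · have := h.le A h2
    omega
  · have := Finsupp.notMem_support_iff.1 h2
    omega

lemma full_mem (h : Normal A e) {S : Finset α} (hS : S ∈ e.support) (hSA : S ≠ A) :
    (e + comp A e) S + 1 = cnt e.support S := by
  rw [Finsupp.add_apply, comp_apply, if_neg hSA, if_pos hS]
  have := h.le S hS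
  omega

lemma full_out {S : Finset α} (hS : S ∉ e.support) (hSA : S ≠ A) : (e + comp A e) S = 0 := by
  rw [Finsupp.add_apply, comp_apply, if_neg hSA, if_neg hS, Finsupp.notMem_support_iff.1 hS]

lemma sum_full (h : Normal A e) {S : Finset α} {p : Finset α → Prop} [DecidablePred p]
    (hp : ∀ T, p T → T ⊆ S) (hpA : ∀ T, p T → T ≠ A) :
    ((∑ T ∈ S.powerset with p T, (e + comp A e) T : ℕ) : ℤ) =
      ∑ T ∈ e.support with p T, ((cnt e.support T : ℤ) - 1) := by
  have h1 : ∑ T ∈ S.powerset with p T, (e + comp A e) T =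
      ∑ T ∈ e.support with p T, (e + comp A e) T := by
    symm
    refine sum_subset ?_ ?_
    · intro T hT
      rw [mem_filter] at hT ⊢
      exact ⟨mem_powerset.2 (hp T hT.2), hT.2⟩
    · intro T hT hT'
      rw [mem_filter] at hT hT'
      exact full_out (fun h2 => hT' ⟨h2, hT.2⟩) (hpA T hT.2)
  rw [h1, Nat.cast_sum]
  refine sum_congr rfl fun T hT => ?_
  rw [mem_filter] at hT
  have := full_mem h hT.1 (hpA T hT.2)
  omega

lemma E_full (h : Normal A e) {S : Finset α} (hS : S ∈ e.support) (hSA : S ≠ A) :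
    E (e + comp A e) S + 1 = S.card := by
  have h1 := sum_full h (S := S) (p := fun T => T ⊆ S) (fun _ h => h) (by
    rintro T hT rfl
    exact hSA (Subset.antisymm (h.sub S hS) hT))
  rw [tot' (Normal.lam' h) hS] at h1
  have h2 : {T ∈ S.powerset | T ⊆ S} = S.powerset := by
    rw [filter_eq_self]
    intro T hT
    exact mem_powerset.1 hT
  rw [h2, ← E_eq] at h1
  omega

lemma dg_full (h : Normal A e) (hA : 2 ≤ A.card) : dg (e + comp A e) + 2 = A.card := by
  have h1 := sum_full h (S := A) (p := fun T => T ⊂ A) (fun _ h => h.1) (fun _ h => h.ne)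
  have h2 := tot (Normal.lam' h) A.card A rfl
  rw [← h1] at h2
  have h3 := full_self h hA
  have h4 : dg (e + comp A e) = ∑ T ∈ A.powerset, (e + comp A e) T := by
    have h5 : dg (e + comp A e) = E (e + comp A e) A := by
      unfold dg E Finsupp.sum
      refine sum_congr rfl fun T hT => ?_
      show _ = if T ⊆ A then _ else _
      rw [if_pos]
      by_contra hcon
      have h6 : T ≠ A := by
        rintro rfl
        exact hcon (Subset.refl _)
      have h7 : T ∉ e.support := fun h8 => hcon (h.sub T h8)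
      exact (Finsupp.mem_support_iff.1 hT) (full_out h7 h6)
    rw [h5, E_eq]
  have h5 : A.powerset = insert A {T ∈ A.powerset | T ⊂ A} := by
    ext T
    simp only [mem_powerset, mem_insert, mem_filter]
    constructor
    · intro h6
      rcases eq_or_ne T A with h7 | h7
      · exact Or.inl h7
      · exact Or.inr ⟨h6, Finset.ssubset_iff_subset_ne.2 ⟨h6, h7⟩⟩
    · rintro (rfl | h6)
      · exact Subset.refl _
      · exact h6.1
  rw [h5, sum_insert (by simp)] at h4
  omega

lemma tight_full (h : Normal A e) (hA : 2 ≤ A.card) : Tight A (e + comp A e) := by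
  have hmem : ∀ S, (e + comp A e) S ≠ 0 → S = A ∨ S ∈ e.support := by
    intro S hS
    by_contra hcon
    push Not at hcon
    exact hS (full_out hcon.2 hcon.1)
  refine ⟨?_, ?_, ?_, dg_full h hA⟩
  · intro S hS
    rcases hmem S hS with rfl | h1
    · exact ⟨Subset.refl _, hA⟩
    · have := Normal.three_le h h1
      exact ⟨h.sub S h1, by omega⟩
  · intro S hS T hT
    rcases hmem S hS with rfl | h1
    · rcases hmem T hT with rfl | h2
      · exact not_cross_of_subset (Subset.refl _)
      · exact not_cross_of_subset' (h.sub T h2)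
    · rcases hmem T hT with rfl | h2
      · exact not_cross_of_subset (h.sub S h1)
      · exact h.lam S h1 T h2
  · intro S hS hSA
    rcases hmem S hS with h1 | h1
    · exact absurd h1 hSA
    · exact E_full h h1 hSA

/-- comparison of the degrees on the sets strictly inside `A` -/
lemma E_le_E (h : Normal A e) {f : Finset α →₀ ℕ} (hf0 : f ∅ = 0)
    (hf : ∀ S ∈ e.support, S ≠ A → E e S ≤ E f S) {S : Finset α} (hSA : S ⊂ A) : E e S ≤ E f S := by
  have hL := Normal.lam' h
  by_cases hS : S ∈ e.support
  · exact hf S hS hSA.ne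
  have h1 : E e S = ∑ w ∈ kids e.support S, E e w := by
    have h2 : ∀ w, E e w = ∑ u ∈ e.support with u ⊆ w, e u := by
      intro w
      unfold E Finsupp.sum
      rw [sum_filter]
    have h3 : E e S = ∑ u ∈ e.support with u ⊂ S, e u := by
      rw [h2]
      refine sum_congr ?_ fun _ _ => rfl
      ext u
      simp only [mem_filter]
      constructor
      · rintro ⟨hu, huS⟩
        refine ⟨hu, Finset.ssubset_iff_subset_ne.2 ⟨huS, ?_⟩⟩
        rintro rfl
        exact hS hu
      · rintro ⟨hu, huS⟩
        exact ⟨hu, huS.1⟩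
    rw [h3, sum_kids hL]
    exact sum_congr rfl fun w _ => (h2 w).symm
  rw [h1]
  have h2 : ∑ w ∈ kids e.support S, E e w ≤ ∑ w ∈ kids e.support S, E f w := by
    refine sum_le_sum fun w hw => ?_
    have hw' := mem_kids.1 hw
    exact hf w hw'.1 (lt_trans hw'.2.1 hSA).ne
  refine h2.trans ?_
  -- the subsets of different kids are different
  have h3 : ∀ w, E f w = ∑ u ∈ f.support with u ⊆ w, f u := by
    intro w
    unfold E Finsupp.sum
    rw [sum_filter]
  have h4 : ∑ w ∈ kids e.support S, E f w =
      ∑ u ∈ (kids e.support S).biUnion fun w => {u ∈ f.support | u ⊆ w}, f u := by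
    rw [sum_biUnion]
    · exact sum_congr rfl fun w _ => h3 w
    · intro w hw w' hw' hne
      rw [Function.onFun, disjoint_left]
      intro u hu hu'
      rw [mem_filter] at hu hu'
      have h5 : u.Nonempty := by
        by_contra hcon
        rw [not_nonempty_iff_eq_empty] at hcon
        exact (Finsupp.mem_support_iff.1 hu.1) (hcon ▸ hf0)
      obtain ⟨a, ha⟩ := h5
      exact (disjoint_left.1 (kids_disj hL hw hw' hne)) (hu.2 ha) (hu'.2 ha)
  rw [h4, h3]
  refine sum_le_sum_of_subset ?_
  intro u hu
  rw [mem_biUnion] at hu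
  obtain ⟨w, hw, hu⟩ := hu
  rw [mem_filter] at hu ⊢
  exact ⟨hu.1, hu.2.trans (mem_kids.1 hw).2.1.1⟩

lemma eq_of_E_eq {e f : Finset α →₀ ℕ} (h : ∀ S, S ⊂ A → E e S = E f S) :
    ∀ n : ℕ, ∀ S : Finset α, S.card = n → S ⊂ A → e S = f S := by
  intro n
  induction n using Nat.strong_induction_on with
  | _ n ih =>
    intro S hS hSA
    have h1 := h S hSA
    rw [E_eq, E_eq] at h1
    have h5 : S.powerset = insert S {T ∈ S.powerset | T ⊂ S} := by
      ext T
      simp only [mem_powerset, mem_insert, mem_filter]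
      constructor
      · intro h6
        rcases eq_or_ne T S with h7 | h7
        · exact Or.inl h7
        · exact Or.inr ⟨h6, Finset.ssubset_iff_subset_ne.2 ⟨h6, h7⟩⟩
      · rintro (rfl | h6)
        · exact Subset.refl _
        · exact h6.1
    rw [h5, sum_insert (by simp), sum_insert (by simp)] at h1
    have h6 : ∑ T ∈ S.powerset with T ⊂ S, e T = ∑ T ∈ S.powerset with T ⊂ S, f T := by
      refine sum_congr rfl fun T hT => ?_
      rw [mem_filter] at hT
      exact ih T.card (by rw [← hS]; exact card_lt_card hT.2) T rfl (lt_trans hT.2 hSA)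
    omega

lemma Normal.empty (h : Normal A e) : e ∅ = 0 := by
  by_contra hcon
  obtain ⟨a, ha⟩ := (Normal.lam' h).ne ∅ (Finsupp.mem_support_iff.2 hcon)
  simp at ha

/-- the key step -/
lemma key (J1 : Job1) (J2 : Job2) (hA : 2 ≤ A.card) {φ : D A →ₗ[ℚ] ℚ} (hφ : IsDeg A φ)
    (he : Normal A e) {f : Finset α →₀ ℕ} (hf : Normal A f)
    (hmax : ∑ S ∈ A.powerset with S ⊂ A, E f S ≤ ∑ S ∈ A.powerset with S ⊂ A, E e S)
    (hne : φ (mon A (f + comp A e)) ≠ 0) : f = e := by
  have h1 : ∀ S ∈ e.support, S ≠ A → E e S ≤ E f S := by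
    intro S hS hSA
    by_contra hcon
    push Not at hcon
    apply hne
    have h2 := full_mem he hS hSA
    have h3 := he.le S hS
    rw [Finsupp.add_apply] at h2
    refine van J1 J2 A.card A rfl hA φ hφ _ S ?_ hSA ?_
    · rw [Finsupp.add_apply]
      omega
    · have h4 := E_full he hS hSA
      rw [E_add] at h4 ⊢
      omega
  have h2 : ∀ S, S ⊂ A → E e S ≤ E f S := fun S hS => E_le_E he (Normal.empty hf) h1 hS
  have h3 : ∀ S ∈ {S ∈ A.powerset | S ⊂ A}, E e S = E f S := by
    have h4 : ∀ S ∈ {S ∈ A.powerset | S ⊂ A}, E e S ≤ E f S := by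
      intro S hS
      rw [mem_filter] at hS
      exact h2 S hS.2
    exact (sum_eq_sum_iff_of_le h4).1 (le_antisymm (sum_le_sum h4) hmax)
  have h4 : ∀ S, S ⊂ A → E e S = E f S := by
    intro S hS
    exact h3 S (mem_filter.2 ⟨mem_powerset.2 hS.1, hS⟩)
  have h5 : ∀ S, S ⊂ A → e S = f S := fun S hS => eq_of_E_eq h4 S.card S rfl hS
  have h6 : dg (f + comp A e) + 2 = A.card := by
    by_contra hcon
    exact hne (hφ.zero _ hcon)
  have h7 := dg_full he hA
  rw [dg_add] at h6 h7
  have h8 : dg f = dg e := by omega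
  have hdg : ∀ {g : Finset α →₀ ℕ}, Normal A g →
      dg g = g A + ∑ T ∈ A.powerset with T ⊂ A, g T := by
    intro g hg
    have h9 : dg g = E g A := by
      unfold dg E Finsupp.sum
      refine sum_congr rfl fun T hT => ?_
      show _ = if T ⊆ A then _ else _
      rw [if_pos (hg.sub T hT)]
    have h10 : A.powerset = insert A {T ∈ A.powerset | T ⊂ A} := by
      ext T
      simp only [mem_powerset, mem_insert, mem_filter]
      constructor
      · intro h6
        rcases eq_or_ne T A with h7 | h7
        · exact Or.inl h7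
        · exact Or.inr ⟨h6, Finset.ssubset_iff_subset_ne.2 ⟨h6, h7⟩⟩
      · rintro (rfl | h6)
        · exact Subset.refl _
        · exact h6.1
    rw [h9, E_eq]
    conv_lhs => rw [h10]
    rw [sum_insert (by simp)]
  rw [hdg hf, hdg he] at h8
  have h9 : ∑ T ∈ A.powerset with T ⊂ A, f T = ∑ T ∈ A.powerset with T ⊂ A, e T := by
    refine sum_congr rfl fun T hT => ?_
    rw [mem_filter] at hT
    exact (h5 T hT.2).symm
  ext S
  by_cases hSA : S = A
  · rw [hSA]
    omega
  · by_cases hS : S ⊆ A
    · exact (h5 S (Finset.ssubset_iff_subset_ne.2 ⟨hS, hSA⟩)).symm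
    · rw [Finsupp.notMem_support_iff.1 (fun h => hS (hf.sub S h)),
        Finsupp.notMem_support_iff.1 (fun h => hS (he.sub S h))]

end Pool.Agent.K7.H78.MO

namespace Pool.Agent.K7.H68.MO

open Pool.Agent.K7.H78.MO

/-- **Job 3.** -/
theorem job3 (J1 : Job1) (J2 : Job2) : Job3 := by
  intro α _ A hA
  obtain ⟨φ, hφ⟩ := exists_deg J2 A.card A rfl hA
  rw [linearIndependent_iff']
  intro s c hc
  by_contra hcon
  push Not at hcon
  obtain ⟨i₀, hi₀, hci₀⟩ := hcon
  obtain ⟨i, hi, hmax⟩ := exists_max_image {i ∈ s | c i ≠ 0}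
    (fun i => ∑ S ∈ A.powerset with S ⊂ A, E i.1 S) ⟨i₀, mem_filter.2 ⟨hi₀, hci₀⟩⟩
  rw [mem_filter] at hi
  have h1 : φ ((∑ j ∈ s, c j • mon A j.1) * mon A (comp A i.1)) = 0 := by
    rw [hc, zero_mul, map_zero]
  rw [sum_mul, map_sum, sum_eq_single i] at h1
  · rw [smul_mul_assoc, map_smul, ← mon_add, smul_eq_mul] at h1
    rcases mul_eq_zero.1 h1 with h2 | h2
    · exact hi.2 h2
    · exact nonvan J1 J2 A.card A rfl hA φ hφ _ (tight_full i.2 hA) h2
  · intro j hj hji
    rw [smul_mul_assoc, map_smul, ← mon_add, smul_eq_mul]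
    by_cases hcj : c j = 0
    · rw [hcj, zero_mul]
    · have h2 : φ (mon A (j.1 + comp A i.1)) = 0 := by
        by_contra hcon
        refine hji (Subtype.ext ?_)
        exact key J1 J2 hA hφ i.2 j.2 (hmax j (mem_filter.2 ⟨hj, hcj⟩)) hcon
      rw [h2, mul_zero]
  · intro h
    exact absurd hi.1 h

end Pool.Agent.K7.H68.MO
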