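import Pool.Agent.K7.H68.MO.Count

set_option autoImplicit false
set_option linter.unusedSectionVars false

/-! Job 5: the identities for the characteristic polynomials. -/

open Finset

namespace Pool.Agent.K7.H68.MO

lemma act_iff {α : Type} [DecidableEq α] (σ : Equiv.Perm α) (e : Finset α →₀ ℕ) :
    act σ e = e ↔ Inv σ e := by
  have hinj : Function.Injective (Finset.map σ.toEmbedding) := Finset.map_injective _
  have h1 : ∀ S, act σ e (im σ S) = e S := fun S => Finsupp.mapDomain_apply hinj e S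
  constructor
  · intro h S
    rw [← h1 S, h]
  · intro h
    ext T
    obtain ⟨S, rfl⟩ : ∃ S, T = im σ S := by
      refine ⟨im σ⁻¹ T, ?_⟩
      rw [← im_mul, mul_inv_cancel]
      ext x; rw [Finset.mem_map_equiv]; rfl
    rw [h1, h S]

lemma col_zpow {α : Type} {σ : Equiv.Perm α} {c : α → ℕ} (h : ∀ x, c (σ x) = c x) (i : ℤ) :
    ∀ x, c ((σ ^ i) x) = c x := by
  induction i using Int.induction_on with
  | zero => intro x; simp
  | succ i ih => intro x; rw [zpow_add_one, Equiv.Perm.mul_apply, ih, h]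
  | pred i ih =>
    intro x
    rw [zpow_sub_one, Equiv.Perm.mul_apply, ih]
    have h1 := h (σ⁻¹ x)
    have h2 : σ (σ⁻¹ x) = x := by rw [← Equiv.Perm.mul_apply, mul_inv_cancel]; rfl
    rw [h2] at h1
    exact h1.symm

/-- the number of invariant colourings -/
lemma card_col {n : ℕ} (σ : Equiv.Perm (Fin n)) (m : ℕ) :
    Set.ncard {c : Fin n → ℕ | (∀ x, c x < m) ∧ ∀ x, c (σ x) = c x} = m ^ cyc σ := by
  have h1 : Set.ncard {c : Fin n → ℕ | (∀ x, c x < m) ∧ ∀ x, c (σ x) = c x} =
      Nat.card (Quotient (Equiv.Perm.SameCycle.setoid σ) → Fin m) := by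
    refine Nat.card_congr
      { toFun := fun c q => Quotient.liftOn q (fun x => (⟨c.1 x, c.2.1 x⟩ : Fin m)) ?_
        invFun := fun g => ⟨fun x => (g (Quotient.mk _ x) : ℕ), fun x => (g _).2, fun x => ?_⟩
        left_inv := fun c => ?_
        right_inv := fun g => ?_ }
    · intro x y hxy
      obtain ⟨i, rfl⟩ : Equiv.Perm.SameCycle σ x y := hxy
      exact Fin.ext (col_zpow c.2.2 i x).symm
    · have h2 : (Quotient.mk (Equiv.Perm.SameCycle.setoid σ) (σ x)) = Quotient.mk _ x := by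
        apply Quotient.sound
        change Equiv.Perm.SameCycle σ (σ x) x
        exact (Equiv.Perm.SameCycle.refl σ x).apply_left
      change ((g (Quotient.mk _ (σ x)) : Fin m) : ℕ) = (g (Quotient.mk _ x) : ℕ)
      rw [h2]
    · rfl
    · funext q
      induction q using Quotient.inductionOn
      rfl
  rw [h1, Nat.card_fun, Nat.card_eq_fintype_card (α := Fin m), Fintype.card_fin]
  rfl

lemma card_pred {n : ℕ} (m : ℕ) (P : (Finset (Fin n) →₀ ℕ) → Prop) :
    Set.ncard {t : Tri (Fin n) | t ∈ CS univ m ∧ P t.2.1} =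
      ∑ σ : Equiv.Perm (Fin n), Set.ncard {e | Normal univ e ∧ act σ e = e ∧ P e} * m ^ cyc σ := by
  classical
  have hfin : {t : Tri (Fin n) | t ∈ CS univ m ∧ P t.2.1}.Finite :=
    (finite_CS univ m).subset fun t ht => ht.1
  have h1 : hfin.toFinset.card =
      ∑ σ : Equiv.Perm (Fin n), ({t ∈ hfin.toFinset | t.1 = σ} : Finset _).card :=
    Finset.card_eq_sum_card_fiberwise fun t _ => Finset.mem_coe.2 (mem_univ _)
  rw [Set.ncard_eq_toFinset_card _ hfin, h1]
  refine Finset.sum_congr rfl fun σ _ => ?_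
  rw [← card_col σ m, ← Set.ncard_prod, ← Set.ncard_coe_finset]
  symm
  refine Set.ncard_congr (fun p _ => (σ, p.1, p.2)) ?_ ?_ ?_
  · rintro ⟨e, c⟩ ⟨⟨h1, h2, h3⟩, h4, h5⟩
    rw [Finset.mem_coe, Finset.mem_filter, Set.Finite.mem_toFinset]
    exact ⟨⟨⟨fun x hx => absurd (mem_univ x) hx, h1, (act_iff σ e).1 h2, fun x _ => h4 x,
      fun x hx => absurd (mem_univ x) hx, h5⟩, h3⟩, rfl⟩
  · rintro ⟨e, c⟩ ⟨e', c'⟩ _ _ h
    simp only [Prod.mk.injEq, true_and] at h
    rw [h.1, h.2]
  · rintro ⟨τ, e, c⟩ ht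
    rw [Finset.mem_coe, Finset.mem_filter, Set.Finite.mem_toFinset] at ht
    obtain ⟨⟨h, hP⟩, rfl⟩ := ht
    replace h : IsConf univ m τ e c := h
    exact ⟨(e, c), ⟨⟨h.nor, (act_iff τ e).2 h.inv, hP⟩, fun x => h.lt x (mem_univ x), h.col⟩, rfl⟩

lemma ph_eq (m n : ℕ) : ph m n = ∑ σ : Equiv.Perm (Fin n), fixN n σ * m ^ cyc σ := by
  have := card_pred (n := n) m (fun _ => True)
  simp only [and_true] at this
  unfold ph fixN
  exact this

lemma ta_eq (m n : ℕ) : ta m n = ∑ σ : Equiv.Perm (Fin n), fixT n σ * m ^ cyc σ := by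
  have := card_pred (n := n) m (fun e => n = 1 ∨ e univ ≠ 0)
  unfold ta fixT
  rw [← this]
  congr 1
  ext t
  change _ ∧ IsTree _ _ ↔ _
  unfold IsTree
  rw [Finset.card_univ, Fintype.card_fin]
  rfl

lemma eval_G (m n : ℕ) : (G n).eval (m : ℚ) = (ph m n : ℚ) / n.factorial := by
  unfold G
  rw [Polynomial.eval_mul, Polynomial.eval_C, Polynomial.eval_finsetSum, ph_eq, div_eq_inv_mul]
  congr 1
  push_cast
  refine Finset.sum_congr rfl fun σ _ => ?_
  rw [Polynomial.eval_mul, Polynomial.eval_C, Polynomial.eval_pow, Polynomial.eval_X]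

lemma eval_T (m n : ℕ) : (T n).eval (m : ℚ) = (ta m n : ℚ) / n.factorial := by
  unfold T
  rw [Polynomial.eval_mul, Polynomial.eval_C, Polynomial.eval_finsetSum, ta_eq, div_eq_inv_mul]
  congr 1
  push_cast
  refine Finset.sum_congr rfl fun σ _ => ?_
  rw [Polynomial.eval_mul, Polynomial.eval_C, Polynomial.eval_pow, Polynomial.eval_X]

lemma poly_ext {p q : Polynomial ℚ} (h : ∀ m : ℕ, p.eval (m : ℚ) = q.eval (m : ℚ)) : p = q := by
  apply Polynomial.eq_of_infinite_eval_eq
  refine (Set.infinite_range_of_injective (Nat.cast_injective (R := ℚ))).mono ?_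
  rintro _ ⟨m, rfl⟩
  exact h m

lemma normal_small {α : Type} [DecidableEq α] {A : Finset α} {e : Finset α →₀ ℕ} (hA : #A ≤ 2)
    (h : Normal A e) : e = 0 := by
  ext S
  by_contra h0
  have h1 := Finsupp.mem_support_iff.2 h0
  have h2 := h.three h1
  have h3 := Finset.card_le_card (h.sub S h1)
  omega

lemma normal_zero {α : Type} [DecidableEq α] (A : Finset α) : Normal A (0 : Finset α →₀ ℕ) :=
  ⟨fun S hS => by simp at hS, fun S hS => by simp at hS, fun S hS => by simp at hS⟩

lemma fixN_small {n : ℕ} (hn : n ≤ 2) (σ : Equiv.Perm (Fin n)) : fixN n σ = 1 := by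
  unfold fixN
  rw [Set.ncard_eq_one]
  refine ⟨0, ?_⟩
  ext e
  rw [Set.mem_singleton_iff]
  constructor
  · rintro ⟨h, -⟩
    exact normal_small (by simpa using hn) h
  · rintro rfl
    exact ⟨normal_zero _, by unfold act; exact Finsupp.mapDomain_zero⟩

lemma fixT_one (σ : Equiv.Perm (Fin 1)) : fixT 1 σ = 1 := by
  unfold fixT
  rw [Set.ncard_eq_one]
  refine ⟨0, ?_⟩
  ext e
  rw [Set.mem_singleton_iff]
  constructor
  · rintro ⟨h, -⟩
    exact normal_small (by simp) h
  · rintro rfl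
    exact ⟨normal_zero _, by unfold act; exact Finsupp.mapDomain_zero, Or.inl rfl⟩

lemma cyc_zero (σ : Equiv.Perm (Fin 0)) : cyc σ = 0 := by
  unfold cyc
  have : IsEmpty (Quotient (Equiv.Perm.SameCycle.setoid σ)) :=
    ⟨fun q => Quotient.inductionOn q fun x => x.elim0⟩
  exact Nat.card_of_isEmpty

lemma cyc_one (σ : Equiv.Perm (Fin 1)) : cyc σ = 1 := by
  unfold cyc
  have : Unique (Quotient (Equiv.Perm.SameCycle.setoid σ)) :=
    { default := Quotient.mk _ 0
      uniq := fun q => Quotient.inductionOn q fun x => by rw [Subsingleton.elim x 0] }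
  exact Nat.card_unique

theorem job5 : Job5 := by
  refine ⟨fun n _ => ?_, fun n hn => ?_, ?_, ?_, ?_⟩
  · apply poly_ext
    intro m
    rw [Polynomial.eval_smul, eval_G, smul_eq_mul, ident1, Polynomial.eval_finsetSum]
    refine Finset.sum_congr rfl fun b _ => ?_
    rw [Polynomial.eval_finsetSum]
    unfold SS
    rw [Finset.mul_sum, Finset.mul_sum]
    refine Finset.sum_congr rfl fun k _ => ?_
    rw [Polynomial.eval_smul, Polynomial.eval_mul, eval_G, eval_T, smul_eq_mul]
  · apply poly_ext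
    intro m
    rw [Polynomial.eval_smul, eval_G, smul_eq_mul, ident2 m n hn, Polynomial.eval_finsetSum]
    refine Finset.sum_congr rfl fun b _ => ?_
    rw [Polynomial.eval_finsetSum]
    unfold SS
    rw [Finset.mul_sum]
    refine Finset.sum_congr rfl fun k _ => ?_
    rw [Polynomial.eval_mul, eval_G, eval_T]
  · unfold G
    rw [Fintype.sum_subsingleton _ (1 : Equiv.Perm (Fin 0)), fixN_small (by omega), cyc_zero]
    simp
  · unfold G
    rw [Fintype.sum_subsingleton _ (1 : Equiv.Perm (Fin 1)), fixN_small (by omega), cyc_one]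
    simp
  · unfold T
    rw [Fintype.sum_subsingleton _ (1 : Equiv.Perm (Fin 1)), fixT_one, cyc_one]
    simp

end Pool.Agent.K7.H68.MO
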