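import Pool.Agent.K7.H68.MO.KeelAct
import Pool.Agent.K7.H68.MO.Poly

set_option autoImplicit false
set_option linter.unusedSectionVars false

/-! Job 4: `Keel (Option (Fin n)) ≃ D univ`, equivariance, trace. -/

open Finset MvPolynomial

namespace Pool.Agent.K7.H68.MO

section DRing

variable {α : Type} [DecidableEq α] {A : Finset α}

lemma x_bad {S : Finset α} (h : ¬ S ⊆ A ∨ #S < 2) : x A S = 0 := by
  unfold x
  rw [Ideal.Quotient.eq_zero_iff_mem]
  exact Ideal.subset_span (Or.inl (Or.inl ⟨S, h, rfl⟩))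

lemma x_cross {S T : Finset α} (h : Cross S T) : x A S * x A T = 0 := by
  unfold x
  rw [← map_mul, Ideal.Quotient.eq_zero_iff_mem]
  exact Ideal.subset_span (Or.inl (Or.inr ⟨S, T, h, rfl⟩))

lemma x_lin {i j : α} (hi : i ∈ A) (hj : j ∈ A) (hij : i ≠ j) :
    ∑ S ∈ A.powerset with i ∈ S ∧ j ∈ S, x A S = 0 := by
  unfold x
  rw [← map_sum, Ideal.Quotient.eq_zero_iff_mem]
  exact Ideal.subset_span (Or.inr ⟨i, hi, j, hj, hij, rfl⟩)

end DRing

variable {n : ℕ}

/-- inclusion of sets -/
def som (S : Finset (Fin n)) : Finset (Option (Fin n)) := S.map Function.Embedding.some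

@[simp] lemma some_mem_som {S : Finset (Fin n)} {a : Fin n} : some a ∈ som S ↔ a ∈ S := by
  simp [som]

@[simp] lemma none_notMem_som {S : Finset (Fin n)} : (none : Option (Fin n)) ∉ som S := by
  simp [som]

lemma card_som (S : Finset (Fin n)) : #(som S) = #S := card_map _

lemma som_subset {S T : Finset (Fin n)} : som S ⊆ som T ↔ S ⊆ T := Finset.map_subset_map

lemma som_disj {S T : Finset (Fin n)} : Disjoint (som S) (som T) ↔ Disjoint S T :=
  Finset.disjoint_map _

/-- the valid sets -/
def Ok (S : Finset (Fin n)) : Prop := 2 ≤ #S ∧ S ≠ univ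

instance (S : Finset (Fin n)) : Decidable (Ok S) := by unfold Ok; infer_instance

lemma Ok.bd {S : Finset (Fin n)} (h : Ok S) : 2 ≤ #(som S) ∧ 2 ≤ #(som S)ᶜ := by
  refine ⟨by rw [card_som]; exact h.1, ?_⟩
  rw [Finset.card_compl, card_som, Fintype.card_option, Fintype.card_fin]
  have h1 : #S < n := by
    have := Finset.card_lt_univ_of_notMem (s := S) (x := (Classical.choose (by
      by_contra hc
      push Not at hc
      exact h.2 (Finset.eq_univ_iff_forall.2 hc) : ∃ a, a ∉ S)))
      (Classical.choose_spec (_ : ∃ a, a ∉ S))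
    simpa using this
  omega

lemma ok_of_bd {S : Finset (Fin n)} (h : 2 ≤ #(som S) ∧ 2 ≤ #(som S)ᶜ) : Ok S := by
  refine ⟨by rw [← card_som]; exact h.1, ?_⟩
  rintro rfl
  have := h.2
  rw [Finset.card_compl, card_som, Fintype.card_option, Fintype.card_fin, Finset.card_univ,
    Fintype.card_fin] at this
  omega

/-- the divisor of a valid set -/
noncomputable def dd (S : Finset (Fin n)) : Keel (Option (Fin n)) :=
  if h : Ok S then Ideal.Quotient.mk _ (X ⟨som S, h.bd⟩) else 0

/-- the elements of the set of marked points, without `none` -/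
def uns (S : Finset (Option (Fin n))) : Finset (Fin n) := {a | some a ∈ S}

@[simp] lemma mem_uns {S : Finset (Option (Fin n))} {a : Fin n} : a ∈ uns S ↔ some a ∈ S := by
  simp [uns]

lemma uns_som (S : Finset (Fin n)) : uns (som S) = S := by
  ext a; simp

lemma som_uns {S : Finset (Option (Fin n))} (h : none ∉ S) : som (uns S) = S := by
  ext a
  cases a with
  | none => simp [h]
  | some a => simp

/-- the representative of a divisor -/
def rep (S : Bd (Option (Fin n))) : Finset (Fin n) := if none ∈ S.1 then uns S.1ᶜ else uns S.1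

lemma rep_cases (S : Bd (Option (Fin n))) :
    (none ∉ S.1 ∧ S.1 = som (rep S)) ∨ (none ∈ S.1 ∧ S.1 = (som (rep S))ᶜ) := by
  unfold rep
  by_cases h : none ∈ S.1
  · right
    rw [if_pos h, som_uns (by simpa using h), compl_compl]
    exact ⟨h, rfl⟩
  · left
    rw [if_neg h, som_uns h]
    exact ⟨h, rfl⟩

lemma rep_ok (S : Bd (Option (Fin n))) : Ok (rep S) := by
  apply ok_of_bd
  rcases rep_cases S with ⟨-, h⟩ | ⟨-, h⟩
  · rw [← h]; exact S.2
  · have := S.2
    rw [h, compl_compl] at this
    exact ⟨this.2, this.1⟩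

lemma rep_of_som {T : Finset (Fin n)} (h : 2 ≤ #(som T) ∧ 2 ≤ #(som T)ᶜ) :
    rep ⟨som T, h⟩ = T := by
  unfold rep
  rw [if_neg none_notMem_som, uns_som]

lemma rep_of_compl {T : Finset (Fin n)} (h : 2 ≤ #(som T)ᶜ ∧ 2 ≤ #((som T)ᶜ)ᶜ) :
    rep ⟨(som T)ᶜ, h⟩ = T := by
  unfold rep
  have h1 : (none : Option (Fin n)) ∈ (som T)ᶜ := by simp
  rw [if_pos h1]
  change uns ((som T)ᶜ)ᶜ = T
  rw [compl_compl, uns_som]

lemma sum_rep {B : Type} [AddCommMonoid B] (F : Finset (Fin n) → B)
    (P : Finset (Option (Fin n)) → Prop) [DecidablePred P]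
    (h1 : ∀ T, P (som T) → Ok T) (h2 : ∀ T, P (som T)ᶜ → Ok T) :
    ∑ S : Bd (Option (Fin n)) with P S.1, F (rep S) =
      ∑ T : Finset (Fin n) with P (som T), F T + ∑ T : Finset (Fin n) with P (som T)ᶜ, F T := by
  rw [← Finset.sum_filter_add_sum_filter_not ({S : Bd (Option (Fin n)) | P S.1} : Finset _)
    (fun S => none ∉ S.1)]
  congr 1
  · refine Finset.sum_bij (fun S _ => rep S) (fun S hS => ?_) (fun S hS S' hS' h => ?_)
      (fun T hT => ?_) (fun S hS => rfl)
    · rw [Finset.mem_filter, Finset.mem_filter] at hS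
      rw [Finset.mem_filter]
      refine ⟨mem_univ _, ?_⟩
      rcases rep_cases S with ⟨-, h⟩ | ⟨h, -⟩
      · rw [← h]; exact hS.1.2
      · exact absurd h hS.2
    · rw [Finset.mem_filter] at hS hS'
      rcases rep_cases S with ⟨-, h3⟩ | ⟨h3, -⟩
      · rcases rep_cases S' with ⟨-, h4⟩ | ⟨h4, -⟩
        · apply Subtype.ext
          rw [h3, h4, h]
        · exact absurd h4 hS'.2
      · exact absurd h3 hS.2
    · rw [Finset.mem_filter] at hT
      refine ⟨⟨som T, (h1 T hT.2).bd⟩, ?_, rep_of_som _⟩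
      rw [Finset.mem_filter, Finset.mem_filter]
      exact ⟨⟨mem_univ _, hT.2⟩, none_notMem_som⟩
  · refine Finset.sum_bij (fun S _ => rep S) (fun S hS => ?_) (fun S hS S' hS' h => ?_)
      (fun T hT => ?_) (fun S hS => rfl)
    · rw [Finset.mem_filter, Finset.mem_filter, not_not] at hS
      rw [Finset.mem_filter]
      refine ⟨mem_univ _, ?_⟩
      rcases rep_cases S with ⟨h, -⟩ | ⟨-, h⟩
      · exact absurd hS.2 h
      · rw [← h]; exact hS.1.2
    · rw [Finset.mem_filter, not_not] at hS hS'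
      rcases rep_cases S with ⟨h3, -⟩ | ⟨-, h3⟩
      · exact absurd hS.2 h3
      · rcases rep_cases S' with ⟨h4, -⟩ | ⟨-, h4⟩
        · exact absurd hS'.2 h4
        · apply Subtype.ext
          rw [h3, h4, h]
    · rw [Finset.mem_filter] at hT
      have h3 : 2 ≤ #(som T)ᶜ ∧ 2 ≤ #((som T)ᶜ)ᶜ := by
        rw [compl_compl]
        exact ⟨(h2 T hT.2).bd.2, (h2 T hT.2).bd.1⟩
      refine ⟨⟨(som T)ᶜ, h3⟩, ?_, rep_of_compl _⟩
      rw [Finset.mem_filter, Finset.mem_filter, not_not]
      exact ⟨⟨mem_univ _, hT.2⟩, by simp⟩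

/-- the four point condition -/
def Four (i j k l : Option (Fin n)) (S : Finset (Option (Fin n))) : Prop :=
  i ∈ S ∧ j ∈ S ∧ k ∉ S ∧ l ∉ S

instance (i j k l : Option (Fin n)) : DecidablePred (Four i j k l) := fun S => by
  unfold Four; infer_instance

lemma four_ok {i j k l : Option (Fin n)} (hij : i ≠ j) (hkl : k ≠ l) {T : Finset (Fin n)}
    (h : Four i j k l (som T)) : Ok T := by
  obtain ⟨h1, h2, h3, h4⟩ := h
  constructor
  · rw [← card_som]
    exact Finset.one_lt_card.2 ⟨i, h1, j, h2, hij⟩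
  · rintro rfl
    have h5 : ∀ a : Option (Fin n), a ∉ som univ → a = none := by
      intro a ha
      cases a with
      | none => rfl
      | some a => simp at ha
    exact hkl ((h5 k h3).trans (h5 l h4).symm)

lemma four_ok' {i j k l : Option (Fin n)} (hij : i ≠ j) (hkl : k ≠ l) {T : Finset (Fin n)}
    (h : Four i j k l (som T)ᶜ) : Ok T := by
  apply four_ok hkl hij
  obtain ⟨h1, h2, h3, h4⟩ := h
  exact ⟨by simpa using h3, by simpa using h4, by simpa using h1, by simpa using h2⟩

lemma L_zero {p q : Option (Fin n)} (hpq : p ≠ q) :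
    ∑ T : Finset (Fin n), (if p ∈ som T ∧ q ∈ som T then x univ T else 0) = 0 := by
  cases p with
  | none => simp
  | some a =>
    cases q with
    | none => simp
    | some b =>
      have h := x_lin (A := (univ : Finset (Fin n))) (mem_univ a) (mem_univ b)
        (fun h => hpq (by rw [h]))
      rw [Finset.sum_filter, Finset.powerset_univ] at h
      simpa using h

/-- the homomorphism `φ` -/
noncomputable def phi0 (n : ℕ) : MvPolynomial (Bd (Option (Fin n))) ℚ →ₐ[ℚ] D (univ : Finset (Fin n)) :=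
  aeval fun S => x univ (rep S)

lemma phi0_X (S : Bd (Option (Fin n))) : phi0 n (X S) = x univ (rep S) := aeval_X _ _

lemma phi0_rel : ∀ p ∈ keelRel (Option (Fin n)), phi0 n p = 0 := by
  rintro p ((⟨S, T, h, rfl⟩ | ⟨S, T, h1, h2, h3, h4, rfl⟩) |
    ⟨i, j, k, l, hij, hik, hil, hjk, hjl, hkl, rfl⟩)
  · rw [map_sub, phi0_X, phi0_X, sub_eq_zero]
    congr 1
    rcases rep_cases S with ⟨h1, h2⟩ | ⟨h1, h2⟩ <;> rcases rep_cases T with ⟨h3, h4⟩ | ⟨h3, h4⟩
    · rw [h, h2] at h3
      simp at h3
    · have h5 : som (rep S) = som (rep T) := by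
        rw [← h2, ← compl_inj_iff, ← h, h4]
      exact Finset.map_injective _ h5
    · have h5 : som (rep S) = som (rep T) := by
        rw [← h4, h, h2, compl_compl]
      exact Finset.map_injective _ h5
    · rw [h, mem_compl] at h3
      exact absurd h1 h3
  · rw [map_mul, phi0_X, phi0_X]
    apply x_cross
    have hdis : ∀ s t : Finset (Fin n), som s ⊆ (som t)ᶜ ↔ Disjoint s t := by
      intro s t
      rw [← som_disj, Finset.subset_compl_iff_disjoint_right]
    rcases rep_cases S with ⟨-, h5⟩ | ⟨-, h5⟩ <;> rcases rep_cases T with ⟨-, h6⟩ | ⟨-, h6⟩ <;>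
      rw [h5, h6] at h1 h2 h3 h4
    · rw [som_subset] at h1 h2
      rw [hdis] at h3
      exact ⟨h1, h2, h3⟩
    · rw [compl_compl, som_subset] at h3 h4
      rw [hdis] at h1
      exact ⟨h3, h4, h1⟩
    · rw [Finset.compl_subset_compl, som_subset] at h3
      rw [hdis, disjoint_comm] at h2
      rw [Finset.compl_subset_compl, som_subset] at h4
      exact ⟨h4, h3, h2⟩
    · rw [Finset.compl_subset_compl, som_subset] at h1 h2
      rw [compl_compl] at h4
      rw [hdis, disjoint_comm] at h4
      exact ⟨h2, h1, h4⟩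
  · rw [map_sub, map_sum, map_sum]
    simp only [phi0_X]
    have e1 := sum_rep (fun T => x (univ : Finset (Fin n)) T) (Four i j k l)
      (fun T h => four_ok hij hkl h) (fun T h => four_ok' hij hkl h)
    have e2 := sum_rep (fun T => x (univ : Finset (Fin n)) T) (Four i k j l)
      (fun T h => four_ok hik hjl h) (fun T h => four_ok' hik hjl h)
    unfold Four at e1 e2
    rw [e1, e2]
    let L : Option (Fin n) → Option (Fin n) → D (univ : Finset (Fin n)) := fun p q =>
      ∑ T : Finset (Fin n), (if p ∈ som T ∧ q ∈ som T then x univ T else 0)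
    have e3 : L i j + L k l - (L i k + L j l) = 0 := by
      rw [show L i j = 0 from L_zero hij, show L k l = 0 from L_zero hkl,
        show L i k = 0 from L_zero hik, show L j l = 0 from L_zero hjl]
      simp
    rw [← e3]
    simp only [L]
    rw [Finset.sum_filter, Finset.sum_filter, Finset.sum_filter, Finset.sum_filter,
      ← Finset.sum_add_distrib, ← Finset.sum_add_distrib, ← Finset.sum_add_distrib,
      ← Finset.sum_add_distrib, ← Finset.sum_sub_distrib, ← Finset.sum_sub_distrib]
    refine Finset.sum_congr rfl fun T _ => ?_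
    simp only [mem_compl, not_not]
    by_cases a1 : i ∈ som T <;> by_cases a2 : j ∈ som T <;> by_cases a3 : k ∈ som T <;>
      by_cases a4 : l ∈ som T <;> simp [a1, a2, a3, a4]

end Pool.Agent.K7.H68.MO
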