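import Pool.Agent.K7.H68.MO.Keel

set_option autoImplicit false
set_option linter.unusedSectionVars false

/-! Job 4, second part. -/

open Finset MvPolynomial

namespace Pool.Agent.K7.H68.MO

variable {n : ℕ}

lemma dd_ok {S : Finset (Fin n)} (h : Ok S) :
    dd S = Ideal.Quotient.mk _ (X ⟨som S, h.bd⟩) := by
  unfold dd; rw [dif_pos h]

lemma dd_bad {S : Finset (Fin n)} (h : ¬ Ok S) : dd S = 0 := by
  unfold dd; rw [dif_neg h]

/-- every divisor class is the class of its representative -/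
lemma mk_eq (S : Bd (Option (Fin n))) :
    (Ideal.Quotient.mk (Ideal.span (keelRel (Option (Fin n)))) (X S)) = dd (rep S) := by
  rw [dd_ok (rep_ok S)]
  rcases rep_cases S with ⟨-, h⟩ | ⟨-, h⟩
  · congr 2
    exact Subtype.ext h
  · rw [Ideal.Quotient.eq]
    refine Ideal.subset_span (Or.inl (Or.inl ⟨S, ⟨som (rep S), (rep_ok S).bd⟩, ?_, rfl⟩))
    change som (rep S) = S.1ᶜ
    rw [eq_compl_comm, ← h]

lemma dd_lin {i j k : Fin n} (hij : i ≠ j) (hik : i ≠ k) (hjk : j ≠ k) :
    ∑ T : Finset (Fin n) with i ∈ T ∧ j ∈ T ∧ k ∉ T, dd T =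
      ∑ T : Finset (Fin n) with i ∈ T ∧ k ∈ T ∧ j ∉ T, dd T := by
  have key : ∀ {i j k : Fin n}, i ≠ j →
      ∑ S : Bd (Option (Fin n)) with some i ∈ S.1 ∧ some j ∈ S.1 ∧ some k ∉ S.1 ∧ none ∉ S.1,
        dd (rep S) = ∑ T : Finset (Fin n) with i ∈ T ∧ j ∈ T ∧ k ∉ T, dd T := by
    intro i j k hij
    have h1 := sum_rep (fun T : Finset (Fin n) => dd T) (Four (some i) (some j) (some k) none)
      (fun T h => four_ok (by simpa using hij) (by simp) h)
      (fun T h => four_ok' (by simpa using hij) (by simp) h)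
    unfold Four at h1
    rw [h1]
    have h2 : ∀ T : Finset (Fin n), ¬ (some i ∈ (som T)ᶜ ∧ some j ∈ (som T)ᶜ ∧ some k ∉ (som T)ᶜ ∧
        none ∉ (som T)ᶜ) := by
      rintro T ⟨-, -, -, h⟩
      simp at h
    rw [Finset.filter_false_of_mem (fun T _ => h2 T), Finset.sum_empty, add_zero]
    refine Finset.sum_congr ?_ fun _ _ => rfl
    ext T
    simp
  rw [← key hij, ← key hik]
  have h1 : (Ideal.Quotient.mk (Ideal.span (keelRel (Option (Fin n)))))
      ((∑ S : Bd (Option (Fin n)) with some i ∈ S.1 ∧ some j ∈ S.1 ∧ some k ∉ S.1 ∧ none ∉ S.1, X S) -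
      ∑ S : Bd (Option (Fin n)) with some i ∈ S.1 ∧ some k ∈ S.1 ∧ some j ∉ S.1 ∧ none ∉ S.1, X S) =
      0 := by
    rw [Ideal.Quotient.eq_zero_iff_mem]
    exact Ideal.subset_span (Or.inr ⟨some i, some j, some k, none, by simpa using hij,
      by simpa using hik, by simp, by simpa using hjk, by simp, by simp, rfl⟩)
  rw [map_sub, map_sum, map_sum, sub_eq_zero] at h1
  simp only [mk_eq] at h1
  exact h1

/-- the sum over the sets containing `i` and `j` -/
noncomputable def EE (i j : Fin n) : Keel (Option (Fin n)) :=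
  ∑ S : Finset (Fin n) with i ∈ S ∧ j ∈ S, dd S

lemma EE_comm (i j : Fin n) : EE i j = EE j i := by
  unfold EE
  refine Finset.sum_congr ?_ fun _ _ => rfl
  ext T
  simp [and_comm]

lemma EE_eq {i j k : Fin n} (hij : i ≠ j) (hik : i ≠ k) (hjk : j ≠ k) : EE i j = EE i k := by
  have h1 := dd_lin hij hik hjk
  rw [Finset.sum_filter, Finset.sum_filter] at h1
  unfold EE
  rw [Finset.sum_filter, Finset.sum_filter, ← sub_eq_zero, ← Finset.sum_sub_distrib]
  rw [← sub_eq_zero, ← Finset.sum_sub_distrib] at h1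
  refine (Finset.sum_congr rfl fun T _ => ?_).trans h1
  by_cases a1 : i ∈ T <;> by_cases a2 : j ∈ T <;> by_cases a3 : k ∈ T <;> simp [a1, a2, a3]

lemma EE_all {i j k l : Fin n} (hij : i ≠ j) (hkl : k ≠ l) : EE i j = EE k l := by
  have h1 : ∀ {i j k : Fin n}, i ≠ j → i ≠ k → EE i j = EE i k := by
    intro i j k hij hik
    by_cases h : j = k
    · rw [h]
    · exact EE_eq hij hik h
  by_cases hik : i = k
  · subst hik
    exact h1 hij hkl
  · rw [h1 hij hik, EE_comm, h1 (Ne.symm hik) hkl]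

lemma not_ok_univ : ¬ Ok (univ : Finset (Fin n)) := fun h => h.2 rfl

/-- the homomorphism `ψ` -/
noncomputable def psi0 (i j : Fin n) : MvPolynomial (Finset (Fin n)) ℚ →ₐ[ℚ] Keel (Option (Fin n)) :=
  aeval fun S => if S = univ then - EE i j else dd S

lemma psi0_X (i j : Fin n) (S : Finset (Fin n)) :
    psi0 i j (X S) = if S = univ then - EE i j else dd S := aeval_X _ _

lemma psi0_rel {i j : Fin n} (hij : i ≠ j) (hn : 3 ≤ n) :
    ∀ p ∈ relD (univ : Finset (Fin n)), psi0 i j p = 0 := by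
  rintro p ((⟨S, h, rfl⟩ | ⟨S, T, h, rfl⟩) | ⟨k, -, l, -, hkl, rfl⟩)
  · rw [psi0_X]
    have h1 : #S < 2 := h.resolve_left fun h1 => h1 (Finset.subset_univ S)
    rw [if_neg, dd_bad]
    · intro h2
      exact absurd h2.1 (by omega)
    · rintro rfl
      rw [Finset.card_univ, Fintype.card_fin] at h1
      omega
  · rw [map_mul, psi0_X, psi0_X, if_neg, if_neg]
    · by_cases hS : Ok S
      · by_cases hT : Ok T
        · rw [dd_ok hS, dd_ok hT, ← map_mul, Ideal.Quotient.eq_zero_iff_mem]
          refine Ideal.subset_span (Or.inl (Or.inr ⟨⟨som S, hS.bd⟩, ⟨som T, hT.bd⟩, ?_, ?_, ?_, ?_, rfl⟩))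
          · exact fun h1 => h.1 (som_subset.1 h1)
          · exact fun h1 => h.2.1 (som_subset.1 h1)
          · intro h1
            apply h.2.2
            rw [← som_disj]
            exact Finset.subset_compl_iff_disjoint_right.1 h1
          · intro h1
            have : (none : Option (Fin n)) ∈ som S := h1 (by simp)
            simp at this
        · rw [dd_bad hT, mul_zero]
      · rw [dd_bad hS, zero_mul]
    · rintro rfl
      exact h.1 (Finset.subset_univ S)
    · rintro rfl
      exact h.2.1 (Finset.subset_univ T)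
  · rw [map_sum]
    simp only [psi0_X]
    have h1 : ∀ S : Finset (Fin n), (if S = univ then - EE i j else dd S) =
        dd S + if S = univ then - EE i j else 0 := by
      intro S
      by_cases hS : S = univ
      · rw [if_pos hS, if_pos hS, hS, dd_bad not_ok_univ, zero_add]
      · rw [if_neg hS, if_neg hS, add_zero]
    simp only [h1]
    rw [Finset.sum_add_distrib, Finset.sum_ite_eq', if_pos (by simp), Finset.powerset_univ]
    have h2 := EE_all hkl hij
    unfold EE at h2 ⊢
    rw [h2, add_neg_cancel]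

/-- `ψ : D univ → Keel` -/
noncomputable def psi {i j : Fin n} (hij : i ≠ j) (hn : 3 ≤ n) :
    D (univ : Finset (Fin n)) →ₐ[ℚ] Keel (Option (Fin n)) :=
  Ideal.Quotient.liftₐ _ (psi0 i j) (fun p hp => by
    have h : Ideal.span (relD (univ : Finset (Fin n))) ≤ RingHom.ker (psi0 i j) :=
      Ideal.span_le.2 fun p hp => psi0_rel hij hn p hp
    exact h hp)

/-- `φ : Keel → D univ` -/
noncomputable def phi (n : ℕ) : Keel (Option (Fin n)) →ₐ[ℚ] D (univ : Finset (Fin n)) :=
  Ideal.Quotient.liftₐ _ (phi0 n) (fun p hp => by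
    have h : Ideal.span (keelRel (Option (Fin n))) ≤ RingHom.ker (phi0 n) :=
      Ideal.span_le.2 fun p hp => phi0_rel p hp
    exact h hp)

lemma psi_mk {i j : Fin n} (hij : i ≠ j) (hn : 3 ≤ n) (p : MvPolynomial (Finset (Fin n)) ℚ) :
    psi hij hn (Ideal.Quotient.mk _ p) = psi0 i j p := rfl

lemma phi_mk (p : MvPolynomial (Bd (Option (Fin n))) ℚ) :
    phi n (Ideal.Quotient.mk _ p) = phi0 n p := rfl

lemma phi_dd {S : Finset (Fin n)} (hS : Ok S) : phi n (dd S) = x univ S := by
  rw [dd_ok hS, phi_mk, phi0_X, rep_of_som]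

lemma phi_psi {i j : Fin n} (hij : i ≠ j) (hn : 3 ≤ n) (y : D (univ : Finset (Fin n))) :
    phi n (psi hij hn y) = y := by
  have h : (phi n).comp (psi hij hn) = AlgHom.id ℚ _ := by
    apply Ideal.Quotient.algHom_ext
    apply MvPolynomial.algHom_ext
    intro S
    change phi n (psi hij hn (Ideal.Quotient.mk _ (X S))) = x univ S
    rw [psi_mk, psi0_X]
    by_cases hS : S = univ
    · rw [if_pos hS, map_neg, neg_eq_iff_add_eq_zero, hS]
      unfold EE
      rw [map_sum]
      have h1 := x_lin (A := (univ : Finset (Fin n))) (mem_univ i) (mem_univ j) hij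
      rw [Finset.powerset_univ] at h1
      rw [← h1]
      have h2 : (univ : Finset (Fin n)) ∈ ({S : Finset (Fin n) | i ∈ S ∧ j ∈ S} : Finset _) := by simp
      rw [← Finset.add_sum_erase _ _ h2, ← Finset.add_sum_erase _ _ h2, dd_bad not_ok_univ, map_zero,
        zero_add, add_comm]
      congr 1
      refine Finset.sum_congr rfl fun T hT => ?_
      rw [Finset.mem_erase, Finset.mem_filter] at hT
      apply phi_dd
      exact ⟨Finset.one_lt_card.2 ⟨i, hT.2.2.1, j, hT.2.2.2, hij⟩, hT.1⟩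
    · rw [if_neg hS]
      by_cases h1 : Ok S
      · exact phi_dd h1
      · rw [dd_bad h1, map_zero, x_bad]
        right
        by_contra h2
        exact h1 ⟨by omega, hS⟩
  exact congrArg (fun f => f y) h

lemma psi_phi {i j : Fin n} (hij : i ≠ j) (hn : 3 ≤ n) (y : Keel (Option (Fin n))) :
    psi hij hn (phi n y) = y := by
  have h : (psi hij hn).comp (phi n) = AlgHom.id ℚ _ := by
    apply Ideal.Quotient.algHom_ext
    apply MvPolynomial.algHom_ext
    intro S
    change psi hij hn (phi n (Ideal.Quotient.mk _ (X S))) = Ideal.Quotient.mk _ (X S)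
    rw [phi_mk, phi0_X, mk_eq]
    unfold x
    rw [psi_mk, psi0_X, if_neg (rep_ok S).2]
  exact congrArg (fun f => f y) h

/-- the isomorphism -/
noncomputable def isoK {i j : Fin n} (hij : i ≠ j) (hn : 3 ≤ n) :
    D (univ : Finset (Fin n)) ≃ₗ[ℚ] Keel (Option (Fin n)) :=
  LinearEquiv.ofLinearMap (psi hij hn).toLinearMap (phi n).toLinearMap
    (LinearMap.ext fun y => psi_phi hij hn y) (LinearMap.ext fun y => phi_psi hij hn y)

lemma som_im (σ : Equiv.Perm (Fin n)) (S : Finset (Fin n)) :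
    (som S).map (σ.optionCongr).toEmbedding = som (im σ S) := by
  unfold som
  rw [Finset.map_map, Finset.map_map]
  congr 1

lemma ok_im {σ : Equiv.Perm (Fin n)} {S : Finset (Fin n)} : Ok (im σ S) ↔ Ok S := by
  unfold Ok
  rw [card_map]
  have h : im σ S = univ ↔ S = univ := im_eq_A (fun x => by simp)
  rw [Ne, h]

lemma keelMap_dd (σ : Equiv.Perm (Fin n)) (S : Finset (Fin n)) :
    keelMap σ.optionCongr (dd S) = dd (im σ S) := by
  by_cases h : Ok S
  · rw [dd_ok h, dd_ok (ok_im.2 h)]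
    change Ideal.Quotient.mk _ (rename (bdPerm σ.optionCongr) (X ⟨som S, h.bd⟩)) = _
    rw [rename_X]
    congr 2
    exact Subtype.ext (som_im σ S)
  · rw [dd_bad h, dd_bad (fun h1 => h (ok_im.1 h1)), map_zero]

lemma keelMap_EE (σ : Equiv.Perm (Fin n)) (i j : Fin n) :
    keelMap σ.optionCongr (EE i j) = EE (σ i) (σ j) := by
  unfold EE
  rw [map_sum]
  simp only [keelMap_dd]
  refine Finset.sum_bij (fun S _ => im σ S) (fun S hS => ?_)
    (fun S _ S' _ h => Finset.map_injective _ h) (fun T hT => ?_) (fun _ _ => rfl)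
  · rw [Finset.mem_filter] at hS ⊢
    exact ⟨mem_univ _, by simpa using hS.2⟩
  · refine ⟨im σ⁻¹ T, ?_, ?_⟩
    · rw [Finset.mem_filter] at hT ⊢
      refine ⟨mem_univ _, ?_, ?_⟩
      · rw [mem_map_equiv]; exact hT.2.1
      · rw [mem_map_equiv]; exact hT.2.2
    · rw [← im_mul, mul_inv_cancel]
      ext x; rw [Finset.mem_map_equiv]; rfl

lemma keelMap_psi {i j : Fin n} (hij : i ≠ j) (hn : 3 ≤ n) (σ : Equiv.Perm (Fin n))
    (e : Finset (Fin n) →₀ ℕ) :
    keelMap σ.optionCongr (psi hij hn (mon univ e)) = psi hij hn (mon univ (act σ e)) := by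
  have h : (keelMap σ.optionCongr).comp (psi0 i j) =
      (psi0 i j).comp (rename (Finset.map σ.toEmbedding)) := by
    apply MvPolynomial.algHom_ext
    intro S
    rw [AlgHom.comp_apply, AlgHom.comp_apply, rename_X, psi0_X, psi0_X]
    have h1 : im σ S = univ ↔ S = univ := im_eq_A (fun x => by simp)
    by_cases hS : S = univ
    · rw [if_pos hS, if_pos (h1.2 hS), map_neg, keelMap_EE,
        EE_all (fun h => hij (σ.injective h)) hij]
    · rw [if_neg hS, if_neg (fun h2 => hS (h1.1 h2)), keelMap_dd]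
  have h2 := congrArg (fun f => f (monomial e (1 : ℚ))) h
  simp only [AlgHom.comp_apply, rename_monomial] at h2
  exact h2

/-- trace of a permutation of a basis -/
lemma trace_perm {ι V : Type} [AddCommGroup V] [Module ℚ V] [Fintype ι] [DecidableEq ι]
    (b : Module.Basis ι ℚ V) (f : V →ₗ[ℚ] V) (π : ι → ι) (h : ∀ i, f (b i) = b (π i)) :
    LinearMap.trace ℚ V f = #{i | π i = i} := by
  rw [LinearMap.trace_eq_matrix_trace ℚ b f, Matrix.trace]
  simp only [Matrix.diag_apply, LinearMap.toMatrix_apply, h, Module.Basis.repr_self,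
    Finsupp.single_apply]
  rw [Finset.sum_boole]

lemma normal_act {σ : Equiv.Perm (Fin n)} {e : Finset (Fin n) →₀ ℕ} (h : Normal univ e) :
    Normal univ (act σ e) := by
  have h1 := (normal_tr σ.toEmbedding univ e).2 h
  have h2 : (univ : Finset (Fin n)).map σ.toEmbedding = univ := by ext; simp
  rw [h2] at h1
  have h3 : tr σ.toEmbedding e = act σ e := by
    unfold tr act
    rw [Finsupp.embDomain_eq_mapDomain]
    rfl
  rwa [h3] at h1

theorem trace_keel (h1 : Job1) (h3 : Job3) (hn : 3 ≤ n) (σ : Equiv.Perm (Fin n)) :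
    LinearMap.trace ℚ (Keel (Option (Fin n))) (keelMap σ.optionCongr).toLinearMap = fixN n σ := by
  classical
  let i : Fin n := ⟨0, by omega⟩
  let j : Fin n := ⟨1, by omega⟩
  have hij : i ≠ j := by
    intro h
    have := congrArg Fin.val h
    simp [i, j] at this
  let ι := {e : Finset (Fin n) →₀ ℕ // Normal univ e}
  have hfin : Finite ι := finite_normal (univ : Finset (Fin n))
  let : Fintype ι := Fintype.ofFinite ι
  have hli := h3 (Fin n) univ (by rw [Finset.card_univ, Fintype.card_fin]; omega)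
  have hsp : ⊤ ≤ Submodule.span ℚ (Set.range fun e : ι => mon univ e.1) := by
    rw [← h1 (Fin n) univ]
    apply Submodule.span_mono
    rintro _ ⟨e, he, rfl⟩
    exact ⟨⟨e, he⟩, rfl⟩
  let b : Module.Basis ι ℚ (D (univ : Finset (Fin n))) := Module.Basis.mk hli hsp
  let b' := b.map (isoK hij hn)
  let π : ι → ι := fun e => ⟨act σ e.1, normal_act e.2⟩
  have hb : ∀ e : ι, b' e = psi hij hn (mon univ e.1) := by
    intro e
    change (isoK hij hn) (b e) = _
    rw [Module.Basis.mk_apply]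
    rfl
  rw [trace_perm b' _ π fun e => by
    rw [hb, hb]
    exact keelMap_psi hij hn σ e.1]
  unfold fixN
  norm_cast
  rw [← Set.ncard_coe_finset]
  refine Set.ncard_congr (fun e _ => e.1) ?_ ?_ ?_
  · rintro ⟨e, he⟩ h
    rw [Finset.mem_coe, Finset.mem_filter] at h
    exact ⟨he, congrArg Subtype.val h.2⟩
  · intro e e' _ _ h
    exact Subtype.ext h
  · rintro e ⟨he, hact⟩
    refine ⟨⟨e, he⟩, ?_, rfl⟩
    rw [Finset.mem_coe, Finset.mem_filter]
    exact ⟨mem_univ _, Subtype.ext hact⟩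

theorem Q_eq (h1 : Job1) (h3 : Job3) (hn : 3 ≤ n) : Q n = G n := by
  unfold Q G
  congr 1
  refine Finset.sum_congr rfl fun σ _ => ?_
  rw [trace_keel h1 h3 hn]

end Pool.Agent.K7.H68.MO
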