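import Pool.Agent.K7.H68.MO.Defs

set_option autoImplicit false
set_option linter.unusedSectionVars false

/-! Permutations of the marked points act on Keel's ring; characteristic polynomials. -/

open Finset MvPolynomial

namespace Pool.Agent.K7.H68.MO

section Keel

variable {M : Type} [Fintype M] [DecidableEq M]

lemma bdPerm_val (σ : Equiv.Perm M) (S : Bd M) : (bdPerm σ S).1 = S.1.map σ.toEmbedding := rfl

lemma mem_bdPerm {σ : Equiv.Perm M} {S : Bd M} {a : M} : σ a ∈ (bdPerm σ S).1 ↔ a ∈ S.1 := by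
  rw [bdPerm_val]
  simp

lemma map_compl' (σ : Equiv.Perm M) (S : Finset M) :
    (S.map σ.toEmbedding)ᶜ = Sᶜ.map σ.toEmbedding := by
  ext x
  simp only [mem_compl, mem_map_equiv]

/-- a permutation of the marked points as a permutation of the boundary divisors -/
def bdEquiv (σ : Equiv.Perm M) : Equiv.Perm (Bd M) where
  toFun := bdPerm σ
  invFun := bdPerm σ.symm
  left_inv S := by
    apply Subtype.ext
    ext x
    rw [bdPerm_val, bdPerm_val, mem_map_equiv, mem_map_equiv, Equiv.symm_symm,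
      Equiv.symm_apply_apply]
  right_inv S := by
    apply Subtype.ext
    ext x
    rw [bdPerm_val, bdPerm_val, mem_map_equiv, mem_map_equiv, Equiv.symm_symm,
      Equiv.apply_symm_apply]

lemma sum_bd (σ : Equiv.Perm M) (i j k l : M) :
    rename (bdPerm σ) (∑ S : Bd M with i ∈ S.1 ∧ j ∈ S.1 ∧ k ∉ S.1 ∧ l ∉ S.1,
      (X S : MvPolynomial (Bd M) ℚ)) =
      ∑ S : Bd M with σ i ∈ S.1 ∧ σ j ∈ S.1 ∧ σ k ∉ S.1 ∧ σ l ∉ S.1, X S := by
  rw [map_sum]
  refine Finset.sum_equiv (bdEquiv σ) (fun S => ?_) (fun S _ => ?_)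
  · simp only [Finset.mem_filter, Finset.mem_univ, true_and]
    change _ ↔ σ i ∈ (bdPerm σ S).1 ∧ σ j ∈ (bdPerm σ S).1 ∧ σ k ∉ (bdPerm σ S).1 ∧
      σ l ∉ (bdPerm σ S).1
    rw [mem_bdPerm, mem_bdPerm, mem_bdPerm, mem_bdPerm]
  · rw [rename_X]
    rfl

lemma keel_le (σ : Equiv.Perm M) :
    Ideal.span (keelRel M) ≤ (Ideal.span (keelRel M)).comap (rename (bdPerm σ) : _ →ₐ[ℚ] _) := by
  rw [Ideal.span_le]
  rintro p ((⟨S, T, h, rfl⟩ | ⟨S, T, h1, h2, h3, h4, rfl⟩) |
    ⟨i, j, k, l, hij, hik, hil, hjk, hjl, hkl, rfl⟩)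
  · refine Ideal.subset_span (Or.inl (Or.inl ⟨bdPerm σ S, bdPerm σ T, ?_, ?_⟩))
    · rw [bdPerm_val, bdPerm_val, h, map_compl']
    · rw [map_sub, rename_X, rename_X]
  · refine Ideal.subset_span (Or.inl (Or.inr ⟨bdPerm σ S, bdPerm σ T, ?_, ?_, ?_, ?_, ?_⟩))
    · rwa [bdPerm_val, bdPerm_val, Finset.map_subset_map]
    · rwa [bdPerm_val, bdPerm_val, Finset.map_subset_map]
    · rwa [bdPerm_val, bdPerm_val, map_compl', Finset.map_subset_map]
    · rwa [bdPerm_val, bdPerm_val, map_compl', Finset.map_subset_map]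
    · rw [map_mul, rename_X, rename_X]
  · refine Ideal.subset_span (Or.inr ⟨σ i, σ j, σ k, σ l, ?_, ?_, ?_, ?_, ?_, ?_, ?_⟩)
    · exact fun h => hij (σ.injective h)
    · exact fun h => hik (σ.injective h)
    · exact fun h => hil (σ.injective h)
    · exact fun h => hjk (σ.injective h)
    · exact fun h => hjl (σ.injective h)
    · exact fun h => hkl (σ.injective h)
    · rw [map_sub, sum_bd, sum_bd]

/-- The action of a permutation of the marked points on the cohomology ring: `D_S ↦ D_{σ S}`. -/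
noncomputable def keelMap (σ : Equiv.Perm M) : Keel M →ₐ[ℚ] Keel M :=
  Ideal.quotientMapₐ _ (rename (bdPerm σ)) (keel_le σ)

end Keel

/-- The characteristic polynomial `P_n(m, 1)` of the total cohomology of `M̄_{0,n}`:
`(1 / n!) ∑ σ, trace(σ) m ^ (number of cycles of σ)`, `σ` in the symmetric group on the `n` marked
points. -/
noncomputable def P (n : ℕ) : Polynomial ℚ :=
  Polynomial.C ((n.factorial : ℚ)⁻¹) * ∑ σ : Equiv.Perm (Fin n),
    Polynomial.C (LinearMap.trace ℚ (Keel (Fin n)) (keelMap σ).toLinearMap) * Polynomial.X ^ cyc σ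

/-- The characteristic polynomial `Q_n(m, 1)` of the total cohomology of `M̄_{0,n+1}` as a
representation of the symmetric group `S_n` fixing the last marked point (`none`). -/
noncomputable def Q (n : ℕ) : Polynomial ℚ :=
  Polynomial.C ((n.factorial : ℚ)⁻¹) * ∑ σ : Equiv.Perm (Fin n),
    Polynomial.C (LinearMap.trace ℚ (Keel (Option (Fin n))) (keelMap σ.optionCongr).toLinearMap) *
      Polynomial.X ^ cyc σ

end Pool.Agent.K7.H68.MO
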