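import Pool.Agent.K7.H68.MO.Defs

set_option autoImplicit false
set_option linter.unusedSectionVars false

/-! Basic facts on `kids`, `cnt`, `Normal`. -/

open Finset

namespace Pool.Agent.K7.H68.MO

variable {α β : Type} [DecidableEq α] [DecidableEq β]

lemma mem_kids {N : Finset (Finset α)} {v w : Finset α} :
    w ∈ kids N v ↔ w ∈ N ∧ w ⊂ v ∧ ∀ u ∈ N, u ⊂ v → ¬ w ⊂ u := by
  simp [kids]

lemma kids_congr {N N' : Finset (Finset α)} {v : Finset α} (h : ∀ w, w ⊂ v → (w ∈ N ↔ w ∈ N')) :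
    kids N v = kids N' v := by
  ext w
  rw [mem_kids, mem_kids]
  constructor
  · rintro ⟨h1, h2, h3⟩
    exact ⟨(h w h2).1 h1, h2, fun u hu hv => h3 u ((h u hv).2 hu) hv⟩
  · rintro ⟨h1, h2, h3⟩
    exact ⟨(h w h2).2 h1, h2, fun u hu hv => h3 u ((h u hv).1 hu) hv⟩

lemma cnt_congr {N N' : Finset (Finset α)} {v : Finset α} (h : ∀ w, w ⊂ v → (w ∈ N ↔ w ∈ N')) :
    cnt N v = cnt N' v := by
  unfold cnt
  rw [kids_congr h]

/-- the embedding of finite sets given by an embedding -/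
def mp (f : β ↪ α) : Finset β ↪ Finset α := ⟨Finset.map f, Finset.map_injective f⟩

@[simp] lemma mp_apply (f : β ↪ α) (S : Finset β) : mp f S = S.map f := rfl

lemma ssubset_map_iff {f : β ↪ α} {S : Finset β} {T : Finset α} :
    T ⊂ S.map f ↔ ∃ U, U ⊂ S ∧ T = U.map f := by
  constructor
  · intro h
    obtain ⟨U, hU, rfl⟩ := Finset.subset_map_iff.1 h.1
    exact ⟨U, ⟨hU, fun h' => h.2 (Finset.map_subset_map.2 h')⟩, rfl⟩
  · rintro ⟨U, hU, rfl⟩
    exact ⟨Finset.map_subset_map.2 hU.1, fun h => hU.2 (Finset.map_subset_map.1 h)⟩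

lemma map_ssubset_map' {f : β ↪ α} {S T : Finset β} : S.map f ⊂ T.map f ↔ S ⊂ T :=
  ⟨fun h => ⟨Finset.map_subset_map.1 h.1, fun h' => h.2 (Finset.map_subset_map.2 h')⟩,
   fun h => ⟨Finset.map_subset_map.2 h.1, fun h' => h.2 (Finset.map_subset_map.1 h')⟩⟩

lemma kids_map (f : β ↪ α) (N : Finset (Finset β)) (v : Finset β) :
    kids (N.map (mp f)) (v.map f) = (kids N v).map (mp f) := by
  ext w
  simp only [mem_kids, Finset.mem_map, mp_apply]
  constructor
  · rintro ⟨⟨w', hw', rfl⟩, h2, h3⟩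
    refine ⟨w', ⟨hw', map_ssubset_map'.1 h2, fun u hu hv hwu => ?_⟩, rfl⟩
    exact h3 _ ⟨u, hu, rfl⟩ (map_ssubset_map'.2 hv) (map_ssubset_map'.2 hwu)
  · rintro ⟨w', ⟨h1, h2, h3⟩, rfl⟩
    refine ⟨⟨w', h1, rfl⟩, map_ssubset_map'.2 h2, ?_⟩
    rintro _ ⟨u, hu, rfl⟩ hv hwu
    exact h3 u hu (map_ssubset_map'.1 hv) (map_ssubset_map'.1 hwu)

lemma cnt_map (f : β ↪ α) (N : Finset (Finset β)) (v : Finset β) :
    cnt (N.map (mp f)) (v.map f) = cnt N v := by
  unfold cnt
  rw [kids_map, card_map]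
  congr 1
  rw [Finset.filter_map, card_map]
  congr 1
  ext a
  simp

lemma cross_map {f : β ↪ α} {S T : Finset β} : Cross (S.map f) (T.map f) ↔ Cross S T := by
  unfold Cross
  rw [Finset.map_subset_map, Finset.map_subset_map, Finset.disjoint_map]

/-- transport of exponents -/
noncomputable def tr (f : β ↪ α) (e : Finset β →₀ ℕ) : Finset α →₀ ℕ := e.embDomain (mp f)

@[simp] lemma tr_map (f : β ↪ α) (e : Finset β →₀ ℕ) (S : Finset β) : tr f e (S.map f) = e S :=
  Finsupp.embDomain_apply_self (mp f) e S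

lemma tr_support (f : β ↪ α) (e : Finset β →₀ ℕ) : (tr f e).support = e.support.map (mp f) := by
  classical
  exact Finsupp.support_embDomain _ _

lemma normal_tr (f : β ↪ α) (A : Finset β) (e : Finset β →₀ ℕ) :
    Normal (A.map f) (tr f e) ↔ Normal A e := by
  constructor
  · intro h
    have key : ∀ S ∈ e.support, S.map f ∈ (tr f e).support := fun S hS => by
      rw [tr_support]; exact Finset.mem_map_of_mem _ hS
    refine ⟨fun S hS => Finset.map_subset_map.1 (h.sub _ (key S hS)),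
      fun S hS T hT => fun hc => h.lam _ (key S hS) _ (key T hT) (cross_map.2 hc), fun S hS => ?_⟩
    have := h.le _ (key S hS)
    rwa [tr_map, tr_support, cnt_map] at this
  · intro h
    have key : ∀ S ∈ (tr f e).support, ∃ S' ∈ e.support, S = S'.map f := fun S hS => by
      rw [tr_support, Finset.mem_map] at hS
      obtain ⟨S', h1, h2⟩ := hS
      exact ⟨S', h1, h2.symm⟩
    refine ⟨fun S hS => ?_, fun S hS T hT => ?_, fun S hS => ?_⟩
    · obtain ⟨S', h1, rfl⟩ := key S hS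
      exact Finset.map_subset_map.2 (h.sub _ h1)
    · obtain ⟨S', h1, rfl⟩ := key S hS
      obtain ⟨T', h2, rfl⟩ := key T hT
      rw [cross_map]
      exact h.lam _ h1 _ h2
    · obtain ⟨S', h1, rfl⟩ := key S hS
      rw [tr_map, tr_support, cnt_map]
      exact h.le _ h1

/-! ### cardinalities -/

/-- no two sets of the family cross -/
def Lam (N : Finset (Finset α)) : Prop := ∀ S ∈ N, ∀ T ∈ N, ¬ Cross S T

lemma Lam.disj {N : Finset (Finset α)} (h : Lam N) {v w w' : Finset α} (hw : w ∈ kids N v)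
    (hw' : w' ∈ kids N v) (hne : w ≠ w') : Disjoint w w' := by
  rw [mem_kids] at hw hw'
  by_contra hd
  have := h w hw.1 w' hw'.1
  unfold Cross at this
  by_cases h1 : w ⊆ w'
  · exact hw.2.2 w' hw'.1 hw'.2.1 (h1.ssubset_of_ne hne)
  · by_cases h2 : w' ⊆ w
    · exact hw'.2.2 w hw.1 hw.2.1 (h2.ssubset_of_ne (Ne.symm hne))
    · exact this ⟨h1, h2, hd⟩

lemma sum_kids {N : Finset (Finset α)} (h : Lam N) (v : Finset α) :
    ∑ w ∈ kids N v, #w + #{a ∈ v | ∀ w ∈ kids N v, a ∉ w} = #v := by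
  have h1 : ((kids N v).biUnion id).card = ∑ w ∈ kids N v, #w :=
    Finset.card_biUnion fun w hw w' hw' hne => h.disj hw hw' hne
  have h2 : {a ∈ v | ¬ ∀ w ∈ kids N v, a ∉ w} = (kids N v).biUnion id := by
    ext a
    simp only [mem_filter, not_forall, not_not, mem_biUnion, id]
    constructor
    · rintro ⟨_, w, hw, ha⟩
      exact ⟨w, hw, ha⟩
    · rintro ⟨w, hw, ha⟩
      exact ⟨(mem_kids.1 hw).2.1.1 ha, w, hw, ha⟩
  rw [← h1, ← h2, add_comm]
  exact Finset.card_filter_add_card_filter_not _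

lemma cnt_le {N : Finset (Finset α)} (h : Lam N) (h0 : ∅ ∉ N) (v : Finset α) : cnt N v ≤ #v := by
  rw [← sum_kids h v]
  unfold cnt
  refine Nat.add_le_add_right ?_ _
  rw [Finset.card_eq_sum_ones]
  refine Finset.sum_le_sum fun w hw => ?_
  rw [Nat.one_le_iff_ne_zero, Ne, card_eq_zero]
  rintro rfl
  exact h0 (mem_kids.1 hw).1

lemma Normal.zero_notMem {A : Finset α} {e : Finset α →₀ ℕ} (h : Normal A e) : ∅ ∉ e.support := by
  intro h0
  have := h.le _ h0
  have h1 : cnt e.support (∅ : Finset α) = 0 := by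
    unfold cnt
    rw [Nat.add_eq_zero_iff, card_eq_zero, card_eq_zero]
    constructor
    · ext w
      simp [mem_kids]
    · simp
  omega

lemma Normal.three {A : Finset α} {e : Finset α →₀ ℕ} (h : Normal A e) {S : Finset α}
    (hS : S ∈ e.support) : 3 ≤ #S := by
  have h1 := h.le S hS
  have h2 := cnt_le h.lam h.zero_notMem S
  have h3 : e S ≠ 0 := Finsupp.mem_support_iff.1 hS
  omega

lemma Normal.bound {A : Finset α} {e : Finset α →₀ ℕ} (h : Normal A e) (S : Finset α) :
    e S ≤ #A := by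
  by_cases hS : S ∈ e.support
  · have h1 := h.le S hS
    have h2 := cnt_le h.lam h.zero_notMem S
    have h3 := Finset.card_le_card (h.sub S hS)
    omega
  · rw [Finsupp.notMem_support_iff.1 hS]
    exact Nat.zero_le _

lemma finite_normal (A : Finset α) : {e : Finset α →₀ ℕ | Normal A e}.Finite := by
  classical
  have : {e : Finset α →₀ ℕ | Normal A e} ⊆
      ((A.powerset.finsupp fun _ => Finset.range (#A + 1) : Finset (Finset α →₀ ℕ)) :
        Set (Finset α →₀ ℕ)) := by
    intro e he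
    have he : Normal A e := he
    rw [Finset.mem_coe, Finset.mem_finsupp_iff]
    refine ⟨fun S hS => Finset.mem_powerset.2 (he.sub S hS), fun S _ => ?_⟩
    rw [Finset.mem_range]
    exact Nat.lt_succ_of_le (he.bound S)
  exact (Finset.finite_toSet _).subset this

instance (A : Finset α) : Finite {e : Finset α →₀ ℕ // Normal A e} := finite_normal A

end Pool.Agent.K7.H68.MO
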