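import Pool.Agent.K7.H68.MO.Defs

set_option autoImplicit false

/-!
# Job 1: the normal monomials span `D A`
-/

open Finset MvPolynomial

namespace Pool.Agent.K7.H68.MO

namespace Span

variable {α : Type} [DecidableEq α]

theorem x_eq_zero (A : Finset α) {S : Finset α} (h : ¬ S ⊆ A ∨ S.card < 2) : x A S = 0 := by
  unfold x
  rw [Ideal.Quotient.eq_zero_iff_mem]
  exact Ideal.subset_span (Or.inl (Or.inl ⟨S, h, rfl⟩))

theorem x_mul_x (A : Finset α) {S T : Finset α} (h : Cross S T) : x A S * x A T = 0 := by
  unfold x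
  rw [← map_mul, Ideal.Quotient.eq_zero_iff_mem]
  exact Ideal.subset_span (Or.inl (Or.inr ⟨S, T, h, rfl⟩))

theorem lin (A : Finset α) {i j : α} (hi : i ∈ A) (hj : j ∈ A) (hij : i ≠ j) :
    ∑ S ∈ A.powerset with i ∈ S ∧ j ∈ S, x A S = 0 := by
  unfold x
  rw [← map_sum, Ideal.Quotient.eq_zero_iff_mem]
  exact Ideal.subset_span (Or.inr ⟨i, hi, j, hj, hij, rfl⟩)

theorem mon_add (A : Finset α) (e f : Finset α →₀ ℕ) : mon A (e + f) = mon A e * mon A f := by
  unfold mon
  rw [← map_mul, monomial_mul, one_mul]

theorem mon_zero (A : Finset α) : mon A 0 = 1 := by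
  unfold mon
  rw [show monomial (0 : Finset α →₀ ℕ) (1 : ℚ) = 1 from rfl, map_one]

theorem mon_single (A : Finset α) (S : Finset α) (n : ℕ) : mon A (Finsupp.single S n) = x A S ^ n := by
  unfold mon x
  rw [← map_pow, X_pow_eq_monomial]

theorem mon_sum (A : Finset α) {ι : Type} (s : Finset ι) (f : ι → (Finset α →₀ ℕ)) :
    mon A (∑ i ∈ s, f i) = ∏ i ∈ s, mon A (f i) := by
  classical
  induction s using Finset.induction_on with
  | empty => simp [mon_zero]
  | insert a s ha ih => rw [sum_insert ha, prod_insert ha, mon_add, ih]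

/-- the sum of the `x U` over `U ⊇ B` -/
noncomputable def h (A B : Finset α) : D A := ∑ U ∈ A.powerset with B ⊆ U, x A U

theorem h_eq {A B : Finset α} (hB : B ⊆ A) : h A B = x A B + H A B := by
  unfold h H
  rw [← Finset.sum_insert (s := {U ∈ A.powerset | B ⊂ U}) (a := B)]
  · apply Finset.sum_congr _ (fun _ _ => rfl)
    ext U
    simp only [mem_filter, mem_powerset, mem_insert]
    constructor
    · rintro ⟨h1, h2⟩
      by_cases hUB : U = B
      · exact Or.inl hUB
      · exact Or.inr ⟨h1, h2.ssubset_of_ne (Ne.symm hUB)⟩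
    · rintro (h1 | h1)
      · subst h1; exact ⟨hB, subset_rfl⟩
      · exact ⟨h1.1, h1.2.subset⟩
  · simp

/-- the product of the `x P` over the members of the family with at least two elements -/
noncomputable def mP (A : Finset α) (P : Finset (Finset α)) : D A := ∏ Q ∈ P with 2 ≤ Q.card, x A Q

theorem x_mul_h {A B T : Finset α} {i : α} (hiB : i ∈ B) (hiT : i ∈ T) (hBT : ¬ B ⊆ T) :
    x A T * h A B = x A T * h A (B ∪ T) := by
  unfold h
  rw [Finset.mul_sum, Finset.mul_sum]
  symm
  apply Finset.sum_subset
  · intro U hU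
    simp only [mem_filter, mem_powerset] at hU ⊢
    exact ⟨hU.1, subset_union_left.trans hU.2⟩
  · intro U hU hU2
    simp only [mem_filter, mem_powerset, not_and] at hU hU2
    apply x_mul_x
    refine ⟨?_, ?_, ?_⟩
    · intro h1
      exact hU2 hU.1 (union_subset hU.2 h1)
    · intro h1
      exact hBT (hU.2.trans h1)
    · intro h1
      exact (Finset.disjoint_left.mp h1) hiT (hU.2 hiB)

theorem x_mul_h_pow {A B T : Finset α} {i : α} (hiB : i ∈ B) (hiT : i ∈ T) (hBT : ¬ B ⊆ T) (n : ℕ) :
    x A T * h A B ^ n = x A T * h A (B ∪ T) ^ n := by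
  induction n with
  | zero => simp
  | succ n ih =>
    rw [pow_succ, pow_succ, ← mul_assoc, ih, mul_right_comm, x_mul_h hiB hiT hBT]
    ring

/-- Lemma R. -/
theorem lemR (A : Finset α) : ∀ (k : ℕ) (P : Finset (Finset α)), P.card = k → 2 ≤ k →
    (∀ Q ∈ P, Q.Nonempty) → (∀ Q ∈ P, ∀ R ∈ P, Q ≠ R → Disjoint Q R) → (∀ Q ∈ P, Q ⊆ A) →
    mP A P * h A (P.biUnion id) ^ (k - 1) = 0 := by
  intro k
  induction k using Nat.strong_induction_on with
  | _ k ih =>
    intro P hPk hk hne hdis hsub
    obtain ⟨P1, hP1, P2, hP2, h12⟩ := Finset.one_lt_card.mp (show 1 < P.card by omega)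
    obtain ⟨i, hi⟩ := hne P1 hP1
    obtain ⟨j, hj⟩ := hne P2 hP2
    have hij : i ≠ j := by
      rintro rfl
      exact (Finset.disjoint_left.mp (hdis P1 hP1 P2 hP2 h12)) hi hj
    set B := P.biUnion id with hB
    have hmemB : ∀ a, a ∈ B ↔ ∃ Q ∈ P, a ∈ Q := by intro a; simp [hB]
    have hiB : i ∈ B := (hmemB i).2 ⟨P1, hP1, hi⟩
    have hjB : j ∈ B := (hmemB j).2 ⟨P2, hP2, hj⟩
    have hBA : B ⊆ A := by
      intro a ha
      obtain ⟨Q, hQ, haQ⟩ := (hmemB a).1 ha
      exact hsub Q hQ haQ
    -- the linear relation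
    have hlin : h A B = - ∑ T ∈ A.powerset with (i ∈ T ∧ j ∈ T) ∧ ¬ B ⊆ T, x A T := by
      rw [eq_neg_iff_add_eq_zero, ← lin A (hBA hiB) (hBA hjB) hij]
      unfold h
      rw [← Finset.sum_filter_add_sum_filter_not (s := {S ∈ A.powerset | i ∈ S ∧ j ∈ S})
        (p := fun U => B ⊆ U)]
      congr 1
      · apply Finset.sum_congr _ (fun _ _ => rfl)
        ext U
        simp only [mem_filter, mem_powerset]
        constructor
        · rintro ⟨h1, h2⟩
          exact ⟨⟨h1, h2 hiB, h2 hjB⟩, h2⟩
        · rintro ⟨⟨h1, _, _⟩, h2⟩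
          exact ⟨h1, h2⟩
      · apply Finset.sum_congr _ (fun _ _ => rfl)
        ext U
        simp only [mem_filter, mem_powerset]
        tauto
    have hsplit : mP A P * h A B ^ (k - 1) =
        - ∑ T ∈ A.powerset with (i ∈ T ∧ j ∈ T) ∧ ¬ B ⊆ T, mP A P * (x A T * h A B ^ (k - 2)) := by
      have : h A B ^ (k - 1) = h A B * h A B ^ (k - 2) := by
        rw [← pow_succ']; congr 1; omega
      have h' : ∑ T ∈ A.powerset with (i ∈ T ∧ j ∈ T) ∧ ¬ B ⊆ T, x A T = - h A B := by
        rw [hlin, neg_neg]
      rw [this, ← Finset.mul_sum, ← Finset.sum_mul, h']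
      ring
    rw [hsplit, neg_eq_zero]
    apply Finset.sum_eq_zero
    intro T hT
    simp only [mem_filter, mem_powerset] at hT
    obtain ⟨hTA, ⟨hiT, hjT⟩, hBT⟩ := hT
    by_cases hcr : ∃ Q ∈ P, 2 ≤ Q.card ∧ Cross Q T
    · obtain ⟨Q, hQ, hQ2, hQT⟩ := hcr
      have hmem : Q ∈ {Q ∈ P | 2 ≤ Q.card} := by simp [hQ, hQ2]
      unfold mP
      rw [← Finset.mul_prod_erase _ _ hmem]
      have := x_mul_x A hQT
      calc x A Q * (∏ x_1 ∈ ({Q ∈ P | 2 ≤ Q.card} : Finset (Finset α)).erase Q, x A x_1) *
            (x A T * h A B ^ (k - 2))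
          = (x A Q * x A T) * ((∏ x_1 ∈ ({Q ∈ P | 2 ≤ Q.card} : Finset (Finset α)).erase Q, x A x_1) *
            h A B ^ (k - 2)) := by ring
        _ = 0 := by rw [this, zero_mul]
    · push Not at hcr
      -- every member is inside T or disjoint from T
      have hdich : ∀ Q ∈ P, Q ⊆ T ∨ Disjoint Q T := by
        intro Q hQ
        by_cases hc : 2 ≤ Q.card
        · have h1 := hcr Q hQ hc
          unfold Cross at h1
          by_contra hcon
          push Not at hcon
          have hTQ : T ⊆ Q := by
            by_contra h2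
            exact h1 ⟨hcon.1, h2, hcon.2⟩
          have e1 : Q = P1 := by
            by_contra h2
            exact (Finset.disjoint_left.mp (hdis Q hQ P1 hP1 h2)) (hTQ hiT) hi
          have e2 : Q = P2 := by
            by_contra h2
            exact (Finset.disjoint_left.mp (hdis Q hQ P2 hP2 h2)) (hTQ hjT) hj
          exact h12 (e1.symm.trans e2)
        · have h1 : Q.card = 1 := by
            have := (hne Q hQ).card_pos
            omega
          obtain ⟨a, rfl⟩ := Finset.card_eq_one.mp h1
          by_cases ha : a ∈ T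
          · left; simpa using ha
          · right; simpa using ha
      set P' : Finset (Finset α) := insert T {Q ∈ P | Disjoint Q T} with hP'
      have hTn : T ∉ ({Q ∈ P | Disjoint Q T} : Finset (Finset α)) := by
        simp only [mem_filter, not_and]
        intro _ hd
        exact (Finset.disjoint_left.mp hd) hiT hiT
      have hcard' : P'.card = #{Q ∈ P | Disjoint Q T} + 1 := by
        rw [hP', Finset.card_insert_of_notMem hTn]
      have hle : #{Q ∈ P | Disjoint Q T} + 2 ≤ k := by
        have h3 : ({Q ∈ P | Disjoint Q T} : Finset (Finset α)) ⊆ (P.erase P1).erase P2 := by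
          intro Q hQ
          simp only [mem_filter] at hQ
          simp only [mem_erase]
          refine ⟨?_, ?_, hQ.1⟩
          · rintro rfl
            exact (Finset.disjoint_left.mp hQ.2) hj hjT
          · rintro rfl
            exact (Finset.disjoint_left.mp hQ.2) hi hiT
        have h4 := Finset.card_le_card h3
        rw [Finset.card_erase_of_mem (mem_erase.mpr ⟨h12.symm, hP2⟩), Finset.card_erase_of_mem hP1] at h4
        omega
      have hge : 1 ≤ #{Q ∈ P | Disjoint Q T} := by
        rw [Nat.one_le_iff_ne_zero, Finset.card_ne_zero]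
        obtain ⟨b, hbB, hbT⟩ := Finset.not_subset.mp hBT
        obtain ⟨Q, hQ, hbQ⟩ := (hmemB b).1 hbB
        refine ⟨Q, ?_⟩
        simp only [mem_filter]
        refine ⟨hQ, ?_⟩
        rcases hdich Q hQ with h5 | h5
        · exact absurd (h5 hbQ) hbT
        · exact h5
      have hT2 : 2 ≤ T.card := Finset.one_lt_card.mpr ⟨i, hiT, j, hjT, hij⟩
      have hBU : P'.biUnion id = B ∪ T := by
        ext a
        simp only [hP', mem_biUnion, mem_insert, mem_filter, id, mem_union, hmemB]
        constructor
        · rintro ⟨Q, (rfl | ⟨hQ, _⟩), haQ⟩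
          · right; exact haQ
          · left; exact ⟨Q, hQ, haQ⟩
        · rintro (⟨Q, hQ, haQ⟩ | haT)
          · rcases hdich Q hQ with h5 | h5
            · exact ⟨T, Or.inl rfl, h5 haQ⟩
            · exact ⟨Q, Or.inr ⟨hQ, h5⟩, haQ⟩
          · exact ⟨T, Or.inl rfl, haT⟩
      have hIH := ih P'.card (by omega) P' rfl (by omega)
        (by
          intro Q hQ
          simp only [hP', mem_insert, mem_filter] at hQ
          rcases hQ with rfl | hQ
          · exact ⟨i, hiT⟩
          · exact hne Q hQ.1)
        (by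
          intro Q hQ R hR hQR
          simp only [hP', mem_insert, mem_filter] at hQ hR
          rcases hQ with rfl | hQ
          · rcases hR with rfl | hR
            · exact absurd rfl hQR
            · exact hR.2.symm
          · rcases hR with rfl | hR
            · exact hQ.2
            · exact hdis Q hQ.1 R hR.1 hQR)
        (by
          intro Q hQ
          simp only [hP', mem_insert, mem_filter] at hQ
          rcases hQ with rfl | hQ
          · exact hTA
          · exact hsub Q hQ.1)
      rw [hBU] at hIH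
      rw [x_mul_h_pow hiB hiT hBT]
      -- mP P * x T is a multiple of mP P'
      have hmul : mP A P * x A T = (∏ Q ∈ ({Q ∈ P | 2 ≤ Q.card} : Finset (Finset α)) with ¬ Disjoint Q T,
          x A Q) * mP A P' := by
        unfold mP
        rw [← Finset.prod_filter_mul_prod_filter_not (s := ({Q ∈ P | 2 ≤ Q.card} : Finset (Finset α)))
          (p := fun Q => Disjoint Q T)]
        have h6 : ({Q ∈ P' | 2 ≤ Q.card} : Finset (Finset α)) =
            insert T {Q ∈ ({Q ∈ P | 2 ≤ Q.card} : Finset (Finset α)) | Disjoint Q T} := by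
          ext Q
          simp only [hP', mem_filter, mem_insert]
          constructor
          · rintro ⟨rfl | ⟨h7, h8⟩, h9⟩
            · exact Or.inl rfl
            · exact Or.inr ⟨⟨h7, h9⟩, h8⟩
          · rintro (rfl | ⟨⟨h7, h8⟩, h9⟩)
            · exact ⟨Or.inl rfl, hT2⟩
            · exact ⟨Or.inr ⟨h7, h9⟩, h8⟩
        rw [h6, Finset.prod_insert]
        · ring
        · simp only [mem_filter, not_and]
          intro _ hd
          exact (Finset.disjoint_left.mp hd) hiT hiT
      have hpow : h A (B ∪ T) ^ (k - 2) = h A (B ∪ T) ^ (P'.card - 1) * h A (B ∪ T) ^ (k - 2 - (P'.card - 1)) := by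
        rw [← pow_add]; congr 1; omega
      rw [← mul_assoc, hmul, hpow]
      calc _ = (∏ Q ∈ ({Q ∈ P | 2 ≤ Q.card} : Finset (Finset α)) with ¬ Disjoint Q T, x A Q) *
            h A (B ∪ T) ^ (k - 2 - (P'.card - 1)) * (mP A P' * h A (B ∪ T) ^ (P'.card - 1)) := by ring
        _ = 0 := by rw [hIH, mul_zero]

/-! ### Filtration by `mu` -/

/-- the weight -/
def mu (A : Finset α) (e : Finset α →₀ ℕ) : ℕ := e.sum fun S n => n * (A.card - S.card)

theorem mu_add (A : Finset α) (e f : Finset α →₀ ℕ) : mu A (e + f) = mu A e + mu A f := by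
  unfold mu
  rw [Finsupp.sum_add_index']
  · simp
  · intros; ring

theorem mu_single (A : Finset α) (S : Finset α) (n : ℕ) :
    mu A (Finsupp.single S n) = n * (A.card - S.card) := by
  unfold mu
  rw [Finsupp.sum_single_index]
  simp

/-- span of the monomials of weight less than `k` -/
noncomputable def F (A : Finset α) (k : ℕ) : Submodule ℚ (D A) :=
  Submodule.span ℚ {y | ∃ e, mu A e < k ∧ y = mon A e}

theorem mon_mem {A : Finset α} {k : ℕ} {e : Finset α →₀ ℕ} (he : mu A e < k) : mon A e ∈ F A k :=
  Submodule.subset_span ⟨e, he, rfl⟩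

theorem F_mono {A : Finset α} {k l : ℕ} (hkl : k ≤ l) : F A k ≤ F A l := by
  apply Submodule.span_mono
  rintro y ⟨e, he, rfl⟩
  exact ⟨e, by omega, rfl⟩

/-- `F (a) * F (b+1) ≤ F (a+b)` -/
theorem F_mul {A : Finset α} {a b : ℕ} {y z : D A} (hy : y ∈ F A a) (hz : z ∈ F A (b + 1)) :
    y * z ∈ F A (a + b) := by
  have h1 : F A a * F A (b + 1) ≤ F A (a + b) := by
    unfold F
    rw [Submodule.span_mul_span]
    apply Submodule.span_le.mpr
    rintro _ ⟨_, ⟨e, he, rfl⟩, _, ⟨f, hf, rfl⟩, rfl⟩
    apply Submodule.subset_span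
    refine ⟨e + f, ?_, ?_⟩
    · rw [mu_add]; omega
    · rw [mon_add]
  exact h1 (Submodule.mul_mem_mul hy hz)

theorem x_mem (A B : Finset α) : x A B ∈ F A (A.card - B.card + 1) := by
  have h1 := mon_mem (A := A) (k := A.card - B.card + 1) (e := Finsupp.single B 1)
    (by rw [mu_single]; omega)
  rwa [mon_single, pow_one] at h1

theorem H_mem (A B : Finset α) : H A B ∈ F A (A.card - B.card) := by
  unfold H
  apply Submodule.sum_mem
  intro U hU
  simp only [mem_filter, mem_powerset] at hU
  have h1 := Finset.card_lt_card hU.2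
  have h2 := Finset.card_le_card hU.1
  exact F_mono (by omega) (x_mem A U)

theorem x_pow_mem (A B : Finset α) (d : ℕ) : x A B ^ d ∈ F A (d * (A.card - B.card) + 1) := by
  have h1 := mon_mem (A := A) (k := d * (A.card - B.card) + 1) (e := Finsupp.single B d)
    (by rw [mu_single]; omega)
  rwa [mon_single] at h1

theorem diff_mem (A B : Finset α) (d : ℕ) :
    (x A B + H A B) ^ d - x A B ^ d ∈ F A (d * (A.card - B.card)) := by
  induction d with
  | zero => simp
  | succ d ih =>
    have h1 : (x A B + H A B) ^ (d + 1) - x A B ^ (d + 1) =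
        ((x A B + H A B) ^ d - x A B ^ d) * (x A B + H A B) + H A B * x A B ^ d := by ring
    rw [h1]
    apply Submodule.add_mem
    · have h2 : x A B + H A B ∈ F A ((A.card - B.card) + 1) :=
        Submodule.add_mem _ (x_mem A B) (F_mono (by omega) (H_mem A B))
      have h3 := F_mul ih h2
      rwa [show d * (A.card - B.card) + (A.card - B.card) = (d + 1) * (A.card - B.card) by ring] at h3
    · have h3 := F_mul (H_mem A B) (x_pow_mem A B d)
      rwa [show (A.card - B.card) + d * (A.card - B.card) = (d + 1) * (A.card - B.card) by ring] at h3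

/-! ### The children of a set -/

section kids

variable {N : Finset (Finset α)} {B : Finset α}

theorem mem_kids {w : Finset α} : w ∈ kids N B ↔ w ∈ N ∧ w ⊂ B ∧ ∀ u ∈ N, u ⊂ B → ¬ w ⊂ u := by
  simp [kids]

/-- the family of the children -/
def fam (N : Finset (Finset α)) (B : Finset α) : Finset (Finset α) :=
  kids N B ∪ ({a ∈ B | ∀ w ∈ kids N B, a ∉ w} : Finset α).image (fun a => {a})

theorem fam_card : (fam N B).card = cnt N B := by
  unfold fam cnt
  rw [Finset.card_union_of_disjoint, Finset.card_image_of_injective _ Finset.singleton_injective]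
  rw [Finset.disjoint_left]
  intro w hw hw2
  simp only [mem_image, mem_filter] at hw2
  obtain ⟨a, ⟨_, h2⟩, rfl⟩ := hw2
  exact h2 _ hw (mem_singleton_self a)

theorem fam_biUnion : (fam N B).biUnion id = B := by
  ext a
  simp only [fam, mem_biUnion, mem_union, mem_image, mem_filter, id]
  constructor
  · rintro ⟨Q, hQ | ⟨b, ⟨hb, _⟩, rfl⟩, haQ⟩
    · exact (mem_kids.mp hQ).2.1.subset haQ
    · rw [mem_singleton] at haQ; subst haQ; exact hb
  · intro ha
    by_cases h1 : ∃ w ∈ kids N B, a ∈ w
    · obtain ⟨w, hw, haw⟩ := h1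
      exact ⟨w, Or.inl hw, haw⟩
    · push Not at h1
      exact ⟨{a}, Or.inr ⟨a, ⟨ha, h1⟩, rfl⟩, mem_singleton_self a⟩

theorem fam_disjoint (hlam : ∀ S ∈ N, ∀ T ∈ N, ¬ Cross S T) :
    ∀ Q ∈ fam N B, ∀ R ∈ fam N B, Q ≠ R → Disjoint Q R := by
  intro Q hQ R hR hQR
  simp only [fam, mem_union, mem_image, mem_filter] at hQ hR
  rcases hQ with hQ | ⟨a, ⟨_, ha⟩, rfl⟩
  · rcases hR with hR | ⟨b, ⟨_, hb⟩, rfl⟩
    · have h1 := mem_kids.mp hQ
      have h2 := mem_kids.mp hR
      by_contra hd
      apply hlam Q h1.1 R h2.1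
      refine ⟨?_, ?_, hd⟩
      · intro h3
        exact h1.2.2 R h2.1 h2.2.1 (h3.ssubset_of_ne hQR)
      · intro h3
        exact h2.2.2 Q h1.1 h1.2.1 (h3.ssubset_of_ne hQR.symm)
    · rw [Finset.disjoint_singleton_right]
      exact hb Q hQ
  · rcases hR with hR | ⟨b, _, rfl⟩
    · rw [Finset.disjoint_singleton_left]
      exact ha R hR
    · rw [Finset.disjoint_singleton_left, mem_singleton]
      rintro rfl
      exact hQR rfl

theorem cnt_ge (hB : 2 ≤ B.card) (h0 : ∀ S ∈ N, S.Nonempty) : 2 ≤ cnt N B := by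
  rw [← fam_card]
  by_contra hlt
  push Not at hlt
  have hne : (fam N B).Nonempty := by
    by_contra h1
    rw [Finset.not_nonempty_iff_eq_empty] at h1
    have h2 := fam_biUnion (N := N) (B := B)
    rw [h1] at h2
    simp at h2
    rw [← h2] at hB
    simp at hB
  have h1 : (fam N B).card = 1 := by
    have := hne.card_pos
    omega
  obtain ⟨Q, hQ⟩ := Finset.card_eq_one.mp h1
  have h2 := fam_biUnion (N := N) (B := B)
  rw [hQ, Finset.singleton_biUnion] at h2
  simp only [id] at h2
  subst h2
  have h3 : Q ∈ fam N Q := by rw [hQ]; exact mem_singleton_self Q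
  simp only [fam, mem_union, mem_image, mem_filter] at h3
  rcases h3 with h3 | ⟨a, _, h4⟩
  · exact absurd (mem_kids.mp h3).2.1 (by simp)
  · rw [← h4] at hB
    simp at hB

end kids

/-- Products of `x` over the children of at least two elements: the kids. -/
theorem mP_fam (A : Finset α) {N : Finset (Finset α)} {B : Finset α} (h2 : ∀ S ∈ N, 2 ≤ S.card) :
    mP A (fam N B) = ∏ w ∈ kids N B, x A w := by
  unfold mP
  apply Finset.prod_congr _ (fun _ _ => rfl)
  ext Q
  simp only [fam, mem_filter, mem_union, mem_image]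
  constructor
  · rintro ⟨hQ | ⟨a, _, rfl⟩, hc⟩
    · exact hQ
    · simp at hc
  · intro hQ
    exact ⟨Or.inl hQ, h2 Q (mem_kids.mp hQ).1⟩

theorem mon_dvd {A : Finset α} {e f : Finset α →₀ ℕ} (hfe : f ≤ e) : mon A e = mon A f * mon A (e - f) := by
  rw [← mon_add, add_tsub_cancel_of_le hfe]

/-- Every monomial is in the span. -/
theorem mon_span (A : Finset α) : ∀ (n : ℕ) (e : Finset α →₀ ℕ), mu A e = n →
    mon A e ∈ Submodule.span ℚ {y : D A | ∃ e, Normal A e ∧ y = mon A e} := by
  intro n
  induction n using Nat.strong_induction_on with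
  | _ n ih =>
    intro e hen
    set W := Submodule.span ℚ {y : D A | ∃ e, Normal A e ∧ y = mon A e} with hW
    have hF : F A n ≤ W := by
      unfold F
      apply Submodule.span_le.mpr
      rintro y ⟨f, hf, rfl⟩
      exact ih (mu A f) hf f rfl
    -- bad generators
    by_cases h1 : ∃ S ∈ e.support, ¬ S ⊆ A ∨ S.card < 2
    · obtain ⟨S, hS, hbad⟩ := h1
      have hle : Finsupp.single S 1 ≤ e := by
        rw [Finsupp.single_le_iff]
        exact Nat.one_le_iff_ne_zero.mpr (Finsupp.mem_support_iff.mp hS)
      rw [mon_dvd hle, mon_single, pow_one, x_eq_zero A hbad, zero_mul]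
      exact Submodule.zero_mem _
    push Not at h1
    by_cases h2 : ∃ S ∈ e.support, ∃ T ∈ e.support, Cross S T
    · obtain ⟨S, hS, T, hT, hcr⟩ := h2
      have hne : S ≠ T := by
        rintro rfl
        exact hcr.1 subset_rfl
      have hle : Finsupp.single S 1 + Finsupp.single T 1 ≤ e := by
        intro U
        rw [Finsupp.add_apply, Finsupp.single_apply, Finsupp.single_apply]
        have hS' := Finsupp.mem_support_iff.mp hS
        have hT' := Finsupp.mem_support_iff.mp hT
        by_cases hSU : S = U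
        · subst hSU
          rw [if_pos rfl, if_neg (Ne.symm hne)]
          omega
        · rw [if_neg hSU]
          by_cases hTU : T = U
          · subst hTU
            rw [if_pos rfl]
            omega
          · rw [if_neg hTU]
            omega
      rw [mon_dvd hle, mon_add, mon_single, mon_single, pow_one, pow_one, x_mul_x A hcr, zero_mul]
      exact Submodule.zero_mem _
    push Not at h2
    by_cases h3 : ∀ S ∈ e.support, e S + 2 ≤ cnt e.support S
    · exact Submodule.subset_span ⟨e, ⟨fun S hS => (h1 S hS).1, h2, h3⟩, rfl⟩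
    push Not at h3
    obtain ⟨B, hB, hlt⟩ := h3
    have hBA : B ⊆ A := (h1 B hB).1
    have hN : ∀ S ∈ e.support, S.Nonempty := fun S hS =>
      Finset.card_pos.mp (by have := (h1 S hS).2; omega)
    have hc2 : 2 ≤ cnt e.support B := cnt_ge (h1 B hB).2 hN
    set d := cnt e.support B - 1 with hd
    have hR := lemR A (cnt e.support B) (fam e.support B) fam_card hc2
      (by
        intro Q hQ
        simp only [fam, mem_union, mem_image, mem_filter] at hQ
        rcases hQ with hQ | ⟨a, _, rfl⟩
        · exact hN Q (mem_kids.mp hQ).1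
        · exact singleton_nonempty a)
      (fam_disjoint h2)
      (by
        intro Q hQ
        simp only [fam, mem_union, mem_image, mem_filter] at hQ
        rcases hQ with hQ | ⟨a, ⟨ha, _⟩, rfl⟩
        · exact (h1 Q (mem_kids.mp hQ).1).1
        · simpa using hBA ha)
    rw [fam_biUnion, ← hd, mP_fam A (fun S hS => (h1 S hS).2), h_eq hBA] at hR
    -- split the monomial
    set e0 : Finset α →₀ ℕ := Finsupp.single B d + ∑ w ∈ kids e.support B, Finsupp.single w 1 with he0
    have hle : e0 ≤ e := by
      intro U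
      rw [he0, Finsupp.add_apply, Finsupp.finset_sum_apply, Finsupp.single_apply]
      have hsum : ∑ w ∈ kids e.support B, (Finsupp.single w 1 : Finset α →₀ ℕ) U =
          if U ∈ kids e.support B then 1 else 0 := by
        simp only [Finsupp.single_apply]
        rw [Finset.sum_ite_eq']
      rw [hsum]
      by_cases hBU : B = U
      · subst hBU
        have : B ∉ kids e.support B := fun h => absurd (mem_kids.mp h).2.1 (by simp)
        rw [if_pos rfl, if_neg this]
        omega
      · rw [if_neg hBU]
        by_cases hU : U ∈ kids e.support B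
        · rw [if_pos hU]
          have := Finsupp.mem_support_iff.mp (mem_kids.mp hU).1
          omega
        · rw [if_neg hU]
          omega
    have hmon0 : mon A e0 = x A B ^ d * ∏ w ∈ kids e.support B, x A w := by
      rw [he0, mon_add, mon_single, mon_sum]
      congr 1
    have hmu0 : mu A e = d * (A.card - B.card) + mu A (∑ w ∈ kids e.support B, Finsupp.single w 1 + (e - e0)) := by
      conv_lhs => rw [← add_tsub_cancel_of_le hle]
      rw [mu_add, mu_add, he0, mu_add, mu_single]
      ring
    have hrest : (∏ w ∈ kids e.support B, x A w) * mon A (e - e0) =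
        mon A (∑ w ∈ kids e.support B, Finsupp.single w 1 + (e - e0)) := by
      rw [mon_add, mon_sum]
      congr 1
    have hfin : mon A e = - (((x A B + H A B) ^ d - x A B ^ d) *
        mon A (∑ w ∈ kids e.support B, Finsupp.single w 1 + (e - e0))) := by
      rw [mon_dvd hle, hmon0, ← hrest]
      have : (x A B + H A B) ^ d * ((∏ w ∈ kids e.support B, x A w) * mon A (e - e0)) = 0 := by
        calc _ = ((∏ w ∈ kids e.support B, x A w) * (x A B + H A B) ^ d) * mon A (e - e0) := by ring
          _ = 0 := by rw [hR, zero_mul]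
      calc _ = x A B ^ d * ((∏ w ∈ kids e.support B, x A w) * mon A (e - e0)) - 0 := by ring
        _ = x A B ^ d * ((∏ w ∈ kids e.support B, x A w) * mon A (e - e0)) -
            (x A B + H A B) ^ d * ((∏ w ∈ kids e.support B, x A w) * mon A (e - e0)) := by rw [this]
        _ = _ := by ring
    rw [hfin]
    apply Submodule.neg_mem
    apply hF
    rw [← hen, hmu0]
    apply F_mul (diff_mem A B d)
    apply mon_mem
    omega

end Span

/-- JOB 1: the normal monomials span `D A`. -/
theorem job1 : Job1 := by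
  intro α _ A
  rw [eq_top_iff]
  intro y _
  obtain ⟨p, rfl⟩ := Ideal.Quotient.mk_surjective y
  induction p using MvPolynomial.induction_on' with
  | monomial u a =>
    have h1 : (Ideal.Quotient.mk (Ideal.span (relD A))) (monomial u a) = a • mon A u := by
      unfold mon
      rw [← Ideal.Quotient.mkₐ_eq_mk ℚ, ← map_smul, smul_monomial, smul_eq_mul, mul_one]
    rw [h1]
    exact Submodule.smul_mem _ _ (Span.mon_span A _ u rfl)
  | add p q hp hq =>
    rw [map_add]
    exact Submodule.add_mem _ (hp trivial) (hq trivial)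

end Pool.Agent.K7.H68.MO
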