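import Pool.Agent.K7.H68.MO.Cut

set_option autoImplicit false
set_option linter.unusedSectionVars false

/-! Transport of configurations; components. -/

open Finset

namespace Pool.Agent.K7.H68.MO

variable {α β : Type} [DecidableEq α] [DecidableEq β]

lemma im_via (f : β ↪ α) (σ : Equiv.Perm β) (S : Finset β) :
    im (σ.viaEmbedding f) (S.map f) = (im σ S).map f := by
  ext y
  simp only [Finset.mem_map, Equiv.coe_toEmbedding]
  constructor
  · rintro ⟨_, ⟨x, hx, rfl⟩, rfl⟩
    exact ⟨σ x, ⟨x, hx, rfl⟩, (σ.viaEmbedding_apply f x).symm⟩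
  · rintro ⟨_, ⟨x, hx, rfl⟩, rfl⟩
    exact ⟨f x, ⟨x, hx, rfl⟩, σ.viaEmbedding_apply f x⟩

/-- transport -/
noncomputable def Phi (f : β ↪ α) (t : Tri β) : Tri α :=
  (t.1.viaEmbedding f, tr f t.2.1, Function.extend f t.2.2 0)

lemma Phi_inj (f : β ↪ α) : Function.Injective (Phi f) := by
  rintro ⟨σ, e, c⟩ ⟨σ', e', c'⟩ h
  simp only [Phi, Prod.mk.injEq] at h
  obtain ⟨h1, h2, h3⟩ := h
  have e1 : σ = σ' := by
    ext x
    have h4 := congrArg (fun s : Equiv.Perm α => s (f x)) h1
    simp only [Equiv.Perm.viaEmbedding_apply] at h4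
    exact f.injective h4
  have e2 : e = e' := by
    ext S
    have h4 := DFunLike.congr_fun h2 (S.map f)
    rwa [tr_map, tr_map] at h4
  have e3 : c = c' := by
    funext x
    have h4 := congrFun h3 (f x)
    rwa [f.injective.extend_apply, f.injective.extend_apply] at h4
  rw [e1, e2, e3]

lemma Phi_conf [Fintype β] (f : β ↪ α) {m : ℕ} {t : Tri β} (h : t ∈ CS univ m) :
    Phi f t ∈ CS (univ.map f) m := by
  obtain ⟨σ, e, c⟩ := t
  replace h : IsConf univ m σ e c := h
  have hr : ∀ x, x ∉ univ.map f → ¬ ∃ a, f a = x := by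
    rintro x hx ⟨a, rfl⟩
    exact hx (Finset.mem_map_of_mem _ (mem_univ a))
  refine ⟨fun x hx => ?_, ?_, ?_, fun x hx => ?_, fun x hx => ?_, fun x => ?_⟩
  · change σ.viaEmbedding f x = x
    exact σ.viaEmbedding_apply_of_notMem f x (hr x hx)
  · exact (normal_tr f univ e).2 h.nor
  · change Inv (σ.viaEmbedding f) (tr f e)
    apply inv_of_support
    intro S hS
    rw [tr_support, Finset.mem_map] at hS
    obtain ⟨T, hT, rfl⟩ := hS
    change tr f e (im (σ.viaEmbedding f) (T.map f)) = tr f e (T.map f)
    rw [im_via, tr_map, tr_map, h.inv]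
  · change Function.extend f c 0 x < m
    obtain ⟨a, -, rfl⟩ := Finset.mem_map.1 hx
    rw [f.injective.extend_apply]
    exact h.lt a (mem_univ a)
  · change Function.extend f c 0 x = 0
    rw [Function.extend_apply' _ _ _ (hr x hx)]
    rfl
  · change Function.extend f c 0 (σ.viaEmbedding f x) = Function.extend f c 0 x
    by_cases hx : ∃ a, f a = x
    · obtain ⟨a, rfl⟩ := hx
      rw [σ.viaEmbedding_apply, f.injective.extend_apply, f.injective.extend_apply, h.col]
    · rw [σ.viaEmbedding_apply_of_notMem f x hx]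

lemma Phi_surj [Fintype β] (f : β ↪ α) {m : ℕ} {t : Tri α} (h : t ∈ CS (univ.map f) m) :
    ∃ t' ∈ CS (univ : Finset β) m, Phi f t' = t := by
  obtain ⟨σ, e, c⟩ := t
  replace h : IsConf (univ.map f) m σ e c := h
  have h1 : ∀ x, ∃ y, f y = σ (f x) := by
    intro x
    have := (h.mem (f x)).2 (Finset.mem_map_of_mem _ (mem_univ x))
    obtain ⟨y, -, hy⟩ := Finset.mem_map.1 this
    exact ⟨y, hy⟩
  choose s hs using h1
  have hsi : Function.Injective s := by
    intro x y hxy
    apply f.injective
    apply σ.injective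
    rw [← hs, ← hs, hxy]
  let τ : Equiv.Perm β := Equiv.ofBijective s (Finite.injective_iff_bijective.1 hsi)
  have hτ : ∀ x, f (τ x) = σ (f x) := hs
  have hrange : (e.support : Set (Finset α)) ⊆ Set.range (mp f) := by
    intro S hS
    obtain ⟨T, -, rfl⟩ := Finset.subset_map_iff.1 (h.nor.sub S hS)
    exact ⟨T, rfl⟩
  let e' : Finset β →₀ ℕ := Finsupp.comapDomain (mp f) e (mp f).injective.injOn
  have he' : tr f e' = e := Finsupp.embDomain_comapDomain hrange
  have hr : ∀ x, x ∉ univ.map f → ¬ ∃ a, f a = x := by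
    rintro x hx ⟨a, rfl⟩
    exact hx (Finset.mem_map_of_mem _ (mem_univ a))
  have hvia : τ.viaEmbedding f = σ := by
    ext x
    by_cases hx : x ∈ univ.map f
    · obtain ⟨a, -, rfl⟩ := Finset.mem_map.1 hx
      rw [Equiv.Perm.viaEmbedding_apply, hτ]
    · rw [τ.viaEmbedding_apply_of_notMem f x (hr x hx), h.fix x hx]
  refine ⟨(τ, e', fun a => c (f a)), ⟨fun x hx => absurd (mem_univ x) hx, ?_, ?_, fun x _ => ?_,
    fun x hx => absurd (mem_univ x) hx, fun x => ?_⟩, ?_⟩
  · change Normal univ e'
    rw [← normal_tr f, he']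
    exact h.nor
  · change Inv τ e'
    intro S
    have h1 : tr f e' (im (τ.viaEmbedding f) (S.map f)) = tr f e' (S.map f) := by
      rw [hvia, he']; exact h.inv _
    rwa [im_via, tr_map, tr_map] at h1
  · exact h.lt _ (Finset.mem_map_of_mem _ (mem_univ x))
  · change c (f (τ x)) = c (f x)
    rw [hτ, h.col]
  · refine Prod.ext hvia (Prod.ext he' ?_)
    change Function.extend f (fun a => c (f a)) 0 = c
    funext x
    by_cases hx : x ∈ univ.map f
    · obtain ⟨a, -, rfl⟩ := Finset.mem_map.1 hx
      rw [f.injective.extend_apply]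
    · rw [Function.extend_apply' _ _ _ (hr x hx), h.zero x hx]
      rfl

lemma tree_iff [Fintype β] (f : β ↪ α) (e : Finset β →₀ ℕ) :
    IsTree (univ.map f) (tr f e) ↔ IsTree univ e := by
  unfold IsTree
  rw [card_map, tr_map]

/-- the number of configurations depends only on the cardinality -/
theorem card_CS [Fintype α] (A : Finset α) (m : ℕ) :
    (CS A m).ncard = (CS (univ : Finset (Fin #A)) m).ncard := by
  let f : Fin #A ↪ α := (A.equivFin.symm.toEmbedding).trans (Function.Embedding.subtype _)
  have hf : univ.map f = A := by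
    ext x
    simp only [Finset.mem_map, mem_univ, true_and]
    constructor
    · rintro ⟨i, rfl⟩
      exact (A.equivFin.symm i).2
    · intro hx
      exact ⟨A.equivFin ⟨x, hx⟩, by simp [f]⟩
  conv_lhs => rw [← hf]
  symm
  refine Set.ncard_congr (fun t _ => Phi f t) (fun t ht => Phi_conf f ht)
    (fun t t' _ _ h => Phi_inj f h) (fun t ht => ?_)
  obtain ⟨t', h1, h2⟩ := Phi_surj f ht
  exact ⟨t', h1, h2⟩

theorem card_TS [Fintype α] (A : Finset α) (m : ℕ) :
    (TS A m).ncard = (TS (univ : Finset (Fin #A)) m).ncard := by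
  let f : Fin #A ↪ α := (A.equivFin.symm.toEmbedding).trans (Function.Embedding.subtype _)
  have hf : univ.map f = A := by
    ext x
    simp only [Finset.mem_map, mem_univ, true_and]
    constructor
    · rintro ⟨i, rfl⟩
      exact (A.equivFin.symm i).2
    · intro hx
      exact ⟨A.equivFin ⟨x, hx⟩, by simp [f]⟩
  conv_lhs => rw [← hf]
  symm
  refine Set.ncard_congr (fun t _ => Phi f t)
    (fun t ht => ⟨Phi_conf f ht.1, (tree_iff f t.2.1).2 ht.2⟩)
    (fun t t' _ _ h => Phi_inj f h) (fun t ht => ?_)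
  obtain ⟨t', h1, h2⟩ := Phi_surj f ht.1
  refine ⟨t', ⟨h1, ?_⟩, h2⟩
  rw [← h2] at ht
  exact (tree_iff f t'.2.1).1 ht.2

lemma finite_CS [Fintype α] (A : Finset α) (m : ℕ) : (CS A m).Finite := by
  have h1 : (Set.univ : Set (Equiv.Perm α)).Finite := Set.finite_univ
  have h2 : {c : α → ℕ | ∀ x, c x ∈ Set.Iic m}.Finite :=
    Set.Finite.pi' fun _ => Set.finite_Iic m
  refine ((h1.prod ((finite_normal A).prod h2))).subset ?_
  rintro ⟨σ, e, c⟩ h
  replace h : IsConf A m σ e c := h
  refine ⟨Set.mem_univ _, h.nor, fun x => ?_⟩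
  by_cases hx : x ∈ A
  · exact (h.lt x hx).le
  · change c x ≤ m
    rw [h.zero x hx]
    exact Nat.zero_le _

/-! ### components -/

lemma comp_unique {A C C' : Finset α} {e : Finset α →₀ ℕ} (h : IsComp A e C) (h' : IsComp A e C')
    (hi : ¬ Disjoint C C') : C = C' := by
  have key : ∀ {C C' : Finset α}, IsComp A e C → IsComp A e C' → ¬ Disjoint C C' → C ⊆ C' := by
    intro C C' h h' hi
    rcases h.top with h1 | h1
    · obtain ⟨x, rfl⟩ := card_eq_one.1 h1
      rw [Finset.disjoint_singleton_left, not_not] at hi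
      rwa [Finset.singleton_subset_iff]
    · rcases h'.sep C (Finsupp.mem_support_iff.2 h1) with h2 | h2
      · exact h2
      · exact absurd h2 hi
  exact (key h h' hi).antisymm (key h' h fun h1 => hi h1.symm)

lemma exists_comp {A : Finset α} {e : Finset α →₀ ℕ} (h : Normal A e) {x : α} (hx : x ∈ A) :
    ∃ C, IsComp A e C ∧ x ∈ C := by
  by_cases h1 : ∃ S ∈ e.support, x ∈ S
  · have hne : {S ∈ e.support | x ∈ S}.Nonempty := by
      obtain ⟨S, hS, hxS⟩ := h1
      exact ⟨S, Finset.mem_filter.2 ⟨hS, hxS⟩⟩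
    obtain ⟨S, hS, hmax⟩ := Finset.exists_max_image _ (fun S => #S) hne
    rw [Finset.mem_filter] at hS
    refine ⟨S, ⟨h.sub S hS.1, ⟨x, hS.2⟩, fun T hT => ?_, Or.inr (Finsupp.mem_support_iff.1 hS.1)⟩, hS.2⟩
    by_contra hc
    push Not at hc
    by_cases hST : S ⊆ T
    · have h2 := hmax T (Finset.mem_filter.2 ⟨hT, hST hS.2⟩)
      have h3 := Finset.eq_of_subset_of_card_le hST h2
      exact hc.1 h3.symm.subset
    · exact h.lam T hT S hS.1 ⟨hc.1, hST, hc.2⟩
  · push Not at h1
    refine ⟨{x}, ⟨Finset.singleton_subset_iff.2 hx, Finset.singleton_nonempty x, fun T hT => ?_,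
      Or.inl (card_singleton x)⟩, Finset.mem_singleton_self x⟩
    exact Or.inr (Finset.disjoint_singleton_right.2 (h1 T hT))

open Classical in
/-- the components -/
noncomputable def comps (A : Finset α) (e : Finset α →₀ ℕ) : Finset (Finset α) :=
  {C ∈ A.powerset | IsComp A e C}

lemma mem_comps {A C : Finset α} {e : Finset α →₀ ℕ} : C ∈ comps A e ↔ IsComp A e C := by
  classical
  unfold comps
  rw [Finset.mem_filter, Finset.mem_powerset]
  exact ⟨fun h => h.2, fun h => ⟨h.sub, h⟩⟩

lemma sum_comps {A : Finset α} {e : Finset α →₀ ℕ} (h : Normal A e) : ∑ C ∈ comps A e, #C = #A := by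
  have h1 : (comps A e).biUnion id = A := by
    ext x
    simp only [mem_biUnion, id]
    constructor
    · rintro ⟨C, hC, hx⟩
      exact (mem_comps.1 hC).sub hx
    · intro hx
      obtain ⟨C, hC, hxC⟩ := exists_comp h hx
      exact ⟨C, mem_comps.2 hC, hxC⟩
  conv_rhs => rw [← h1]
  symm
  apply Finset.card_biUnion
  intro C hC C' hC' hne
  by_contra hd
  exact hne (comp_unique (mem_comps.1 hC) (mem_comps.1 hC') hd)

lemma comps_top {A : Finset α} {e : Finset α →₀ ℕ} (h : Normal A e) (he : e A ≠ 0) :
    comps A e = {A} := by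
  have hA : A.Nonempty := by
    rw [← card_pos]
    have := h.three (Finsupp.mem_support_iff.2 he)
    omega
  ext C
  rw [mem_comps, Finset.mem_singleton]
  constructor
  · intro hC
    rcases hC.sep A (Finsupp.mem_support_iff.2 he) with h1 | h1
    · exact hC.sub.antisymm h1
    · exfalso
      obtain ⟨x, hx⟩ := hC.ne
      exact Finset.disjoint_left.1 h1 (hC.sub hx) hx
  · rintro rfl
    exact ⟨subset_rfl, hA, fun S hS => Or.inl (h.sub S hS), Or.inr he⟩

lemma comps_card {A : Finset α} {e : Finset α →₀ ℕ} (h : Normal A e) (he : e A = 0) (hA : 2 ≤ #A) :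
    #(comps A e) = cnt e.support A := by
  have h1 : comps A e = kids e.support A ∪
      ({a ∈ A | ∀ w ∈ kids e.support A, a ∉ w}).image fun a => ({a} : Finset α) := by
    ext C
    rw [mem_comps, Finset.mem_union, mem_kids, Finset.mem_image]
    constructor
    · intro hC
      rcases hC.top with h1 | h1
      · right
        obtain ⟨x, rfl⟩ := card_eq_one.1 h1
        refine ⟨x, Finset.mem_filter.2 ⟨hC.sub (Finset.mem_singleton_self x), fun w hw hxw => ?_⟩, rfl⟩
        have hw1 := (mem_kids.1 hw).1
        rcases hC.sep w hw1 with h2 | h2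
        · have h3 := h.three hw1
          have h4 := Finset.card_le_card h2
          rw [card_singleton] at h4
          omega
        · exact Finset.disjoint_left.1 h2 hxw (Finset.mem_singleton_self x)
      · left
        refine ⟨Finsupp.mem_support_iff.2 h1, hC.sub.ssubset_of_ne ?_, fun u hu hv hlt => ?_⟩
        · rintro rfl
          exact h1 he
        · rcases hC.sep u hu with h2 | h2
          · exact hlt.2 h2
          · obtain ⟨x, hx⟩ := hC.ne
            exact Finset.disjoint_left.1 h2 (hlt.1 hx) hx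
    · rintro (⟨h1, h2, h3⟩ | ⟨x, hx, rfl⟩)
      · refine ⟨h2.1, ?_, fun T hT => ?_, Or.inr (Finsupp.mem_support_iff.1 h1)⟩
        · rw [← card_pos]
          have := h.three h1
          omega
        · by_contra hc
          push Not at hc
          by_cases hCT : C ⊆ T
          · have hTA : T ⊂ A := (h.sub T hT).ssubset_of_ne fun hTA => by
              rw [hTA] at hT
              exact (Finsupp.mem_support_iff.1 hT) he
            exact h3 T hT hTA (hCT.ssubset_of_ne fun h4 => hc.1 h4.symm.subset)
          · exact h.lam T hT C h1 ⟨hc.1, hCT, hc.2⟩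
      · rw [Finset.mem_filter] at hx
        obtain ⟨C, hC, hxC⟩ := exists_comp h hx.1
        have hC1 : #C = 1 := by
          by_contra hC1
          have h4 := hC.top.resolve_left hC1
          have h5 : C ∈ kids e.support A := by
            rw [mem_kids]
            refine ⟨Finsupp.mem_support_iff.2 h4, hC.sub.ssubset_of_ne ?_, fun u hu hv hlt => ?_⟩
            · rintro rfl
              exact h4 he
            · rcases hC.sep u hu with h2 | h2
              · exact hlt.2 h2
              · exact Finset.disjoint_left.1 h2 (hlt.1 hxC) hxC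
          exact hx.2 C h5 hxC
        obtain ⟨y, rfl⟩ := card_eq_one.1 hC1
        rw [Finset.mem_singleton.1 hxC]
        exact hC
  rw [h1, Finset.card_union_of_disjoint, Finset.card_image_of_injective _ Finset.singleton_injective]
  · rfl
  · rw [Finset.disjoint_left]
    intro w hw hw'
    obtain ⟨x, _, rfl⟩ := Finset.mem_image.1 hw'
    have := h.three (mem_kids.1 hw).1
    rw [card_singleton] at this
    omega

lemma two_le_comps {A : Finset α} {e : Finset α →₀ ℕ} (h : Normal A e) (he : e A = 0) (hA : 2 ≤ #A) :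
    2 ≤ #(comps A e) := by
  by_contra hlt
  have h1 := sum_comps h
  have h2 : #(comps A e) = 0 ∨ #(comps A e) = 1 := by omega
  rcases h2 with h2 | h2
  · rw [card_eq_zero] at h2
    rw [h2, Finset.sum_empty] at h1
    omega
  · obtain ⟨C, hC⟩ := card_eq_one.1 h2
    rw [hC, Finset.sum_singleton] at h1
    have h3 : IsComp A e C := mem_comps.1 (by rw [hC]; exact Finset.mem_singleton_self C)
    have h4 : C = A := Finset.eq_of_subset_of_card_le h3.sub h1.ge
    rw [h4] at h3
    rcases h3.top with h5 | h5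
    · omega
    · exact h5 he

end Pool.Agent.K7.H68.MO
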